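import Pool.Agent.Helper395.BC.Chain

open scoped WithZero Matrix IntermediateField
open WithZero

set_option linter.unusedSectionVars false
set_option linter.unusedVariables false

namespace Pool.Agent.Helper395.BC

open Pool.Agent.Helper395.CS

variable {K : Type} [Field K] [Algebra ℂ K] {n m : ℕ}

theorem const_of_regular (hK : IsCurve K) {z : K} (hz : ∀ v : Point K, v.val z ≤ 1) :
    ∃ c : ℂ, z = algebraMap ℂ K c := by
  by_contra h
  have ht : Transcendental ℂ z := by
    by_contra h'
    exact h (exists_const h')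
  have h1 := degZ_eq hK ht
  have h2 : degP z = 0 := by
    rw [degP, finsum_eq_zero_of_forall_eq_zero]
    intro v
    have := v.ord_nonneg_of_val_le (hz v)
    rw [max_eq_right (by omega)]
  rw [degZ_eq_degP hK, h2] at h1
  have h3 := hK.finiteDimensional ht
  have h4 : 0 < Module.finrank ℂ⟮z⟯ K := Module.finrank_pos
  omega

/-! ### line bundles -/

theorem lstalk_add {L : LineBundle K} {v : Point K} {s t : K} (hs : s ∈ L.stalk v)
    (ht : t ∈ L.stalk v) : s + t ∈ L.stalk v := by
  change v.val (s + t) ≤ _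
  exact Valuation.map_add_le _ hs ht

theorem lstalk_smul {L : LineBundle K} {v : Point K} {s : K} (hs : s ∈ L.stalk v) (c : ℂ) :
    c • s ∈ L.stalk v := by
  change v.val (c • s) ≤ _
  rw [Algebra.smul_def, map_mul]
  exact (mul_le_of_le_one_left' (v.const_le c)).trans hs

theorem lstalk_zero {L : LineBundle K} {v : Point K} : (0 : K) ∈ L.stalk v := by
  change v.val 0 ≤ _
  rw [map_zero]
  exact zero_le

/-- the sections of a line bundle -/
def H0 (L : LineBundle K) : Submodule ℂ K where
  carrier := {f | ∀ v, f ∈ L.stalk v}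
  add_mem' := fun ha hb v => lstalk_add (ha v) (hb v)
  zero_mem' := fun v => lstalk_zero
  smul_mem' := fun c a ha v => lstalk_smul (ha v) c

/-- the dual of `H¹(L)` -/
def Om1 (L : LineBundle K) : Submodule ℂ (Module.Dual ℂ (repartitions K)) where
  carrier := {l | (∀ r : repartitions K, (∃ s, ∀ v, r.1 v = s) → l r = 0) ∧
    ∀ r : repartitions K, (∀ v, r.1 v ∈ L.stalk v) → l r = 0}
  add_mem' := by
    rintro a b ⟨ha, ha'⟩ ⟨hb, hb'⟩
    exact ⟨fun r hr => by rw [LinearMap.add_apply, ha r hr, hb r hr, add_zero],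
      fun r hr => by rw [LinearMap.add_apply, ha' r hr, hb' r hr, add_zero]⟩
  zero_mem' := ⟨fun _ _ => rfl, fun _ _ => rfl⟩
  smul_mem' := by
    rintro c a ⟨ha, ha'⟩
    exact ⟨fun r hr => by rw [LinearMap.smul_apply, ha r hr, smul_zero],
      fun r hr => by rw [LinearMap.smul_apply, ha' r hr, smul_zero]⟩

/-- the trivial line bundle -/
def one (K : Type) [Field K] [Algebra ℂ K] : LineBundle K where
  frame _ := 1
  finite := Set.finite_empty.subset fun v hv => hv (by simp)

theorem mem_one_stalk (v : Point K) (s : K) : s ∈ (one K).stalk v ↔ v.val s ≤ 1 := by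
  change v.val s ≤ v.val ((1 : Kˣ) : K) ↔ _
  rw [Units.val_one, map_one]

/-- `L ^ n` -/
noncomputable def lsum (L : LineBundle K) (n : ℕ) : Bundle K n where
  frame v := Matrix.GeneralLinearGroup.mkOfDetNeZero (Matrix.diagonal fun _ => (L.frame v : K)) (by
    rw [Matrix.det_diagonal]
    exact Finset.prod_ne_zero_iff.2 fun _ _ => (L.frame v).ne_zero)
  finite := by
    refine L.finite.subset fun v hv h => hv ?_
    have hreg : v.RegM (Matrix.diagonal fun _ : Fin n => (L.frame v : K)) := by
      intro i j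
      rcases eq_or_ne i j with rfl | hij
      · rw [Matrix.diagonal_apply_eq, h]
      · rw [Matrix.diagonal_apply_ne _ hij]; simp
    refine ⟨hreg, ?_⟩
    apply Point.RegM.inv (M := Matrix.GeneralLinearGroup.mkOfDetNeZero
      (Matrix.diagonal fun _ : Fin n => (L.frame v : K)) _) hreg
    change v.val (Matrix.diagonal fun _ : Fin n => (L.frame v : K)).det = 1
    rw [Matrix.det_diagonal, map_prod]
    exact Finset.prod_eq_one fun _ _ => h

theorem mem_lsum_stalk (L : LineBundle K) (v : Point K) (s : Fin n → K) :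
    s ∈ (lsum L n).stalk v ↔ ∀ i, s i ∈ L.stalk v := by
  rw [mem_stalk_iff]
  refine forall_congr' fun i => ?_
  have h1 := congrFun (gl_mulVec_inv ((lsum L n).frame v) s) i
  change (Matrix.diagonal (fun _ : Fin n => (L.frame v : K)) *ᵥ
    (((lsum L n).frame v)⁻¹.1 *ᵥ s)) i = s i at h1
  rw [Matrix.mulVec_diagonal] at h1
  change _ ↔ v.val (s i) ≤ v.val (L.frame v)
  rw [← h1, map_mul]
  have h0 : 0 < v.val (L.frame v : K) := zero_lt_iff.2 (v.val_ne_zero (L.frame v).ne_zero)
  constructor
  · intro h
    exact mul_le_of_le_one_right' h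
  · intro h
    exact (mul_le_iff_le_one_right h0).1 h

theorem lsum_degree (L : LineBundle K) (n : ℕ) : (lsum L n).degree = n * L.degree := by
  rw [Bundle.degree, LineBundle.degree, mul_finsum]
  refine finsum_congr fun v => ?_
  change -v.ord (Matrix.diagonal fun _ : Fin n => (L.frame v : K)).det = _
  rw [Matrix.det_diagonal, Finset.prod_const, Finset.card_univ, Fintype.card_fin, v.ord_pow]
  ring

/-- sections of `L ^ n` -/
noncomputable def secEquiv (L : LineBundle K) (n : ℕ) :
    (lsum L n).sections ≃ₗ[ℂ] (Fin n → H0 L) where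
  toFun s i := ⟨s.1 i, fun v => (mem_lsum_stalk L v s.1).1 (s.2 v) i⟩
  invFun f := ⟨fun i => (f i).1, fun v => (mem_lsum_stalk L v _).2 fun i => (f i).2 v⟩
  left_inv s := rfl
  right_inv f := rfl
  map_add' s t := rfl
  map_smul' c s := rfl

/-- the inclusion of a coordinate -/
noncomputable def singleA (i : Fin n) : repartitions K →ₗ[ℂ] AA K n where
  toFun r := ⟨fun v => Pi.single i (r.1 v), by
    refine r.2.subset fun v hv h => hv fun j => ?_
    change v.val ((Pi.single i (r.1 v) : Fin n → K) j) ≤ 1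
    rcases eq_or_ne j i with rfl | hj
    · rw [Pi.single_eq_same]; exact h
    · rw [Pi.single_eq_of_ne hj]; simp⟩
  map_add' r s := by
    apply Subtype.ext
    funext v
    exact Pi.single_add (f := fun _ : Fin n => K) i (r.1 v) (s.1 v)
  map_smul' c r := by
    apply Subtype.ext
    funext v
    exact Pi.single_smul (f := fun _ : Fin n => K) i c (r.1 v)

/-- a coordinate -/
def projA (i : Fin n) : AA K n →ₗ[ℂ] repartitions K where
  toFun r := ⟨fun v => r.1 v i, by
    refine Set.Finite.subset r.2 fun v hv h => hv (h i)⟩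
  map_add' r s := rfl
  map_smul' c r := rfl

theorem sum_single_proj (r : AA K n) : ∑ i, singleA i (projA i r) = r := by
  apply Subtype.ext
  rw [AddSubmonoidClass.coe_finsetSum]
  funext v
  rw [Finset.sum_apply]
  exact Finset.univ_sum_single (r.1 v)

theorem proj_single (i j : Fin n) (r : repartitions K) :
    projA j (singleA i r) = if j = i then r else 0 := by
  apply Subtype.ext
  funext v
  change (Pi.single i (r.1 v) : Fin n → K) j = _
  split_ifs with h
  · subst h
    rw [Pi.single_eq_same]
  · rw [Pi.single_eq_of_ne h]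
    rfl

/-- `Om (L ^ n) = Om1 L ^ n` -/
noncomputable def omEquiv (L : LineBundle K) (n : ℕ) : Om (lsum L n) ≃ₗ[ℂ] (Fin n → Om1 L) where
  toFun l i := ⟨l.1 ∘ₗ singleA i, by
    refine ⟨?_, ?_⟩
    · rintro r ⟨s, hs⟩
      exact l.2.1 _ ⟨Pi.single i s, fun v => by
        change (Pi.single i (r.1 v) : Fin n → K) = _
        rw [hs v]⟩
    · intro r hr
      refine l.2.2 _ fun v => ?_
      rw [mem_lsum_stalk]
      intro j
      change (Pi.single i (r.1 v) : Fin n → K) j ∈ _
      rcases eq_or_ne j i with rfl | hj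
      · rw [Pi.single_eq_same]; exact hr v
      · rw [Pi.single_eq_of_ne hj]; exact lstalk_zero⟩
  invFun w := ⟨∑ i, (w i).1 ∘ₗ projA i, by
    refine ⟨?_, ?_⟩
    · rintro r ⟨s, hs⟩
      rw [LinearMap.sum_apply]
      refine Finset.sum_eq_zero fun i _ => ?_
      exact (w i).2.1 _ ⟨s i, fun v => by
        change r.1 v i = s i
        rw [hs v]⟩
    · intro r hr
      rw [LinearMap.sum_apply]
      refine Finset.sum_eq_zero fun i _ => ?_
      exact (w i).2.2 _ fun v => (mem_lsum_stalk L v _).1 (hr v) i⟩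
  left_inv l := by
    apply Subtype.ext
    refine LinearMap.ext fun r => ?_
    change (∑ i, (l.1 ∘ₗ singleA i) ∘ₗ projA i) r = l.1 r
    rw [LinearMap.sum_apply]
    conv_rhs => rw [← sum_single_proj r]
    rw [map_sum]
    rfl
  right_inv w := by
    funext i
    apply Subtype.ext
    refine LinearMap.ext fun r => ?_
    change (∑ j, (w j).1 ∘ₗ projA j) (singleA i r) = (w i).1 r
    rw [LinearMap.sum_apply, Finset.sum_eq_single i]
    · rw [LinearMap.comp_apply, proj_single, if_pos rfl]
    · intro j _ hj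
      rw [LinearMap.comp_apply, proj_single, if_neg hj, map_zero]
    · simp
  map_add' l l' := rfl
  map_smul' c l := rfl

/-- the Euler characteristic of `L` is `χ` -/
def LHasChi (L : LineBundle K) (χ : ℤ) : Prop :=
  FiniteDimensional ℂ (H0 L) ∧ FiniteDimensional ℂ (Om1 L) ∧
    (Module.finrank ℂ (H0 L) : ℤ) - Module.finrank ℂ (Om1 L) = χ

theorem hasChi_lsum {L : LineBundle K} {χ : ℤ} (h : LHasChi L χ) (n : ℕ) :
    HasChi (lsum L n) (n * χ) := by
  obtain ⟨h1, h2, h3⟩ := h
  refine ⟨(secEquiv L n).symm.finiteDimensional, (omEquiv L n).symm.finiteDimensional, ?_⟩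
  rw [(secEquiv L n).finrank_eq, (omEquiv L n).finrank_eq, Module.finrank_pi_fintype,
    Module.finrank_pi_fintype]
  simp only [Finset.sum_const, Finset.card_univ, Fintype.card_fin, smul_eq_mul]
  rw [← h3]
  push_cast
  ring

theorem lHasChi_of_lsum {L : LineBundle K} {χ : ℤ} (h : HasChi (lsum L 1) χ) : LHasChi L χ := by
  obtain ⟨h1, h2, h3⟩ := h
  have e1 : (lsum L 1).sections ≃ₗ[ℂ] H0 L :=
    (secEquiv L 1).trans (LinearEquiv.funUnique (Fin 1) ℂ (H0 L))
  have e2 : Om (lsum L 1) ≃ₗ[ℂ] Om1 L :=
    (omEquiv L 1).trans (LinearEquiv.funUnique (Fin 1) ℂ (Om1 L))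
  refine ⟨e1.finiteDimensional, e2.finiteDimensional, ?_⟩
  rw [← e1.finrank_eq, ← e2.finrank_eq, h3]

theorem one_degree : (one K).degree = 0 := by
  rw [LineBundle.degree, finsum_eq_zero_of_forall_eq_zero]
  intro v
  change -v.ord ((1 : Kˣ) : K) = 0
  rw [Units.val_one, v.ord_one, neg_zero]

theorem mem_H0_one (hK : IsCurve K) (f : K) : f ∈ H0 (one K) ↔ ∃ c : ℂ, f = algebraMap ℂ K c := by
  constructor
  · intro h
    exact const_of_regular hK fun v => (mem_one_stalk v f).1 (h v)
  · rintro ⟨c, rfl⟩ v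
    rw [mem_one_stalk]
    exact v.const_le c

theorem H0_one (hK : IsCurve K) : FiniteDimensional ℂ (H0 (one K)) ∧
    Module.finrank ℂ (H0 (one K)) = 1 := by
  have h : H0 (one K) = Submodule.span ℂ {(1 : K)} := by
    ext f
    rw [mem_H0_one hK, Submodule.mem_span_singleton]
    constructor
    · rintro ⟨c, rfl⟩
      exact ⟨c, by rw [Algebra.smul_def, mul_one]⟩
    · rintro ⟨c, rfl⟩
      exact ⟨c, by rw [Algebra.smul_def, mul_one]⟩
  rw [h]
  exact ⟨inferInstance, finrank_span_singleton one_ne_zero⟩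

/-- the dual of `H¹(O)` -/
theorem om1_one_eq : Om1 (one K) = ((integralRepartitions K ⊔ principalRepartitions K).comap
    (repartitions K).subtype).dualAnnihilator := by
  have hint : integralRepartitions K ≤ repartitions K := fun r hr =>
    Set.finite_empty.subset fun v hv => hv (hr v)
  ext l
  rw [Submodule.mem_dualAnnihilator]
  constructor
  · rintro ⟨h1, h2⟩ r hr
    obtain ⟨a, ha, b, hb, hab⟩ := Submodule.mem_sup.1 (Submodule.mem_comap.1 hr)
    have hb' : b ∈ repartitions K := by
      have : b = r.1 - a := by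
        rw [eq_sub_iff_add_eq, add_comm]
        exact hab
      rw [this]
      exact sub_mem r.2 (hint ha)
    have hr' : r = ⟨a, hint ha⟩ + ⟨b, hb'⟩ := Subtype.ext hab.symm
    obtain ⟨f, hf⟩ := hb
    rw [hr', map_add, h2 _ fun v => (mem_one_stalk v _).2 (ha v), h1 _ ⟨f, hf⟩, add_zero]
  · intro h
    refine ⟨fun r hr => h r ?_, fun r hr => h r ?_⟩
    · exact Submodule.mem_comap.2 (Submodule.mem_sup_right hr)
    · exact Submodule.mem_comap.2 (Submodule.mem_sup_left fun v => (mem_one_stalk v _).1 (hr v))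

theorem lHasChi_one (hK : IsCurve K) (hg : genus K ≠ 0) : LHasChi (one K) (1 - genus K) := by
  have h1 := H0_one hK
  have hfin : FiniteDimensional ℂ (↥(repartitions K) ⧸
      (integralRepartitions K ⊔ principalRepartitions K).comap (repartitions K).subtype) :=
    Module.finite_of_finrank_pos (Nat.pos_of_ne_zero hg)
  have e := Submodule.dualQuotEquivDualAnnihilator
    ((integralRepartitions K ⊔ principalRepartitions K).comap (repartitions K).subtype)
  rw [← om1_one_eq] at e
  refine ⟨h1.1, e.finiteDimensional, ?_⟩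
  rw [h1.2, ← e.finrank_eq, Subspace.dual_finrank_eq]
  rfl

/-- Riemann-Roch without duality -/
theorem hasChi (hK : IsCurve K) (hg : genus K ≠ 0) (E : Bundle K n) :
    HasChi E (E.degree + n * (1 - genus K)) := by
  have h1 := hasChi_of_hasChi hK (hasChi_lsum (lHasChi_one hK hg) n) (F := E)
  rw [lsum_degree, one_degree] at h1
  convert h1 using 1
  ring

theorem lHasChi (hK : IsCurve K) (hg : genus K ≠ 0) (L : LineBundle K) :
    LHasChi L (L.degree + 1 - genus K) := by
  apply lHasChi_of_lsum
  convert hasChi hK hg (lsum L 1) using 1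
  rw [lsum_degree]
  push_cast
  ring

end Pool.Agent.Helper395.BC
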