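import Pool.Agent.Helper395.BC.Pencil

open scoped WithZero Matrix IntermediateField
open WithZero

set_option linter.unusedSectionVars false
set_option linter.unusedVariables false

namespace Pool.Agent.Helper395.BC

open Pool.Agent.Helper395.CS

variable {K : Type} [Field K] [Algebra ℂ K] {n m q k : ℕ}

theorem cramer_aux {F : Type} [Field F] (P1 P2 Q1 Q2 S1 S2 z1 z2 : F) (h : Q1 * S2 - Q2 * S1 ≠ 0) :
    P1 * z1 + P2 * z2 = (P1 * S2 - P2 * S1) / (Q1 * S2 - Q2 * S1) * (Q1 * z1 + Q2 * z2) +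
      (Q1 * P2 - Q2 * P1) / (Q1 * S2 - Q2 * S1) * (S1 * z1 + S2 * z2) := by
  rw [div_mul_eq_mul_div, div_mul_eq_mul_div, ← add_div, eq_div_iff h]
  ring

/-- factorisation of a binary quadratic form over `ℂ` -/
theorem binary_factor (r11 r12 r22 : ℂ) : ∃ p1 p2 s1 s2 : ℂ,
    r11 = p1 * s1 ∧ r12 = p1 * s2 + p2 * s1 ∧ r22 = p2 * s2 := by
  by_cases h : r11 = 0
  · subst h
    exact ⟨0, 1, r12, r22, by ring, by ring, by ring⟩
  · obtain ⟨d, hd⟩ := IsAlgClosed.exists_pow_nat_eq (r12 ^ 2 - 4 * r11 * r22) (n := 2) (by norm_num)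
    refine ⟨r11, (r12 - d) / 2, 1, (r12 + d) / (2 * r11), by ring, by field_simp; ring, ?_⟩
    field_simp
    linear_combination hd

/-- the pencil defined by a rational function has degree at least three -/
theorem degP_ge (hK : IsCurve K) (hg : genus K ≠ 0) (hs : SmallH0 K) {h : K}
    (hnc : ∀ c : ℂ, h ≠ algebraMap ℂ K c) : 3 ≤ degP h := by
  classical
  have hh0 : h ≠ 0 := by
    have := hnc 0
    rwa [map_zero] at this
  by_contra hcon
  push Not at hcon
  let P : LineBundle K :=
    { frame := fun v => if v.val h ≤ 1 then 1 else Units.mk0 h hh0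
      finite := (finite_not_reg hK h).subset fun v hv h1 => by
        apply hv
        rw [if_pos h1, Units.val_one, map_one] }
  have hP : ∀ v : Point K, v.val (P.frame v : K) = max 1 (v.val h) := by
    intro v
    change v.val ((if v.val h ≤ 1 then 1 else Units.mk0 h hh0 : Kˣ) : K) = _
    split_ifs with h1
    · rw [Units.val_one, map_one, max_eq_left h1]
    · rw [Units.val_mk0, max_eq_right (not_le.1 h1).le]
  have hdeg : P.degree = degP h := by
    rw [LineBundle.degree, degP]
    refine finsum_congr fun v => ?_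
    change -v.ord ((if v.val h ≤ 1 then 1 else Units.mk0 h hh0 : Kˣ) : K) = _
    split_ifs with h1
    · rw [Units.val_one, v.ord_one, neg_zero]
      have := (v.val_le_one_iff hh0).1 h1
      rw [max_eq_right (by omega)]
    · rw [Units.val_mk0]
      have := (v.one_lt_val_iff hh0).1 (not_le.1 h1)
      rw [max_eq_left (by omega)]
  have h1 : (1 : K) ∈ H0 P := by
    intro v
    change v.val 1 ≤ v.val (P.frame v : K)
    rw [hP, map_one]
    exact le_max_left _ _
  have h2 : h ∈ H0 P := by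
    intro v
    change v.val h ≤ v.val (P.frame v : K)
    rw [hP]
    exact le_max_right _ _
  have hfin := H0_finite hK hg P
  obtain ⟨z, hz⟩ := finrank_le_one_iff.1 (hs P (by rw [hdeg]; omega))
  obtain ⟨a, ha⟩ := hz ⟨1, h1⟩
  obtain ⟨b, hb⟩ := hz ⟨h, h2⟩
  have ha' : a • (z : K) = 1 := congrArg Subtype.val ha
  have hb' : b • (z : K) = h := congrArg Subtype.val hb
  have ha0 : a ≠ 0 := by
    rintro rfl
    rw [zero_smul] at ha'
    exact zero_ne_one ha'
  apply hnc (b / a)
  rw [← hb', Algebra.smul_def, map_div₀]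
  rw [Algebra.smul_def] at ha'
  have h3 : algebraMap ℂ K a ≠ 0 := (map_ne_zero _).2 ha0
  field_simp
  rw [mul_assoc, mul_comm (z : K), ha', mul_one]

/-- there is no conic through a globally generated net of small degree; the main case -/
theorem no_conic_aux (hK : IsCurve K) (hg : genus K ≠ 0) (hs : SmallH0 K) {L : LineBundle K}
    {c : Fin 3 → K} (h : GG3 L c) (hd : L.degree ≤ 5) {v : Point K} {z0 z1 z2 : K}
    (hz0 : z0 ∈ H0 L) (hz1 : z1 ∈ H0 L) (hz2 : z2 ∈ H0 L)
    (hc : ∀ i, ∃ a b d : ℂ, c i = a • z0 + b • z1 + d • z2)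
    (hind : ∀ a b d : ℂ, a • z0 + b • z1 + d • z2 = 0 → a = 0 ∧ b = 0 ∧ d = 0)
    (hv1 : v.val z1 < v.val z0) (hv2 : v.val z2 < v.val z0) {p q1 q2 r11 r12 r22 : ℂ}
    (hrel : p • (z0 * z0) + q1 • (z0 * z1) + q2 • (z0 * z2) + r11 • (z1 * z1) + r12 • (z1 * z2) +
      r22 • (z2 * z2) = 0) : p = 0 ∧ q1 = 0 ∧ q2 = 0 ∧ r11 = 0 ∧ r12 = 0 ∧ r22 = 0 := by
  have hpos : 0 < v.val z0 := lt_of_le_of_lt zero_le hv1
  -- `p = 0`
  have hp : p = 0 := by
    by_contra hp
    have hlt : ∀ (a : ℂ) (x y : K), v.val x ≤ v.val z0 → v.val y < v.val z0 →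
        v.val (a • (x * y)) < v.val (z0 * z0) := by
      intro a x y hx hy
      rw [Algebra.smul_def, map_mul, map_mul, map_mul]
      refine (mul_le_of_le_one_left' (v.const_le a)).trans_lt ?_
      exact (mul_le_mul_left hx _).trans_lt ((mul_lt_mul_iff_of_pos_left hpos).2 hy)
    have h1 : v.val (p • (z0 * z0)) = v.val (z0 * z0) := by
      rw [Algebra.smul_def, map_mul, v.const p hp, one_mul]
    have h2 : p • (z0 * z0) = -(q1 • (z0 * z1) + q2 • (z0 * z2) + r11 • (z1 * z1) +
        r12 • (z1 * z2) + r22 • (z2 * z2)) := by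
      linear_combination (exp := 1) hrel
    rw [h2, Valuation.map_neg] at h1
    have h3 : v.val (q1 • (z0 * z1) + q2 • (z0 * z2) + r11 • (z1 * z1) +
        r12 • (z1 * z2) + r22 • (z2 * z2)) < v.val (z0 * z0) :=
      Valuation.map_add_lt _ (Valuation.map_add_lt _ (Valuation.map_add_lt _
        (Valuation.map_add_lt _ (hlt _ _ _ le_rfl hv1) (hlt _ _ _ le_rfl hv2))
        (hlt _ _ _ hv1.le hv1)) (hlt _ _ _ hv1.le hv2)) (hlt _ _ _ hv2.le hv2)
    exact h3.ne h1
  subst hp
  refine ⟨rfl, ?_⟩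
  obtain ⟨p1, p2, s1, s2, e11, e12, e22⟩ := binary_factor r11 r12 r22
  set mm : K := q1 • z1 + q2 • z2 with hmm
  set l1 : K := p1 • z1 + p2 • z2 with hl1
  set l2 : K := s1 • z1 + s2 • z2 with hl2
  have hrel2 : z0 * mm = -(l1 * l2) := by
    rw [hmm, hl1, hl2]
    simp only [Algebra.smul_def] at hrel ⊢
    rw [e11, e12, e22] at hrel
    simp only [map_mul, map_add, map_zero] at hrel
    linear_combination hrel
  have hz00 : z0 ≠ 0 := by
    rintro rfl
    rw [map_zero] at hpos
    exact lt_irrefl _ hpos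
  have hlin : ∀ a b : ℂ, a • z1 + b • z2 = 0 → a = 0 ∧ b = 0 := by
    intro a b hab
    have := hind 0 a b (by rw [zero_smul, zero_add, hab])
    exact this.2
  by_cases hm0 : mm = 0
  · obtain ⟨hq1, hq2⟩ := hlin _ _ hm0
    rw [hm0, mul_zero, eq_comm, neg_eq_zero, mul_eq_zero] at hrel2
    rcases hrel2 with h1 | h1
    · obtain ⟨hp1, hp2⟩ := hlin _ _ h1
      refine ⟨hq1, hq2, ?_, ?_, ?_⟩
      · rw [e11, hp1, zero_mul]
      · rw [e12, hp1, hp2]; ring
      · rw [e22, hp2, zero_mul]
    · obtain ⟨hp1, hp2⟩ := hlin _ _ h1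
      refine ⟨hq1, hq2, ?_, ?_, ?_⟩
      · rw [e11, hp1, mul_zero]
      · rw [e12, hp1, hp2]; ring
      · rw [e22, hp2, mul_zero]
  exfalso
  have hl10 : l1 ≠ 0 := by
    intro h1
    rw [h1, zero_mul, neg_zero, mul_eq_zero] at hrel2
    exact hrel2.elim hz00 hm0
  have hl20 : l2 ≠ 0 := by
    intro h1
    rw [h1, mul_zero, neg_zero, mul_eq_zero] at hrel2
    exact hrel2.elim hz00 hm0
  -- `m, l₂` are independent
  have hdet : q1 * s2 - q2 * s1 ≠ 0 := by
    intro hdet
    -- then `l₂` is a multiple of `m`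
    have h1 : ∃ t : ℂ, l2 = t • mm := by
      by_cases hq : q1 = 0
      · have hq2 : q2 ≠ 0 := by
          intro h2
          apply hm0
          rw [hmm, hq, h2, zero_smul, zero_smul, add_zero]
        refine ⟨s2 / q2, ?_⟩
        have hs1 : s1 = 0 := by
          rw [hq, zero_mul, zero_sub, neg_eq_zero, mul_eq_zero] at hdet
          exact hdet.resolve_left hq2
        rw [hl2, hmm, hq, hs1]
        simp only [zero_smul, zero_add, smul_smul]
        rw [div_mul_cancel₀ _ hq2]
      · refine ⟨s1 / q1, ?_⟩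
        have hs2 : s2 = s1 / q1 * q2 := by
          field_simp
          linear_combination hdet
        rw [hl2, hmm, smul_add, smul_smul, smul_smul, div_mul_cancel₀ _ hq, ← hs2]
    obtain ⟨t, ht⟩ := h1
    have h2 : z0 = -(t • l1) := by
      have h3 : mm * (z0 + t • l1) = 0 := by
        have : mm * (z0 + t • l1) = z0 * mm + l1 * (t • mm) := by
          simp only [Algebra.smul_def]; ring
        rw [this, hrel2, ← ht]
        ring
      have h4 := (mul_eq_zero.1 h3).resolve_left hm0
      exact eq_neg_of_add_eq_zero_left h4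
    have h5 := hind 1 (t * p1) (t * p2) (by
      rw [one_smul, mul_smul, mul_smul]
      have h6 : z0 + t • p1 • z1 + t • p2 • z2 = z0 + t • l1 := by
        rw [hl1, smul_add]; abel
      rw [h6]
      nth_rewrite 1 [h2]
      exact neg_add_cancel _)
    exact one_ne_zero h5.1
  -- `l₁ = α m + β l₂`
  obtain ⟨α, β, hαβ⟩ : ∃ α β : ℂ, l1 = α • mm + β • l2 := by
    refine ⟨(p1 * s2 - p2 * s1) / (q1 * s2 - q2 * s1), (q1 * p2 - q2 * p1) / (q1 * s2 - q2 * s1), ?_⟩
    have hd' : algebraMap ℂ K (q1 * s2 - q2 * s1) ≠ 0 := (map_ne_zero _).2 hdet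
    rw [hl1, hmm, hl2]
    rw [map_sub, map_mul, map_mul] at hd'
    simp only [Algebra.smul_def, map_div₀, map_sub, map_mul]
    exact cramer_aux _ _ _ _ _ _ _ _ hd'
  have hβ : β ≠ 0 := by
    rintro rfl
    rw [zero_smul, add_zero] at hαβ
    have h2 : z0 = -(α • l2) := by
      have h3 : mm * (z0 + α • l2) = 0 := by
        have : mm * (z0 + α • l2) = z0 * mm + (α • mm) * l2 := by
          simp only [Algebra.smul_def]; ring
        rw [this, hrel2, ← hαβ]
        ring
      have h4 := (mul_eq_zero.1 h3).resolve_left hm0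
      exact eq_neg_of_add_eq_zero_left h4
    have h5 := hind 1 (α * s1) (α * s2) (by
      rw [one_smul, mul_smul, mul_smul]
      have h6 : z0 + α • s1 • z1 + α • s2 • z2 = z0 + α • l2 := by
        rw [hl2, smul_add]; abel
      rw [h6]
      nth_rewrite 1 [h2]
      exact neg_add_cancel _)
    exact one_ne_zero h5.1
  -- the rational function
  set hh : K := l2 / mm with hhdef
  have hl2' : l2 = mm * hh := by rw [hhdef, mul_div_cancel₀ _ hm0]
  have hz0' : z0 = -(mm * (algebraMap ℂ K α * hh + algebraMap ℂ K β * hh ^ 2)) := by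
    have h3 : mm * z0 = mm * -(mm * (algebraMap ℂ K α * hh + algebraMap ℂ K β * hh ^ 2)) := by
      rw [mul_comm mm z0, hrel2, hαβ, hl2']
      simp only [Algebra.smul_def]
      ring
    exact mul_left_cancel₀ hm0 h3
  -- `z₁, z₂` in terms of `m, l₂`
  have hz12 : (∃ a b : ℂ, z1 = a • mm + b • l2) ∧ (∃ a b : ℂ, z2 = a • mm + b • l2) := by
    have hd' : algebraMap ℂ K (q1 * s2 - q2 * s1) ≠ 0 := (map_ne_zero _).2 hdet
    rw [map_sub, map_mul, map_mul] at hd'
    constructor
    · refine ⟨(1 * s2 - 0 * s1) / (q1 * s2 - q2 * s1), (q1 * 0 - q2 * 1) / (q1 * s2 - q2 * s1), ?_⟩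
      have := cramer_aux 1 0 _ _ _ _ z1 z2 hd'
      rw [hmm, hl2]
      simp only [Algebra.smul_def, map_div₀, map_sub, map_mul, map_one, map_zero]
      rw [← this]
      ring
    · refine ⟨(0 * s2 - 1 * s1) / (q1 * s2 - q2 * s1), (q1 * 1 - q2 * 0) / (q1 * s2 - q2 * s1), ?_⟩
      have := cramer_aux 0 1 _ _ _ _ z1 z2 hd'
      rw [hmm, hl2]
      simp only [Algebra.smul_def, map_div₀, map_sub, map_mul, map_one, map_zero]
      rw [← this]
      ring
  have hnc : ∀ t : ℂ, hh ≠ algebraMap ℂ K t := by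
    intro t ht
    have h1 : l2 = t • mm := by rw [hl2', ht, Algebra.smul_def, mul_comm]
    have h2 := hlin (s1 - t * q1) (s2 - t * q2) (by
      have : (s1 - t * q1) • z1 + (s2 - t * q2) • z2 = l2 - t • mm := by
        rw [hl2, hmm]
        simp only [Algebra.smul_def, map_sub, map_mul]
        ring
      rw [this, h1, sub_self])
    apply hdet
    linear_combination q1 * h2.2 - q2 * h2.1
  have h3 := degP_ge hK hg hs hnc
  -- the degree of `L`
  have hmmem : mm ∈ H0 L := add_mem (Submodule.smul_mem _ _ hz1) (Submodule.smul_mem _ _ hz2)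
  have hl2mem : l2 ∈ H0 L := add_mem (Submodule.smul_mem _ _ hz1) (Submodule.smul_mem _ _ hz2)
  have hmem2 : mm * hh ^ 2 ∈ H0 L := by
    have hb' : algebraMap ℂ K β ≠ 0 := (map_ne_zero _).2 hβ
    have : mm * hh ^ 2 = β⁻¹ • (-z0 - α • l2) := by
      rw [Algebra.smul_def, map_inv₀, Algebra.smul_def, hz0', hl2']
      field_simp
      ring
    rw [this]
    exact Submodule.smul_mem _ _ (sub_mem (neg_mem hz0) (Submodule.smul_mem _ _ hl2mem))
  have hval : ∀ w : Point K, w.val (L.frame w : K) ≤ w.val mm * (max 1 (w.val hh)) ^ 2 := by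
    intro w
    have key : ∀ a b d : ℂ, w.val (a • mm + b • (mm * hh) + d • (mm * hh ^ 2)) ≤
        w.val mm * (max 1 (w.val hh)) ^ 2 := by
      intro a b d
      have hmax : (1 : ℤᵐ⁰) ≤ max 1 (w.val hh) := le_max_left _ _
      refine Valuation.map_add_le _ (Valuation.map_add_le _ ?_ ?_) ?_
      · rw [Algebra.smul_def, map_mul]
        refine (mul_le_of_le_one_left' (w.const_le a)).trans ?_
        exact le_mul_of_one_le_right' (one_le_pow₀ hmax)
      · rw [Algebra.smul_def, map_mul, map_mul]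
        refine (mul_le_of_le_one_left' (w.const_le b)).trans ?_
        refine mul_le_mul_right ?_ _
        rw [pow_two]
        exact (le_max_right _ _).trans (le_mul_of_one_le_right' hmax)
      · rw [Algebra.smul_def, map_mul, map_mul, map_pow]
        refine (mul_le_of_le_one_left' (w.const_le d)).trans ?_
        exact mul_le_mul_right (pow_le_pow_left₀ zero_le (le_max_right _ _) 2) _
    have hcomb : ∀ i, ∃ a b d : ℂ, c i = a • mm + b • (mm * hh) + d • (mm * hh ^ 2) := by
      intro i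
      obtain ⟨a, b, d, habd⟩ := hc i
      obtain ⟨⟨a1, b1, h1⟩, ⟨a2, b2, h2⟩⟩ := hz12
      refine ⟨b * a1 + d * a2, b * b1 + d * b2 - a * α, -(a * β), ?_⟩
      rw [habd, h1, h2, hz0', hl2']
      simp only [Algebra.smul_def, map_add, map_mul, map_sub, map_neg]
      ring
    obtain ⟨i, hi⟩ := h.gen w
    rw [← hi]
    obtain ⟨a, b, d, habd⟩ := hcomb i
    rw [habd]
    exact key a b d
  have hhh0 : hh ≠ 0 := by
    have := hnc 0
    rwa [map_zero] at this
  have hval2 : ∀ w : Point K, -w.ord (L.frame w : K) = -w.ord mm + 2 * max (-w.ord hh) 0 := by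
    intro w
    have h4 := hval w
    have h5 : w.val mm ≤ w.val (L.frame w : K) := hmmem w
    have h6 : w.val (mm * hh ^ 2) ≤ w.val (L.frame w : K) := hmem2 w
    rw [w.val_le_val_iff hm0 (L.frame w).ne_zero] at h5
    rw [w.val_le_val_iff (mul_ne_zero hm0 (pow_ne_zero _ hhh0)) (L.frame w).ne_zero,
      w.ord_mul hm0 (pow_ne_zero _ hhh0), w.ord_pow] at h6
    by_cases h7 : w.val hh ≤ 1
    · rw [max_eq_left h7, one_pow, mul_one, w.val_le_val_iff (L.frame w).ne_zero hm0] at h4
      have := (w.val_le_one_iff hhh0).1 h7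
      rw [max_eq_right (by omega)]
      omega
    · rw [max_eq_right (not_le.1 h7).le, ← map_pow, ← map_mul,
        w.val_le_val_iff (L.frame w).ne_zero (mul_ne_zero hm0 (pow_ne_zero _ hhh0)),
        w.ord_mul hm0 (pow_ne_zero _ hhh0), w.ord_pow] at h4
      have := (w.one_lt_val_iff hhh0).1 (not_le.1 h7)
      rw [max_eq_left (by omega)]
      push_cast at h4 h6
      omega
  have hdeg : L.degree = 2 * degP hh := by
    rw [LineBundle.degree, finsum_congr hval2, finsum_add_distrib, degP, mul_finsum]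
    · rw [finsum_neg_distrib, sum_ord hK, neg_zero, zero_add]
    · refine (finite_ord hK mm).subset fun w hw => ?_
      rw [Function.mem_support, neg_ne_zero] at hw
      exact hw
    · refine (finite_ord_neg hK hh).subset fun w hw => ?_
      rw [Function.mem_support] at hw
      change w.ord hh < 0
      omega
  omega

end Pool.Agent.Helper395.BC
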