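import Pool.Agent.Helper395.BC.Pairs

open scoped WithZero Matrix IntermediateField
open WithZero

set_option linter.unusedSectionVars false
set_option linter.unusedVariables false

namespace Pool.Agent.Helper395.BC

open Pool.Agent.Helper395.CS

variable {K : Type} [Field K] [Algebra ℂ K] {n m q k : ℕ}

/-- the data for the construction -/
structure Dat (L1 L2 : LineBundle K) (a b α : Fin 3 → K) (u : Point K → K) : Prop where
  d1 : L1.degree = 5
  d2 : L2.degree = 4
  ga : GG3 L1 a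
  gb : GG3 L2 b
  hα : ∀ v l, α l - u v * b l ∈ L1.stalk v
  hu : ∀ w : K, ∃ v, (w - u v) * (L2.frame v : K) ∉ L1.stalk v

theorem range_eq_ker {L : LineBundle K} {c : Fin 3 → K} (h : GG3 L c)
    {ψ : (Fin 2 → K) →ₗ[K] (Fin 3 → K)} (hψ : Function.Injective ψ)
    (hrel : ∀ x, ∑ i, c i * ψ x i = 0) {t : Fin 3 → K} (ht : ∑ i, c i * t i = 0) :
    ∃ x, ψ x = t := by
  have h1 : LinearMap.range ψ = LinearMap.ker (dotc c) := by
    apply Submodule.eq_of_le_of_finrank_eq
    · rintro _ ⟨x, rfl⟩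
      rw [LinearMap.mem_ker]
      funext i
      exact hrel x
    · rw [LinearMap.finrank_range_of_inj hψ, h.ker_finrank]
      simp
  have h2 : t ∈ LinearMap.ker (dotc c) := by
    rw [LinearMap.mem_ker]
    funext i
    exact ht
  rw [← h1] at h2
  exact h2

/-- proportionality -/
theorem prop_of_ker {c β : Fin 3 → K} (hc : c 0 ≠ 0)
    (h : ∀ t : Fin 3 → K, ∑ i, c i * t i = 0 → ∑ i, β i * t i = 0) (l : Fin 3) :
    β l = β 0 / c 0 * c l := by
  have h1 : c 0 * β l = β 0 * c l := by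
    fin_cases l
    · exact mul_comm _ _
    · have := h ![c 1, -c 0, 0] (by
        rw [Fin.sum_univ_three]
        simp only [Matrix.cons_val_zero, Matrix.cons_val_one, Matrix.cons_val]
        ring)
      rw [Fin.sum_univ_three] at this
      simp only [Matrix.cons_val_zero, Matrix.cons_val_one, Matrix.cons_val] at this
      change c 0 * β 1 = β 0 * c 1
      linear_combination -this
    · have := h ![c 2, 0, -c 0] (by
        rw [Fin.sum_univ_three]
        simp only [Matrix.cons_val_zero, Matrix.cons_val_one, Matrix.cons_val]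
        ring)
      rw [Fin.sum_univ_three] at this
      simp only [Matrix.cons_val_zero, Matrix.cons_val_one, Matrix.cons_val] at this
      change c 0 * β 2 = β 0 * c 2
      linear_combination -this
  rw [div_mul_eq_mul_div, eq_div_iff hc, mul_comm, h1]

/-- the extension does not split -/
theorem Dat.not_split (hK : IsCurve K) (hg : genus K ≠ 0) (hs : SmallH0 K)
    {L1 L2 : LineBundle K} {a b α : Fin 3 → K} {u : Point K → K} (D : Dat L1 L2 a b α u)
    {S : Bundle K 2} {ψ : (Fin 2 → K) →ₗ[K] (Fin (3 + 3) → K)} (h : SubM a b α S ψ)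
    (hinj : Function.Injective (p2 ∘ₗ ψ)) : S.degree ≤ -5 := by
  obtain ⟨R, hR⟩ := exists_sub hK (trivialBundle K 3) (p2 ∘ₗ ψ) hinj
  have hRk : SubKer b R (p2 ∘ₗ ψ) := ⟨hinj, fun v x => by rw [hR.stalk, mem_trivial], h.rel2⟩
  have hRd := (hRk.bounds hK hg hs D.gb).2.2.2 rfl
  rw [D.d2] at hRd
  have hle : ∀ (v : Point K) x, x ∈ S.stalk v → x ∈ R.stalk v := by
    intro v x hx
    rw [hRk.stalk]
    exact ((reg_iff v _).1 ((h.stalk v x).1 hx)).2
  have h1 := degree_le_of_le hK hle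
  by_contra hcon
  have h2 := stalk_eq_of_degree_eq hK hle (by omega)
  obtain ⟨ρ, hρ⟩ := (p2 ∘ₗ ψ).exists_leftInverse_of_injective (LinearMap.ker_eq_bot.2 hinj)
  have hρ' : ∀ x, ρ (p2 (ψ x)) = x := fun x => LinearMap.congr_fun hρ x
  have hC : ∀ i, ∃ C : Fin 3 → ℂ, ∀ t : Fin 3 → K, ∑ i, b i * t i = 0 →
      p1 (ψ (ρ t)) i = ∑ l, C l • t l := by
    intro i
    refine hom_const hK hg hs D.gb (by rw [D.d2]; norm_num)
      ((LinearMap.proj i ∘ₗ p1 ∘ₗ ψ ∘ₗ ρ : (Fin 3 → K) →ₗ[K] K)) ?_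
    intro v t ht hbt
    obtain ⟨x, rfl⟩ := range_eq_ker D.gb hinj h.rel2 hbt
    change v.val (p1 (ψ (ρ (p2 (ψ x)))) i) ≤ 1
    rw [hρ']
    have h3 : x ∈ S.stalk v := by
      rw [h2 v, hRk.stalk]
      exact ht
    exact ((reg_iff v _).1 ((h.stalk v x).1 h3)).1 i
  choose C hC using hC
  set β : Fin 3 → K := fun l => α l + ∑ i, C i l • a i with hβ
  have hβt : ∀ t : Fin 3 → K, ∑ i, b i * t i = 0 → ∑ l, β l * t l = 0 := by
    intro t ht
    obtain ⟨x, hx⟩ := range_eq_ker D.gb hinj h.rel2 ht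
    have hx' : p2 (ψ x) = t := hx
    have h3 := h.rel1 x
    have h4 : ∀ i, p1 (ψ x) i = ∑ l, C i l • t l := by
      intro i
      rw [← hC i t ht, ← hx', hρ']
    rw [hx'] at h3
    simp only [h4] at h3
    rw [← h3]
    simp only [hβ, Fin.sum_univ_three, Algebra.smul_def]
    ring
  have hprop := prop_of_ker (D.gb.ne_zero 0) hβt
  obtain ⟨v, hv⟩ := D.hu (β 0 / b 0)
  apply hv
  obtain ⟨l, hl⟩ := D.gb.gen v
  have h5 : (β 0 / b 0 - u v) * b l = ∑ i, C i l • a i + (α l - u v * b l) := by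
    rw [sub_mul, ← hprop l, hβ]
    ring
  have h6 : (β 0 / b 0 - u v) * b l ∈ L1.stalk v := by
    rw [h5]
    refine lstalk_add ?_ (D.hα v l)
    have h7 : ∑ i, C i l • a i ∈ H0 L1 := Submodule.sum_mem _ fun i _ =>
      Submodule.smul_mem _ _ (D.ga.mem i)
    exact h7 v
  change v.val ((β 0 / b 0 - u v) * (L2.frame v : K)) ≤ _
  rw [map_mul, ← hl, ← map_mul]
  exact h6

/-- bounds for the degrees of subbundles of `M` -/
theorem Dat.bounds (hK : IsCurve K) (hg : genus K ≠ 0) (hs : SmallH0 K)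
    {L1 L2 : LineBundle K} {a b α : Fin 3 → K} {u : Point K → K} (D : Dat L1 L2 a b α u)
    {S : Bundle K q} {ψ : (Fin q → K) →ₗ[K] (Fin (3 + 3) → K)} (h : SubM a b α S ψ) :
    (q = 1 → S.degree ≤ -3) ∧ (q = 2 → S.degree ≤ -5) ∧ (q = 3 → S.degree ≤ -7) := by
  obtain ⟨q1, q2, R1, R2, ψ1, ψ2, hq, hR1, hR2, hdeg, hinj, -⟩ := h.split hK
  obtain ⟨b1, b10, b11, b12⟩ := hR1.bounds hK hg hs D.ga
  obtain ⟨b2, b20, b21, b22⟩ := hR2.bounds hK hg hs D.gb
  rw [D.d1] at b12
  rw [D.d2] at b22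
  refine ⟨fun h1 => ?_, fun h2 => ?_, fun h3 => ?_⟩
  · have : q1 = 0 ∨ q1 = 1 := by omega
    rcases this with e | e
    · have := b10 e
      have := b21 (by omega)
      omega
    · have := b11 e
      have := b20 (by omega)
      omega
  · subst h2
    have : q1 = 0 ∨ q1 = 1 ∨ q1 = 2 := by omega
    rcases this with e | e | e
    · exact D.not_split hK hg hs h (hinj e)
    · have := b11 e
      have := b21 (by omega)
      omega
    · have := b12 e
      have := b20 (by omega)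
      omega
  · have : q1 = 1 ∨ q1 = 2 := by omega
    rcases this with e | e
    · have := b11 e
      have := b22 (by omega)
      omega
    · have := b12 e
      have := b21 (by omega)
      omega

/-- local lifting -/
theorem Dat.lift {L1 L2 : LineBundle K} {a b α : Fin 3 → K} {u : Point K → K}
    (D : Dat L1 L2 a b α u) (v : Point K) {t : Fin 3 → K} (ht : v.Reg t)
    (hbt : ∑ i, b i * t i = 0) : ∃ s : Fin 3 → K, v.Reg s ∧
      ∑ i, a i * s i + ∑ i, α i * t i = 0 := by
  have h1 : -∑ i, α i * t i ∈ L1.stalk v := by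
    have h2 : -∑ i, α i * t i = -∑ i, (α i - u v * b i) * t i := by
      have : ∑ i, (α i - u v * b i) * t i = ∑ i, α i * t i - u v * ∑ i, b i * t i := by
        rw [Finset.mul_sum, ← Finset.sum_sub_distrib]
        exact Finset.sum_congr rfl fun i _ => by ring
      rw [this, hbt, mul_zero, sub_zero]
    rw [h2]
    change v.val _ ≤ _
    rw [Valuation.map_neg]
    refine Valuation.map_sum_le _ fun i _ => ?_
    rw [map_mul]
    exact (mul_le_of_le_one_right' (ht i)).trans (D.hα v i)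
  obtain ⟨s, hs, hs'⟩ := D.ga.exists_coord v h1
  exact ⟨s, hs, by rw [hs']; exact neg_add_cancel _⟩

/-- the defining equations of `M` -/
def eqM (a b α : Fin 3 → K) : (Fin (3 + 3) → K) →ₗ[K] (Fin 2 → K) where
  toFun s := ![∑ i, a i * p1 s i + ∑ i, α i * p2 s i, ∑ i, b i * p2 s i]
  map_add' s t := by
    funext i
    fin_cases i
    · change ∑ i, a i * (p1 (s + t)) i + ∑ i, α i * (p2 (s + t)) i =
        (∑ i, a i * p1 s i + ∑ i, α i * p2 s i) + (∑ i, a i * p1 t i + ∑ i, α i * p2 t i)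
      simp only [map_add, Pi.add_apply, mul_add, Finset.sum_add_distrib]
      ring
    · change ∑ i, b i * (p2 (s + t)) i = ∑ i, b i * p2 s i + ∑ i, b i * p2 t i
      simp only [map_add, Pi.add_apply, mul_add, Finset.sum_add_distrib]
  map_smul' c s := by
    funext i
    fin_cases i
    · change ∑ i, a i * (p1 (c • s)) i + ∑ i, α i * (p2 (c • s)) i =
        c * (∑ i, a i * p1 s i + ∑ i, α i * p2 s i)
      simp only [map_smul, Pi.smul_apply, smul_eq_mul, mul_add, Finset.mul_sum]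
      congr 1 <;> exact Finset.sum_congr rfl fun i _ => by ring
    · change ∑ i, b i * (p2 (c • s)) i = c * ∑ i, b i * p2 s i
      simp only [map_smul, Pi.smul_apply, smul_eq_mul, Finset.mul_sum]
      exact Finset.sum_congr rfl fun i _ => by ring

theorem eqM_eq_zero (a b α : Fin 3 → K) (s : Fin (3 + 3) → K) : eqM a b α s = 0 ↔
    ∑ i, a i * p1 s i + ∑ i, α i * p2 s i = 0 ∧ ∑ i, b i * p2 s i = 0 := by
  constructor
  · intro h
    exact ⟨congrFun h 0, congrFun h 1⟩
  · rintro ⟨h1, h2⟩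
    funext i
    fin_cases i
    · exact h1
    · exact h2

theorem Dat.eqM_surjective {L1 L2 : LineBundle K} {a b α : Fin 3 → K} {u : Point K → K}
    (D : Dat L1 L2 a b α u) : Function.Surjective (eqM a b α) := by
  intro z
  have ha0 := D.ga.ne_zero 0
  have hb0 := D.gb.ne_zero 0
  refine ⟨Fin.append (Pi.single 0 ((z 0 - α 0 * (z 1 / b 0)) / a 0)) (Pi.single 0 (z 1 / b 0)), ?_⟩
  have hsum : ∀ (c : Fin 3 → K) (x : K), ∑ i, c i * (Pi.single 0 x : Fin 3 → K) i = c 0 * x := by
    intro c x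
    rw [Finset.sum_eq_single 0]
    · rw [Pi.single_eq_same]
    · intro i _ hi
      rw [Pi.single_eq_of_ne hi, mul_zero]
    · simp
  funext i
  fin_cases i
  · change ∑ i, a i * p1 (Fin.append _ _) i + ∑ i, α i * p2 (Fin.append _ _) i = z 0
    rw [p1_append, p2_append, hsum, hsum]
    field_simp
    ring
  · change ∑ i, b i * p2 (Fin.append _ _) i = z 1
    rw [p2_append, hsum]
    field_simp

/-- existence of `M` -/
theorem Dat.exists_M (hK : IsCurve K) (hg : genus K ≠ 0) (hs : SmallH0 K)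
    {L1 L2 : LineBundle K} {a b α : Fin 3 → K} {u : Point K → K} (D : Dat L1 L2 a b α u) :
    ∃ (M : Bundle K 4) (j : (Fin 4 → K) →ₗ[K] (Fin (3 + 3) → K)), SubM a b α M j ∧
      (∀ s, eqM a b α s = 0 → s ∈ LinearMap.range j) ∧ M.degree = -9 := by
  obtain ⟨M, j, hj, h1, h2⟩ := exists_ker_sub hK (trivialBundle K (3 + 3)) (eqM a b α)
    D.eqM_surjective (m := 4) rfl
  have hM : SubM a b α M j := ⟨hj.injective, fun v x => by rw [hj.stalk, mem_trivial],
    fun x => ((eqM_eq_zero a b α _).1 (h2 x)).1, fun x => ((eqM_eq_zero a b α _).1 (h2 x)).2⟩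
  refine ⟨M, j, hM, h1, ?_⟩
  obtain ⟨q1, q2, R1, R2, ψ1, ψ2, hq, hR1, hR2, hdeg, hinj, heq⟩ := hM.split hK
  obtain ⟨b1, b10, b11, b12⟩ := hR1.bounds hK hg hs D.ga
  obtain ⟨b2, b20, b21, b22⟩ := hR2.bounds hK hg hs D.gb
  rw [heq, b12 (by omega), b22 (by omega), D.d1, D.d2]
  · norm_num
  · intro v t ht hbt
    obtain ⟨s, hs, hst⟩ := D.lift v ht hbt
    obtain ⟨x, hx⟩ := h1 (Fin.append s t) (by
      rw [eqM_eq_zero, p1_append, p2_append]
      exact ⟨hst, hbt⟩)
    refine ⟨x, ?_, ?_⟩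
    · rw [hM.stalk, reg_iff, hx, p1_append, p2_append]
      exact ⟨hs, ht⟩
    · rw [hx, p2_append]

end Pool.Agent.Helper395.BC
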