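import Pool.Agent.Helper395.CS.Defs

/-!
# Butler's conjecture: definitions

Curves and vector bundles are described as in `Pool/Agent/Helper395/CS/Defs.lean`: a curve is given by
its function field `K`, a vector bundle `E` of rank `n` by local frames `g_v ∈ GL_n(K)` at the closed
points `v` of the curve, with stalks `E_v = g_v 𝒪_v ^ n ⊆ K ^ n`.
-/

open scoped WithZero Matrix

namespace Pool.Agent.Helper395.BC

open Pool.Agent.Helper395.CS

section Genus

variable (K : Type) [Field K] [Algebra ℂ K]

/-- The space `R` of repartitions: families `(r_v)` of elements of `K`, indexed by the closed points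
`v` of the curve, with `r_v ∈ 𝒪_v` for all but finitely many `v`. -/
def repartitions : Submodule ℂ (Point K → K) where
  carrier := {r | {v : Point K | ¬ v.val (r v) ≤ 1}.Finite}
  add_mem' := by
    intro a b ha hb
    refine (ha.union hb).subset fun v hv => ?_
    by_contra hcon
    simp only [Set.mem_union, Set.mem_ofPred_eq, not_or, not_not] at hcon
    exact hv (Valuation.map_add_le _ hcon.1 hcon.2)
  zero_mem' := Set.finite_empty.subset fun v hv => hv (by simp)
  smul_mem' := by
    intro c a ha
    refine ha.subset fun v hv h => hv ?_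
    rw [Pi.smul_apply, Algebra.smul_def, map_mul]
    exact mul_le_one' (v.const_le c) h

/-- The space `R(0)` of families `(r_v)` with `r_v ∈ 𝒪_v` for all `v`. -/
def integralRepartitions : Submodule ℂ (Point K → K) where
  carrier := {r | ∀ v : Point K, v.val (r v) ≤ 1}
  add_mem' := fun ha hb v => Valuation.map_add_le _ (ha v) (hb v)
  zero_mem' := fun v => by simp
  smul_mem' := by
    intro c a ha v
    rw [Pi.smul_apply, Algebra.smul_def, map_mul]
    exact mul_le_one' (v.const_le c) (ha v)

/-- The space of constant families, which is `K`. -/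
def principalRepartitions : Submodule ℂ (Point K → K) where
  carrier := {r | ∃ f : K, ∀ v : Point K, r v = f}
  add_mem' := by
    rintro a b ⟨f, hf⟩ ⟨g, hg⟩
    exact ⟨f + g, fun v => by rw [Pi.add_apply, hf v, hg v]⟩
  zero_mem' := ⟨0, fun v => rfl⟩
  smul_mem' := by
    rintro c a ⟨f, hf⟩
    exact ⟨c • f, fun v => by rw [Pi.smul_apply, hf v]⟩

/-- The genus of the curve, `dim H¹(C, 𝒪_C)`, where `H¹(C, 𝒪_C) = R / (R(0) + K)`
(Serre, Groupes algébriques et corps de classes, II.5). -/
noncomputable def genus : ℕ :=
  Module.finrank ℂ (↥(repartitions K) ⧸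
    (integralRepartitions K ⊔ principalRepartitions K).comap (repartitions K).subtype)

/-- The curve has no `g¹₂`: every line bundle of degree `2` has at most one section. For a curve of
genus at least `2` this means that it is not hyperelliptic. -/
def HasNoPencilOfDegreeTwo : Prop :=
  ∀ L : Bundle K 1, L.degree = 2 → Module.finrank ℂ L.sections ≤ 1

end Genus

variable {K : Type} [Field K] [Algebra ℂ K] {n k m : ℕ}

/-- Slope stability: `μ(F) < μ(E)` for all subbundles `F` of `E` with `0 < rk F < rk E`. -/
def IsStable (E : Bundle K n) : Prop :=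
  ∀ (m : ℕ) (F : Bundle K m) (j : (Fin m → K) →ₗ[K] (Fin n → K)), 0 < m → m < n →
    IsSubbundle F E j → (F.degree : ℚ) / m < (E.degree : ℚ) / n

/-- Slope semistability: `μ(F) ≤ μ(E)` for all subbundles `F` of `E` with `0 < rk F`. -/
def IsSemistable (E : Bundle K n) : Prop :=
  ∀ (m : ℕ) (F : Bundle K m) (j : (Fin m → K) →ₗ[K] (Fin n → K)), 0 < m →
    IsSubbundle F E j → (F.degree : ℚ) / m ≤ (E.degree : ℚ) / n

/-- The space `V` of sections generates `E`: at every closed point `v`, the stalk `E_v` is generated
by `V` as an `𝒪_v`-module. -/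
def IsGeneratedBy (E : Bundle K n) (V : Submodule ℂ (Fin n → K)) : Prop :=
  V ≤ E.sections ∧ ∀ (v : Point K), ∀ s ∈ E.stalk v, ∃ (l : ℕ) (a : Fin l → K) (t : Fin l → Fin n → K),
    (∀ i, v.val (a i) ≤ 1) ∧ (∀ i, t i ∈ V) ∧ s = ∑ i, a i • t i

/-- `M` is (isomorphic to) the kernel `M_{E,V}` of the evaluation map `V ⊗ 𝒪 → E`, for a space `V` of
sections of `E` with basis `b`: there is an injection `j` of the generic fibre of `M` into
`V ⊗ K = K ^ k` with image the kernel of the evaluation map `V ⊗ K → K ^ n`, such that the stalk of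
`M` at `v` corresponds to the elements of this kernel that lie in `V ⊗ 𝒪_v = 𝒪_v ^ k`. -/
def IsKernelBundle (M : Bundle K m) (V : Submodule ℂ (Fin n → K)) (b : Module.Basis (Fin k) ℂ V) :
    Prop :=
  ∃ j : (Fin m → K) →ₗ[K] (Fin k → K), Function.Injective j ∧
    (∀ t : Fin k → K, t ∈ LinearMap.range j ↔ ∑ i, t i • (b i : Fin n → K) = 0) ∧
    ∀ (v : Point K) (x : Fin m → K), x ∈ M.stalk v ↔ ∀ i, v.val (j x i) ≤ 1

end Pool.Agent.Helper395.BC
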