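import Pool.Agent.Helper395.BC.Construct

open scoped WithZero Matrix IntermediateField
open WithZero

set_option linter.unusedSectionVars false
set_option linter.unusedVariables false

namespace Pool.Agent.Helper395.BC

open Pool.Agent.Helper395.CS

variable {K : Type} [Field K] [Algebra ℂ K] {n m q k : ℕ}

/-- the transpose of an injective map is surjective -/
theorem transpose_surjective (J : Matrix (Fin n) (Fin m) K) (hJ : Function.Injective J.mulVec) :
    Function.Surjective Jᵀ.mulVecLin := by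
  have hcols : LinearIndependent K J.transpose.row := by
    rw [Matrix.row_transpose, ← Matrix.mulVec_injective_iff]
    exact hJ
  have hrank : Jᵀ.rank = m := by
    rw [hcols.rank_matrix, Fintype.card_fin]
  rw [← LinearMap.range_eq_top]
  apply Submodule.eq_top_of_finrank_eq
  rw [Matrix.rank] at hrank
  rw [hrank]
  simp

/-- the degree of a subbundle of the dual bundle -/
theorem bdual_sub (hK : IsCurve K) {M : Bundle K n} {F : Bundle K m}
    {jF : (Fin m → K) →ₗ[K] (Fin n → K)} (hF : IsSubbundle F (bdual M) jF) (hn : n = q + m) :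
    ∃ (S : Bundle K q) (jS : (Fin q → K) →ₗ[K] (Fin n → K)), IsSubbundle S M jS ∧
      F.degree ≤ S.degree - M.degree := by
  obtain ⟨J, rfl⟩ : ∃ J : Matrix (Fin n) (Fin m) K, jF = J.mulVecLin :=
    ⟨LinearMap.toMatrix' jF, (Matrix.toLin'_toMatrix' jF).symm⟩
  have hP := transpose_surjective J hF.injective
  obtain ⟨S, jS, hS, h1, h2⟩ := exists_ker_sub hK M Jᵀ.mulVecLin hP hn
  refine ⟨S, jS, hS, ?_⟩
  have h3 := (degree_exact hK (G := bdual F) hS hP h1 h2 (fun v x hx => by
    rw [mem_bdual]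
    intro y hy
    have h4 : J.mulVecLin y ∈ (bdual M).stalk v := (hF.stalk v y).1 hy
    have h5 := (mem_bdual M v _).1 h4 x hx
    have h6 : ∑ i, (Jᵀ.mulVecLin x) i * y i = ∑ i, (J.mulVecLin y) i * x i := by
      simp only [Matrix.mulVecLin_apply, Matrix.mulVec, dotProduct, Finset.sum_mul,
        Matrix.transpose_apply]
      rw [Finset.sum_comm]
      exact Finset.sum_congr rfl fun _ _ => Finset.sum_congr rfl fun _ _ => by ring
    rw [h6]
    exact h5)).1
  rw [bdual_degree] at h3
  omega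

theorem Dat.stable (hK : IsCurve K) (hg : genus K ≠ 0) (hs : SmallH0 K)
    {L1 L2 : LineBundle K} {a b α : Fin 3 → K} {u : Point K → K} (D : Dat L1 L2 a b α u)
    {M : Bundle K 4} {j : (Fin 4 → K) →ₗ[K] (Fin (3 + 3) → K)} (hM : SubM a b α M j)
    (hd : M.degree = -9) : IsStable (bdual M) := by
  intro m F jF hm0 hm4 hF
  obtain ⟨S, jS, hS, hdeg⟩ := bdual_sub hK hF (q := 4 - m) (by omega)
  rw [hd] at hdeg
  rw [bdual_degree, hd]
  have hSM : SubM a b α S (j ∘ₗ jS) := ⟨hM.inj.comp hS.injective, fun v x => by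
    rw [hS.stalk, hM.stalk]
    rfl, fun x => hM.rel1 _, fun x => hM.rel2 _⟩
  obtain ⟨h1, h2, h3⟩ := D.bounds hK hg hs hSM
  have hm : m = 1 ∨ m = 2 ∨ m = 3 := by omega
  rcases hm with rfl | rfl | rfl
  · have h4 := h3 rfl
    have h5 : F.degree ≤ 2 := by omega
    have h6 : (F.degree : ℚ) ≤ 2 := by exact_mod_cast h5
    push_cast
    linarith
  · have h4 := h2 rfl
    have h5 : F.degree ≤ 4 := by omega
    have h6 : (F.degree : ℚ) ≤ 4 := by exact_mod_cast h5
    push_cast
    linarith
  · have h4 := h1 rfl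
    have h5 : F.degree ≤ 6 := by omega
    have h6 : (F.degree : ℚ) ≤ 6 := by exact_mod_cast h5
    push_cast
    linarith

/-! ### sections -/

/-- inclusion of the first three coordinates -/
def i1 : (Fin 3 → K) →ₗ[K] (Fin (3 + 3) → K) where
  toFun s := Fin.append s 0
  map_add' s t := by
    apply p_ext
    · rw [map_add, p1_append, p1_append, p1_append]
    · rw [map_add, p2_append, p2_append, p2_append, add_zero]
  map_smul' c s := by
    apply p_ext
    · rw [map_smul, p1_append, p1_append]; rfl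
    · rw [map_smul, p2_append, p2_append, smul_zero]

/-- inclusion of the last three coordinates -/
def i2 : (Fin 3 → K) →ₗ[K] (Fin (3 + 3) → K) where
  toFun s := Fin.append 0 s
  map_add' s t := by
    apply p_ext
    · rw [map_add, p1_append, p1_append, p1_append, add_zero]
    · rw [map_add, p2_append, p2_append, p2_append]
  map_smul' c s := by
    apply p_ext
    · rw [map_smul, p1_append, p1_append, smul_zero]
    · rw [map_smul, p2_append, p2_append]; rfl

theorem p1_i1 (s : Fin 3 → K) : p1 (i1 s) = s := p1_append _ _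
theorem p2_i1 (s : Fin 3 → K) : p2 (i1 s) = 0 := p2_append _ _
theorem p1_i2 (s : Fin 3 → K) : p1 (i2 s) = 0 := p1_append _ _
theorem p2_i2 (s : Fin 3 → K) : p2 (i2 s) = s := p2_append _ _

theorem Dat.section_eq (hK : IsCurve K) (hg : genus K ≠ 0) (hs : SmallH0 K)
    {L1 L2 : LineBundle K} {a b α : Fin 3 → K} {u : Point K → K} (D : Dat L1 L2 a b α u)
    {M : Bundle K 4} {j : (Fin 4 → K) →ₗ[K] (Fin (3 + 3) → K)} (hM : SubM a b α M j)
    (hker : ∀ s, eqM a b α s = 0 → s ∈ LinearMap.range j) (θ : (Fin 4 → K) →ₗ[K] K)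
    (hθ : ∀ (v : Point K) x, x ∈ M.stalk v → v.val (θ x) ≤ 1) :
    ∃ C1 C2 : Fin 3 → ℂ, ∀ x, θ x = ∑ i, C1 i • p1 (j x) i + ∑ i, C2 i • p2 (j x) i := by
  obtain ⟨ρ, hρ⟩ := j.exists_leftInverse_of_injective (LinearMap.ker_eq_bot.2 hM.inj)
  have hρ' : ∀ x, ρ (j x) = x := fun x => LinearMap.congr_fun hρ x
  have ha0 := D.ga.ne_zero 0
  -- first step
  obtain ⟨C1, hC1⟩ := hom_const hK hg hs D.ga (by rw [D.d1]) (θ ∘ₗ ρ ∘ₗ i1) (by
    intro v s hsr has
    obtain ⟨x, hx⟩ := hker (i1 s) (by
      rw [eqM_eq_zero, p1_i1, p2_i1]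
      refine ⟨?_, by simp⟩
      rw [has]; simp)
    change v.val (θ (ρ (i1 s))) ≤ 1
    rw [← hx, hρ']
    apply hθ
    rw [hM.stalk, reg_iff, hx, p1_i1, p2_i1]
    exact ⟨hsr, fun i => by simp⟩)
  let θ' : (Fin 4 → K) →ₗ[K] K :=
    { toFun := fun x => θ x - ∑ i, C1 i • p1 (j x) i
      map_add' := fun x y => by
        simp only [map_add, Pi.add_apply, smul_add, Finset.sum_add_distrib]
        ring
      map_smul' := fun c x => by
        simp only [map_smul, Pi.smul_apply, smul_eq_mul, RingHom.id_apply, mul_sub, Finset.mul_sum]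
        congr 1
        refine Finset.sum_congr rfl fun i _ => ?_
        rw [mul_smul_comm] }
  have hθ'1 : ∀ x, p2 (j x) = 0 → θ' x = 0 := by
    intro x hx
    change θ x - ∑ i, C1 i • p1 (j x) i = 0
    have h1 : i1 (p1 (j x)) = j x := p_ext (p1_i1 _) (by rw [p2_i1, hx])
    have h2 := hC1 (p1 (j x)) (by
      have := hM.rel1 x
      rw [hx] at this
      simpa using this)
    change θ (ρ (i1 (p1 (j x)))) = _ at h2
    rw [h1, hρ'] at h2
    rw [h2, sub_self]
  have hθ'2 : ∀ x y, p2 (j x) = p2 (j y) → θ' x = θ' y := by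
    intro x y hxy
    have := hθ'1 (x - y) (by rw [map_sub, map_sub, hxy, sub_self])
    rw [map_sub, sub_eq_zero] at this
    exact this
  -- second step
  let σ : (Fin 3 → K) →ₗ[K] (Fin (3 + 3) → K) :=
    { toFun := fun t => i1 (Pi.single 0 (-(∑ i, α i * t i) / a 0)) + i2 t
      map_add' := fun s t => by
        have : (-(∑ i, α i * (s + t) i) / a 0) =
            (-(∑ i, α i * s i) / a 0) + (-(∑ i, α i * t i) / a 0) := by
          simp only [Pi.add_apply, mul_add, Finset.sum_add_distrib]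
          ring
        rw [this, Pi.single_add, map_add, map_add]
        abel
      map_smul' := fun c t => by
        have : (-(∑ i, α i * (c • t) i) / a 0) = c • (-(∑ i, α i * t i) / a 0) := by
          have h1 : ∑ i, α i * (c • t) i = c * ∑ i, α i * t i := by
            rw [Finset.mul_sum]
            exact Finset.sum_congr rfl fun i _ => by
              rw [Pi.smul_apply, smul_eq_mul]; ring
          rw [h1, smul_eq_mul]
          ring
        rw [this, Pi.single_smul, map_smul, map_smul, RingHom.id_apply, smul_add] }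
  have hσ2 : ∀ t, p2 (σ t) = t := by
    intro t
    change p2 (i1 _ + i2 t) = t
    rw [map_add, p2_i1, p2_i2, zero_add]
  have hσr : ∀ t, ∑ i, b i * t i = 0 → ∃ x, j x = σ t := by
    intro t ht
    apply hker
    rw [eqM_eq_zero, hσ2]
    refine ⟨?_, ht⟩
    have h1 : p1 (σ t) = Pi.single 0 (-(∑ i, α i * t i) / a 0) := by
      change p1 (i1 _ + i2 t) = _
      rw [map_add, p1_i1, p1_i2, add_zero]
    rw [h1, Finset.sum_eq_single 0]
    · rw [Pi.single_eq_same, mul_div_cancel₀ _ ha0]
      exact neg_add_cancel _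
    · intro i _ hi
      rw [Pi.single_eq_of_ne hi, mul_zero]
    · simp
  obtain ⟨C2, hC2⟩ := hom_const hK hg hs D.gb (by rw [D.d2]; norm_num) (θ' ∘ₗ ρ ∘ₗ σ) (by
    intro v t ht hbt
    obtain ⟨s, hs', hst⟩ := D.lift v ht hbt
    obtain ⟨x, hx⟩ := hker (Fin.append s t) (by
      rw [eqM_eq_zero, p1_append, p2_append]
      exact ⟨hst, hbt⟩)
    obtain ⟨y, hy⟩ := hσr t hbt
    change v.val (θ' (ρ (σ t))) ≤ 1
    rw [← hy, hρ', hθ'2 y x (by rw [hy, hx, hσ2, p2_append])]
    have hxM : x ∈ M.stalk v := by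
      rw [hM.stalk, reg_iff, hx, p1_append, p2_append]
      exact ⟨hs', ht⟩
    refine Valuation.map_sub_le _ (hθ v x hxM) (Valuation.map_sum_le _ fun i _ => ?_)
    rw [Algebra.smul_def, map_mul, hx, p1_append]
    exact mul_le_one' (v.const_le _) (hs' i))
  refine ⟨C1, C2, fun x => ?_⟩
  obtain ⟨y, hy⟩ := hσr (p2 (j x)) (hM.rel2 x)
  have h1 := hC2 (p2 (j x)) (hM.rel2 x)
  change θ' (ρ (σ (p2 (j x)))) = _ at h1
  rw [← hy, hρ', hθ'2 y x (by rw [hy, hσ2])] at h1
  rw [← h1]
  change θ x = _ + (θ x - _)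
  ring

/-- constant functionals vanishing on the kernel -/
theorem GG3.const_of_ker {L : LineBundle K} {c : Fin 3 → K} (h : GG3 L c) {C : Fin 3 → ℂ}
    (hC : ∀ t : Fin 3 → K, ∑ i, c i * t i = 0 → ∑ i, C i • t i = 0) : C = 0 := by
  have hc0 := h.ne_zero 0
  have h1 := prop_of_ker (c := c) (β := fun i => algebraMap ℂ K (C i)) hc0 (by
    intro t ht
    rw [← hC t ht]
    exact Finset.sum_congr rfl fun i _ => (Algebra.smul_def _ _).symm)
  have h2 := h.indep ![C 1, -C 0, 0] (by
    rw [Fin.sum_univ_three]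
    simp only [Matrix.cons_val_zero, Matrix.cons_val_one, Matrix.cons_val]
    rw [Algebra.smul_def, Algebra.smul_def, map_neg, zero_smul, h1 1]
    field_simp
    ring)
  have h3 := congrFun h2 0
  have h4 := congrFun h2 1
  simp only [Matrix.cons_val_zero, Matrix.cons_val_one, Pi.zero_apply, neg_eq_zero] at h3 h4
  funext l
  have h5 := h1 l
  beta_reduce at h5
  rw [h4, map_zero, zero_div, zero_mul] at h5
  exact (map_eq_zero _).1 h5

theorem Dat.indep {L1 L2 : LineBundle K} {a b α : Fin 3 → K} {u : Point K → K}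
    (D : Dat L1 L2 a b α u) {M : Bundle K 4} {j : (Fin 4 → K) →ₗ[K] (Fin (3 + 3) → K)}
    (hker : ∀ s, eqM a b α s = 0 → s ∈ LinearMap.range j) {C1 C2 : Fin 3 → ℂ}
    (h : ∀ x, ∑ i, C1 i • p1 (j x) i + ∑ i, C2 i • p2 (j x) i = 0) : C1 = 0 ∧ C2 = 0 := by
  have ha0 := D.ga.ne_zero 0
  have h1 : C1 = 0 := by
    apply D.ga.const_of_ker
    intro s hs
    obtain ⟨x, hx⟩ := hker (i1 s) (by
      rw [eqM_eq_zero, p1_i1, p2_i1]
      refine ⟨?_, by simp⟩
      rw [hs]; simp)
    have h2 := h x
    rw [hx, p1_i1, p2_i1] at h2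
    simpa using h2
  refine ⟨h1, ?_⟩
  apply D.gb.const_of_ker
  intro t ht
  obtain ⟨x, hx⟩ := hker (Fin.append (Pi.single 0 (-(∑ i, α i * t i) / a 0)) t) (by
    rw [eqM_eq_zero, p1_append, p2_append]
    refine ⟨?_, ht⟩
    rw [Finset.sum_eq_single 0]
    · rw [Pi.single_eq_same, mul_div_cancel₀ _ ha0]
      exact neg_add_cancel _
    · intro i _ hi
      rw [Pi.single_eq_of_ne hi, mul_zero]
    · simp)
  have h2 := h x
  rw [hx, p2_append, h1] at h2
  simpa using h2

/-- the coordinates as sections of the dual bundle -/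
def rowJ (j : (Fin n → K) →ₗ[K] (Fin k → K)) (i : Fin k) : Fin n → K := fun l => j (Pi.single l 1) i

theorem rowJ_dot (j : (Fin n → K) →ₗ[K] (Fin k → K)) (i : Fin k) (x : Fin n → K) :
    ∑ l, rowJ j i l * x l = j x i := by
  have hx : j x = ∑ l, x l • j (Pi.single l 1) := by
    conv_lhs => rw [← Finset.univ_sum_single x, map_sum]
    refine Finset.sum_congr rfl fun l _ => ?_
    rw [← map_smul]
    congr 1
    rw [← Pi.single_smul, smul_eq_mul, mul_one]
  rw [hx, Finset.sum_apply]
  refine Finset.sum_congr rfl fun l _ => ?_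
  rw [Pi.smul_apply, smul_eq_mul, mul_comm]
  rfl

theorem rowJ_mem {M : Bundle K n} {j : (Fin n → K) →ₗ[K] (Fin k → K)}
    (h : ∀ (v : Point K) x, x ∈ M.stalk v → v.Reg (j x)) (i : Fin k) :
    rowJ j i ∈ (bdual M).sections := by
  intro v
  rw [mem_bdual]
  intro x hx
  rw [rowJ_dot]
  exact h v x hx i

theorem dual_generated {M : Bundle K n} {j : (Fin n → K) →ₗ[K] (Fin k → K)}
    (hj : IsSubbundle M (trivialBundle K k) j) : IsGeneratedBy (bdual M) (bdual M).sections := by
  refine ⟨le_rfl, fun v f hf => ?_⟩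
  obtain ⟨R, hR1, hR2⟩ := exists_retraction hj v
  refine ⟨k, fun i => ∑ l, f l * R (Pi.single i 1) l, rowJ j, fun i => ?_, fun i => ?_, ?_⟩
  · apply (mem_bdual M v f).1 hf
    apply hR2
    rw [mem_trivial]
    intro l
    rcases eq_or_ne l i with rfl | hl
    · rw [Pi.single_eq_same, map_one]
    · rw [Pi.single_eq_of_ne hl]; simp
  · exact rowJ_mem (fun v x hx => by
      rw [← mem_trivial]
      exact (hj.stalk v x).1 hx) i
  · funext l
    rw [Finset.sum_apply]
    have h1 : R (j (Pi.single l 1)) = ∑ i, j (Pi.single l 1) i • R (Pi.single i 1) := by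
      conv_lhs => rw [← Finset.univ_sum_single (j (Pi.single l 1)), map_sum]
      refine Finset.sum_congr rfl fun i _ => ?_
      rw [← map_smul]
      congr 1
      rw [← Pi.single_smul, smul_eq_mul, mul_one]
    rw [hR1] at h1
    have h2 : f l = ∑ p, f p * (Pi.single l 1 : Fin n → K) p := by
      rw [Finset.sum_eq_single l]
      · rw [Pi.single_eq_same, mul_one]
      · intro p _ hp
        rw [Pi.single_eq_of_ne hp, mul_zero]
      · simp
    rw [h2, h1]
    simp only [Finset.sum_apply, Pi.smul_apply, smul_eq_mul, Finset.mul_sum, Finset.sum_mul]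
    rw [Finset.sum_comm]
    refine Finset.sum_congr rfl fun i _ => Finset.sum_congr rfl fun p _ => ?_
    change _ = f p * R (Pi.single i 1) p * j (Pi.single l 1) i
    ring

theorem Dat.finrank_sections (hK : IsCurve K) (hg : genus K ≠ 0) (hs : SmallH0 K)
    {L1 L2 : LineBundle K} {a b α : Fin 3 → K} {u : Point K → K} (D : Dat L1 L2 a b α u)
    {M : Bundle K 4} {j : (Fin 4 → K) →ₗ[K] (Fin (3 + 3) → K)} (hM : SubM a b α M j)
    (hker : ∀ s, eqM a b α s = 0 → s ∈ LinearMap.range j) :
    Module.finrank ℂ (bdual M).sections = 6 := by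
  have hrow : ∀ i, rowJ j i ∈ (bdual M).sections := fun i =>
    rowJ_mem (fun v x hx => (hM.stalk v x).1 hx) i
  let Φ : (Fin (3 + 3) → ℂ) →ₗ[ℂ] (bdual M).sections :=
    { toFun := fun c => ⟨∑ i, c i • rowJ j i, Submodule.sum_mem _ fun i _ =>
        Submodule.smul_mem _ _ (hrow i)⟩
      map_add' := fun c d => by
        apply Subtype.ext
        change ∑ i, (c + d) i • rowJ j i = ∑ i, c i • rowJ j i + ∑ i, d i • rowJ j i
        rw [← Finset.sum_add_distrib]
        exact Finset.sum_congr rfl fun i _ => add_smul _ _ _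
      map_smul' := fun a c => by
        apply Subtype.ext
        change ∑ i, (a • c) i • rowJ j i = a • ∑ i, c i • rowJ j i
        rw [Finset.smul_sum]
        exact Finset.sum_congr rfl fun i _ => mul_smul _ _ _ }
  have hΦdot : ∀ (c : Fin (3 + 3) → ℂ) (x : Fin 4 → K),
      ∑ l, (Φ c).1 l * x l = ∑ i, c (Fin.castAdd 3 i) • p1 (j x) i +
        ∑ i, c (Fin.natAdd 3 i) • p2 (j x) i := by
    intro c x
    have h1 : ∑ l, (Φ c).1 l * x l = ∑ i, c i • j x i := by
      change ∑ l, (∑ i, c i • rowJ j i) l * x l = _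
      simp only [Finset.sum_apply, Finset.sum_mul, Pi.smul_apply]
      rw [Finset.sum_comm]
      refine Finset.sum_congr rfl fun i _ => ?_
      rw [← rowJ_dot j i x, Finset.smul_sum]
      exact Finset.sum_congr rfl fun l _ => smul_mul_assoc _ _ _
    rw [h1, Fin.sum_univ_add]
    rfl
  have hinj : Function.Injective Φ := by
    rw [← LinearMap.ker_eq_bot, LinearMap.ker_eq_bot']
    intro c hc
    obtain ⟨h1, h2⟩ := D.indep hker (C1 := fun i => c (Fin.castAdd 3 i))
      (C2 := fun i => c (Fin.natAdd 3 i)) (M := M) (fun x => by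
        rw [← hΦdot, hc]
        simp)
    funext i
    refine Fin.addCases (fun i => ?_) (fun i => ?_) i
    · exact congrFun h1 i
    · exact congrFun h2 i
  have hsurj : Function.Surjective Φ := by
    rintro ⟨f, hf⟩
    let θ : (Fin 4 → K) →ₗ[K] K :=
      { toFun := fun x => ∑ l, f l * x l
        map_add' := fun x y => by
          rw [← Finset.sum_add_distrib]
          exact Finset.sum_congr rfl fun i _ => mul_add _ _ _
        map_smul' := fun c x => by
          rw [RingHom.id_apply, smul_eq_mul, Finset.mul_sum]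
          exact Finset.sum_congr rfl fun i _ => by
            rw [Pi.smul_apply, smul_eq_mul]; ring }
    obtain ⟨C1, C2, hC⟩ := D.section_eq hK hg hs hM hker θ (fun v x hx =>
      (mem_bdual M v f).1 (hf v) x hx)
    refine ⟨Fin.append C1 C2, ?_⟩
    apply Subtype.ext
    change (Φ (Fin.append C1 C2)).1 = f
    funext l
    have h1 := hΦdot (Fin.append C1 C2) (Pi.single l 1)
    have h2 := hC (Pi.single l 1)
    have h3 : ∀ g : Fin 4 → K, ∑ p, g p * (Pi.single l 1 : Fin 4 → K) p = g l := by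
      intro g
      rw [Finset.sum_eq_single l]
      · rw [Pi.single_eq_same, mul_one]
      · intro p _ hp
        rw [Pi.single_eq_of_ne hp, mul_zero]
      · simp
    rw [h3] at h1
    change ∑ p, f p * (Pi.single l 1 : Fin 4 → K) p = _ at h2
    rw [h3] at h2
    rw [h1, h2]
    simp only [Fin.append_left, Fin.append_right]
  have e := LinearEquiv.ofBijective Φ ⟨hinj, hsurj⟩
  rw [← e.finrank_eq]
  simp

/-- existence of the stable bundle -/
theorem exists_stable (hK : IsCurve K) (hg3 : genus K = 3) (hne : HasNoPencilOfDegreeTwo K) :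
    ∃ E : Bundle K 4, E.degree = 9 ∧ IsStable E ∧ Module.finrank ℂ E.sections = 6 ∧
      IsGeneratedBy E E.sections := by
  have hg : genus K ≠ 0 := by omega
  have hs := smallH0 hK hg hne
  obtain ⟨L1, L2, a, b, α, u, d1, d2, ga, gb, hα, hu⟩ := exists_data hK hg3 hne
  have D : Dat L1 L2 a b α u := ⟨d1, d2, ga, gb, hα, hu⟩
  obtain ⟨M, j, hM, hker, hd⟩ := D.exists_M hK hg hs
  refine ⟨bdual M, by rw [bdual_degree, hd]; norm_num, D.stable hK hg hs hM hd,
    D.finrank_sections hK hg hs hM hker, ?_⟩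
  exact dual_generated (j := j) ⟨hM.inj, fun v x => by rw [hM.stalk, mem_trivial]⟩

end Pool.Agent.Helper395.BC
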