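import Pool.Agent.Helper395.BC.Line

open scoped WithZero Matrix IntermediateField
open WithZero

set_option linter.unusedSectionVars false
set_option linter.unusedVariables false

namespace Pool.Agent.Helper395.BC

open Pool.Agent.Helper395.CS

variable {K : Type} [Field K] [Algebra ℂ K] {n m : ℕ}

/-- multiplication by a rational function on repartitions -/
noncomputable def smulR (hK : IsCurve K) (f : K) : repartitions K →ₗ[ℂ] repartitions K where
  toFun r := ⟨fun v => f * r.1 v, by
    refine Set.Finite.subset ((finite_not_reg hK f).union r.2) fun v hv => ?_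
    by_contra hcon
    simp only [Set.mem_union, Set.mem_ofPred_eq, not_or, not_not] at hcon
    apply hv
    change v.val (f * r.1 v) ≤ 1
    rw [map_mul]
    exact mul_le_one' hcon.1 hcon.2⟩
  map_add' r s := by
    apply Subtype.ext
    funext v
    exact mul_add _ _ _
  map_smul' c r := by
    apply Subtype.ext
    funext v
    exact mul_smul_comm _ _ _

theorem smulR_smulR (hK : IsCurve K) (f g : K) (r : repartitions K) :
    smulR hK f (smulR hK g r) = smulR hK (f * g) r := by
  apply Subtype.ext
  funext v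
  exact (mul_assoc _ _ _).symm

theorem smulR_one (hK : IsCurve K) (r : repartitions K) : smulR hK 1 r = r := by
  apply Subtype.ext
  funext v
  exact one_mul _

theorem smulR_add (hK : IsCurve K) (f g : K) (r : repartitions K) :
    smulR hK (f + g) r = smulR hK f r + smulR hK g r := by
  apply Subtype.ext
  funext v
  exact add_mul _ _ _

theorem smulR_const (hK : IsCurve K) (c : ℂ) (f : K) (r : repartitions K) :
    smulR hK (c • f) r = c • smulR hK f r := by
  apply Subtype.ext
  funext v
  exact smul_mul_assoc _ _ _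

/-- multiplication maps `Om1` to `Om1` -/
theorem smul_mem_Om1 (hK : IsCurve K) {L M N : LineBundle K} {w : Module.Dual ℂ (repartitions K)}
    (hw : w ∈ Om1 L) {x : K} (hx : ∀ v s, s ∈ N.stalk v → x * s ∈ L.stalk v) :
    w ∘ₗ smulR hK x ∈ Om1 N := by
  refine ⟨?_, ?_⟩
  · rintro r ⟨s, hs⟩
    exact hw.1 _ ⟨x * s, fun v => by
      change x * r.1 v = _
      rw [hs v]⟩
  · intro r hr
    exact hw.2 _ fun v => hx v _ (hr v)

theorem comp_eq_zero (hK : IsCurve K) {w : Module.Dual ℂ (repartitions K)} (hw : w ≠ 0) {x : K}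
    (h : w ∘ₗ smulR hK x = 0) : x = 0 := by
  by_contra hx
  apply hw
  refine LinearMap.ext fun r => ?_
  have := LinearMap.congr_fun h (smulR hK x⁻¹ r)
  rwa [LinearMap.comp_apply, smulR_smulR, mul_inv_cancel₀ hx, smulR_one] at this

/-- Weil differentials form a one-dimensional space -/
theorem weil_dim_one (hK : IsCurve K) (hg : genus K ≠ 0) {w₀ w : Module.Dual ℂ (repartitions K)}
    (hw₀ : w₀ ∈ Om1 (one K)) (hw₀0 : w₀ ≠ 0) {L : LineBundle K} (hw : w ∈ Om1 L) :
    ∃ f : K, w = w₀ ∘ₗ smulR hK f := by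
  by_contra hcon
  push Not at hcon
  obtain ⟨L₀, hL₀, hL₀1⟩ := exists_lcommon L (one K)
  -- a line bundle of large degree
  obtain ⟨M, hM⟩ := exists_large hK (max (3 * genus K - L₀.degree) (L₀.degree + 1))
  set N := lmul L₀ (linv M) with hN
  have hNdeg : N.degree = L₀.degree - M.degree := by
    rw [hN, lmul_degree, linv_degree]; ring
  -- the map
  have key : ∀ x ∈ H0 M, ∀ w' : Module.Dual ℂ (repartitions K), w' ∈ Om1 L₀ →
      w' ∘ₗ smulR hK x ∈ Om1 N := by
    intro x hx w' hw'
    apply smul_mem_Om1 hK (L := L₀) (M := M) hw'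
    intro v s hs
    rw [hN, mem_lmul_linv] at hs
    change v.val (x * s) ≤ _
    change v.val (s * (M.frame v : K)) ≤ _ at hs
    rw [map_mul] at hs ⊢
    rw [mul_comm]
    exact (mul_le_mul_right (hx v : v.val x ≤ v.val (M.frame v : K)) _).trans hs
  have hw₀' : w₀ ∈ Om1 L₀ := ⟨hw₀.1, fun r hr => hw₀.2 r fun v => hL₀1 v _ (hr v)⟩
  have hw' : w ∈ Om1 L₀ := ⟨hw.1, fun r hr => hw.2 r fun v => hL₀ v _ (hr v)⟩
  let Φ : (H0 M × H0 M) →ₗ[ℂ] Om1 N :=
    { toFun := fun p => ⟨w₀ ∘ₗ smulR hK p.1.1 + w ∘ₗ smulR hK p.2.1,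
        add_mem (key _ p.1.2 _ hw₀') (key _ p.2.2 _ hw')⟩
      map_add' := by
        intro p q
        apply Subtype.ext
        refine LinearMap.ext fun r => ?_
        change w₀ (smulR hK (p.1.1 + q.1.1) r) + w (smulR hK (p.2.1 + q.2.1) r) =
          (w₀ (smulR hK p.1.1 r) + w (smulR hK p.2.1 r)) +
          (w₀ (smulR hK q.1.1 r) + w (smulR hK q.2.1 r))
        rw [smulR_add, smulR_add, map_add, map_add]
        ring
      map_smul' := by
        intro c p
        apply Subtype.ext
        refine LinearMap.ext fun r => ?_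
        change w₀ (smulR hK (c • p.1.1) r) + w (smulR hK (c • p.2.1) r) =
          c • (w₀ (smulR hK p.1.1 r) + w (smulR hK p.2.1 r))
        rw [smulR_const, smulR_const, map_smul, map_smul, smul_add] }
  have hΦ : Function.Injective Φ := by
    rw [← LinearMap.ker_eq_bot, LinearMap.ker_eq_bot']
    rintro ⟨x, y⟩ hxy
    have h1 : w₀ ∘ₗ smulR hK x.1 + w ∘ₗ smulR hK y.1 = 0 := congrArg Subtype.val hxy
    have hy : y.1 = 0 := by
      by_contra hy
      apply hcon (-(x.1 * y.1⁻¹))
      refine LinearMap.ext fun r => ?_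
      have h2 := LinearMap.congr_fun h1 (smulR hK y.1⁻¹ r)
      change w₀ (smulR hK x.1 (smulR hK y.1⁻¹ r)) + w (smulR hK y.1 (smulR hK y.1⁻¹ r)) = 0 at h2
      rw [smulR_smulR, smulR_smulR, mul_inv_cancel₀ hy, smulR_one] at h2
      have h3 : -(x.1 * y.1⁻¹) = (-1 : ℂ) • (x.1 * y.1⁻¹) := by simp
      rw [LinearMap.comp_apply, h3, smulR_const, map_smul, smul_eq_mul]
      linear_combination h2
    have hx : x.1 = 0 := by
      apply comp_eq_zero hK hw₀0
      refine LinearMap.ext fun r => ?_
      have h2 := LinearMap.congr_fun h1 r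
      change w₀ (smulR hK x.1 r) + w (smulR hK y.1 r) = 0 at h2
      have h3 : smulR hK y.1 r = 0 := by
        rw [hy]
        apply Subtype.ext
        funext v
        exact zero_mul _
      rwa [h3, map_zero, add_zero] at h2
    exact Prod.ext (Subtype.ext hx) (Subtype.ext hy)
  obtain ⟨hM1, hM2, hM3⟩ := lHasChi hK hg M
  obtain ⟨hN1, hN2, hN3⟩ := lHasChi hK hg N
  have h1 := LinearMap.finrank_le_finrank_of_injective hΦ
  rw [Module.finrank_prod] at h1
  have h2 : Module.finrank ℂ (H0 N) = 0 := by
    rw [H0_eq_bot hK (by rw [hNdeg]; omega), finrank_bot]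
  rw [h2] at hN3
  have h3 : (Module.finrank ℂ (H0 M) : ℤ) ≥ M.degree + 1 - genus K := by omega
  have h4 : 0 ≤ (genus K : ℤ) := Int.natCast_nonneg _
  have h5 : 3 * (genus K : ℤ) - L₀.degree ≤ M.degree := (le_max_left _ _).trans hM
  have h6 : ((Module.finrank ℂ (H0 M) + Module.finrank ℂ (H0 M) : ℕ) : ℤ) ≤
    Module.finrank ℂ (Om1 N) := by exact_mod_cast h1
  push_cast at h6
  omega

theorem exists_weil (hK : IsCurve K) (hg : genus K ≠ 0) :
    ∃ w ∈ Om1 (one K), w ≠ 0 := by
  obtain ⟨h1, h2, h3⟩ := lHasChi hK hg (one K)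
  rw [(H0_one hK).2, one_degree] at h3
  have h4 : Om1 (one K) ≠ ⊥ := by
    intro h
    rw [h, finrank_bot] at h3
    have : (genus K : ℤ) ≠ 0 := by exact_mod_cast hg
    omega
  obtain ⟨w, hw, hw0⟩ := Submodule.exists_mem_ne_zero_of_ne_bot h4
  exact ⟨w, hw, hw0⟩

/-- the fixed Weil differential -/
noncomputable def w0 (hK : IsCurve K) (hg : genus K ≠ 0) : Module.Dual ℂ (repartitions K) :=
  (exists_weil hK hg).choose

section canonical

variable (hK : IsCurve K) (hg : genus K ≠ 0)

theorem w0_mem : w0 hK hg ∈ Om1 (one K) := (exists_weil hK hg).choose_spec.1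

theorem w0_ne : w0 hK hg ≠ 0 := (exists_weil hK hg).choose_spec.2

theorem w0_degree_bound (L : LineBundle K) (h : w0 hK hg ∈ Om1 L) :
    L.degree ≤ 2 * genus K - 1 := by
  obtain ⟨hM1, hM2, hM3⟩ := lHasChi hK hg L
  obtain ⟨hN1, hN2, hN3⟩ := lHasChi hK hg (one K)
  rw [(H0_one hK).2, one_degree] at hN3
  let Φ : H0 L →ₗ[ℂ] Om1 (one K) :=
    { toFun := fun x => ⟨w0 hK hg ∘ₗ smulR hK x.1, by
        apply smul_mem_Om1 hK (L := L) (M := L) h
        intro v s hs
        rw [mem_one_stalk] at hs
        rw [mul_comm]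
        exact lstalk_mul (x.2 v) hs⟩
      map_add' := by
        intro p q
        apply Subtype.ext
        refine LinearMap.ext fun r => ?_
        change w0 hK hg (smulR hK (p.1 + q.1) r) = w0 hK hg (smulR hK p.1 r) +
          w0 hK hg (smulR hK q.1 r)
        rw [smulR_add, map_add]
      map_smul' := by
        intro c p
        apply Subtype.ext
        refine LinearMap.ext fun r => ?_
        change w0 hK hg (smulR hK (c • p.1) r) = c • w0 hK hg (smulR hK p.1 r)
        rw [smulR_const, map_smul] }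
  have hΦ : Function.Injective Φ := by
    rw [← LinearMap.ker_eq_bot, LinearMap.ker_eq_bot']
    intro x hx
    exact Subtype.ext (comp_eq_zero hK (w0_ne hK hg) (congrArg Subtype.val hx))
  have h1 := LinearMap.finrank_le_finrank_of_injective hΦ
  have h6 : (Module.finrank ℂ (H0 L) : ℤ) ≤ Module.finrank ℂ (Om1 (one K)) := by exact_mod_cast h1
  omega

/-- the repartition with one nonzero component -/
noncomputable def delta (v : Point K) : K →ₗ[ℂ] repartitions K where
  toFun z := ⟨by classical exact Pi.single v z, by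
    classical
    refine (Set.finite_singleton v).subset fun w hw => ?_
    by_contra h
    apply hw
    have h' : w ≠ v := h
    change w.val ((Pi.single v z : Point K → K) w) ≤ 1
    rw [Pi.single_eq_of_ne h']
    simp⟩
  map_add' x y := by
    classical
    apply Subtype.ext
    exact Pi.single_add (f := fun _ : Point K => K) v x y
  map_smul' c x := by
    classical
    apply Subtype.ext
    exact Pi.single_smul (f := fun _ : Point K => K) v c x

theorem delta_self (v : Point K) (z : K) : (delta v z).1 v = z := by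
  classical
  change (Pi.single v z : Point K → K) v = z
  rw [Pi.single_eq_same]

theorem delta_ne {v w : Point K} (h : w ≠ v) (z : K) : (delta v z).1 w = 0 := by
  classical
  change (Pi.single v z : Point K → K) w = 0
  rw [Pi.single_eq_of_ne h]

/-- the local component of the canonical bundle -/
def canSet (v : Point K) : Set K := {f | ∀ a, v.val a ≤ 1 → w0 hK hg (delta v (a * f)) = 0}

theorem one_mem_canSet (v : Point K) : (1 : K) ∈ canSet hK hg v := by
  intro a ha
  refine (w0_mem hK hg).2 _ fun w => ?_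
  rw [mem_one_stalk, mul_one]
  rcases eq_or_ne w v with rfl | hw
  · rw [delta_self]; exact ha
  · rw [delta_ne hw]; simp

theorem mul_mem_canSet {v : Point K} {f a : K} (hf : f ∈ canSet hK hg v) (ha : v.val a ≤ 1) :
    a * f ∈ canSet hK hg v := by
  intro b hb
  rw [← mul_assoc]
  exact hf _ (by rw [map_mul]; exact mul_le_one' hb ha)

/-- vanishing on adeles of a finite modification -/
theorem w0_vanish (T : Finset (Point K)) (k : Point K → Kˣ) (hk : ∀ v, (k v : K) ∈ canSet hK hg v)
    (r : repartitions K) (hr : ∀ v, v ∈ T → v.val (r.1 v) ≤ v.val (k v : K))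
    (hr' : ∀ v, v ∉ T → v.val (r.1 v) ≤ 1) : w0 hK hg r = 0 := by
  classical
  have h1 : r = (r - ∑ v ∈ T, delta v (r.1 v)) + ∑ v ∈ T, delta v (r.1 v) := by abel
  rw [h1, map_add, map_sum]
  have h2 : w0 hK hg (r - ∑ v ∈ T, delta v (r.1 v)) = 0 := by
    refine (w0_mem hK hg).2 _ fun w => ?_
    rw [mem_one_stalk]
    have h3 : (r - ∑ v ∈ T, delta v (r.1 v)).1 w = r.1 w - ∑ v ∈ T, (delta v (r.1 v)).1 w := by
      have : ((∑ v ∈ T, delta v (r.1 v) : repartitions K) : Point K → K) =
          ∑ v ∈ T, ((delta v (r.1 v)).1 : Point K → K) := AddSubmonoidClass.coe_finsetSum _ _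
      change r.1 w - ((∑ v ∈ T, delta v (r.1 v) : repartitions K) : Point K → K) w = _
      rw [this, Finset.sum_apply]
    rw [h3]
    by_cases hw : w ∈ T
    · rw [Finset.sum_eq_single w, delta_self, sub_self]
      · simp
      · intro v _ hv
        exact delta_ne (Ne.symm hv) _
      · exact fun h => absurd hw h
    · rw [Finset.sum_eq_zero, sub_zero]
      · exact hr' w hw
      · intro v hv
        refine delta_ne ?_ _
        rintro rfl
        exact hw hv
  rw [h2, zero_add]
  refine Finset.sum_eq_zero fun v hv => ?_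
  have h4 : r.1 v = (r.1 v * (k v : K)⁻¹) * (k v : K) := by
    rw [mul_assoc, inv_mul_cancel₀ (k v).ne_zero, mul_one]
  rw [h4]
  apply hk v
  rw [map_mul, map_inv₀, ← div_eq_mul_inv, div_le_one₀ (zero_lt_iff.2 (v.val_ne_zero (k v).ne_zero))]
  exact hr v hv

open Classical in
/-- a line bundle with prescribed frames at finitely many points -/
noncomputable def lfin (T : Finset (Point K)) (k : Point K → Kˣ) : LineBundle K where
  frame v := if v ∈ T then k v else 1
  finite := T.finite_toSet.subset fun v hv => by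
    by_contra h
    apply hv
    have h' : v ∉ T := h
    rw [if_neg h', Units.val_one, map_one]

open Classical in
theorem lfin_degree (T : Finset (Point K)) (k : Point K → Kˣ) :
    (lfin T k).degree = ∑ v ∈ T, -v.ord (k v : K) := by
  rw [LineBundle.degree, finsum_eq_sum_of_support_subset (s := T)]
  · refine Finset.sum_congr rfl fun v hv => ?_
    change -v.ord ((if v ∈ T then k v else 1 : Kˣ) : K) = _
    rw [if_pos hv]
  · intro v hv
    by_contra h
    apply hv
    have h' : v ∉ T := h
    change -v.ord ((if v ∈ T then k v else 1 : Kˣ) : K) = 0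
    rw [if_neg h', Units.val_one, v.ord_one, neg_zero]

open Classical in
theorem w0_mem_lfin (T : Finset (Point K)) (k : Point K → Kˣ)
    (hk : ∀ v, (k v : K) ∈ canSet hK hg v) : w0 hK hg ∈ Om1 (lfin T k) := by
  refine ⟨(w0_mem hK hg).1, fun r hr => ?_⟩
  have hr2 : ∀ v : Point K, v.val (r.1 v) ≤ v.val ((if v ∈ T then k v else 1 : Kˣ) : K) := hr
  apply w0_vanish hK hg T k hk
  · intro v hv
    have := hr2 v
    rwa [if_pos hv] at this
  · intro v hv
    have := hr2 v
    rwa [if_neg hv, Units.val_one, map_one] at this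

theorem canSet_bound (v : Point K) {f : K} (hf : f ∈ canSet hK hg v) (hf0 : f ≠ 0) :
    -v.ord f ≤ 2 * genus K - 1 := by
  classical
  have h := w0_degree_bound hK hg (lfin {v} (fun w => if w = v then Units.mk0 f hf0 else 1))
    (w0_mem_lfin hK hg _ _ (by
      intro w
      by_cases hw : w = v
      · subst hw
        rw [if_pos rfl]
        exact hf
      · rw [if_neg hw]
        exact one_mem_canSet hK hg w))
  rw [lfin_degree, Finset.sum_singleton, if_pos rfl] at h
  exact h

theorem exists_canFrame (v : Point K) : ∃ k : Kˣ, (k : K) ∈ canSet hK hg v ∧ v.ord (k : K) ≤ 0 ∧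
    ∀ f ∈ canSet hK hg v, f ≠ 0 → v.ord (k : K) ≤ v.ord f := by
  have h1 : ∃ z : ℤ, (∃ f ∈ canSet hK hg v, f ≠ 0 ∧ -v.ord f = z) ∧
      ∀ z' : ℤ, (∃ f ∈ canSet hK hg v, f ≠ 0 ∧ -v.ord f = z') → z' ≤ z := by
    apply Int.exists_greatest_of_bdd
    · refine ⟨2 * genus K - 1, ?_⟩
      rintro z ⟨f, hf, hf0, rfl⟩
      exact canSet_bound hK hg v hf hf0
    · exact ⟨_, 1, one_mem_canSet hK hg v, one_ne_zero, rfl⟩
  obtain ⟨z, ⟨f, hf, hf0, hz⟩, hmax⟩ := h1
  refine ⟨Units.mk0 f hf0, hf, ?_, ?_⟩
  · have := hmax _ ⟨1, one_mem_canSet hK hg v, one_ne_zero, rfl⟩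
    rw [v.ord_one] at this
    rw [Units.val_mk0]
    omega
  · intro f' hf' hf'0
    have := hmax _ ⟨f', hf', hf'0, rfl⟩
    rw [Units.val_mk0]
    omega

/-- the local generator of the canonical bundle -/
noncomputable def canFrame (v : Point K) : Kˣ := (exists_canFrame hK hg v).choose

theorem canFrame_mem (v : Point K) : (canFrame hK hg v : K) ∈ canSet hK hg v :=
  (exists_canFrame hK hg v).choose_spec.1

theorem canFrame_ord (v : Point K) : v.ord (canFrame hK hg v : K) ≤ 0 :=
  (exists_canFrame hK hg v).choose_spec.2.1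

theorem canFrame_min (v : Point K) {f : K} (hf : f ∈ canSet hK hg v) (hf0 : f ≠ 0) :
    v.ord (canFrame hK hg v : K) ≤ v.ord f := (exists_canFrame hK hg v).choose_spec.2.2 f hf hf0

theorem canFrame_finite : {v : Point K | v.val (canFrame hK hg v : K) ≠ 1}.Finite := by
  classical
  by_contra hinf
  obtain ⟨T, hT, hcard⟩ := Set.Infinite.exists_subset_card_eq hinf (2 * genus K)
  have h1 := w0_degree_bound hK hg (lfin T (canFrame hK hg))
    (w0_mem_lfin hK hg _ _ (canFrame_mem hK hg))
  rw [lfin_degree] at h1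
  have h2 : ∀ v ∈ T, (1 : ℤ) ≤ -v.ord (canFrame hK hg v : K) := by
    intro v hv
    have h3 : v.val (canFrame hK hg v : K) ≠ 1 := hT hv
    rw [Ne, v.val_eq_one_iff (canFrame hK hg v).ne_zero] at h3
    have := canFrame_ord hK hg v
    omega
  have h4 := Finset.sum_le_sum h2
  rw [Finset.sum_const, hcard, nsmul_eq_mul, mul_one] at h4
  push_cast at h4
  omega

/-- the canonical bundle -/
noncomputable def can : LineBundle K where
  frame := canFrame hK hg
  finite := canFrame_finite hK hg

theorem mem_can_stalk (v : Point K) (f : K) : f ∈ (can hK hg).stalk v ↔ f ∈ canSet hK hg v := by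
  change v.val f ≤ v.val (canFrame hK hg v : K) ↔ _
  constructor
  · intro h
    have h4 : f = (f * (canFrame hK hg v : K)⁻¹) * (canFrame hK hg v : K) := by
      rw [mul_assoc, inv_mul_cancel₀ (canFrame hK hg v).ne_zero, mul_one]
    rw [h4]
    apply mul_mem_canSet hK hg (canFrame_mem hK hg v)
    rw [map_mul, map_inv₀, ← div_eq_mul_inv,
      div_le_one₀ (zero_lt_iff.2 (v.val_ne_zero (canFrame hK hg v).ne_zero))]
    exact h
  · intro h
    rcases eq_or_ne f 0 with rfl | hf0
    · rw [map_zero]; exact zero_le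
    · rw [v.val_le_val_iff hf0 (canFrame hK hg v).ne_zero]
      exact canFrame_min hK hg v h hf0

theorem w0_mem_can : w0 hK hg ∈ Om1 (can hK hg) := by
  classical
  refine ⟨(w0_mem hK hg).1, fun r hr => ?_⟩
  apply w0_vanish hK hg (canFrame_finite hK hg).toFinset (canFrame hK hg) (canFrame_mem hK hg)
  · intro v _
    exact hr v
  · intro v hv
    rw [Set.Finite.mem_toFinset, Set.mem_ofPred_eq, not_not] at hv
    rw [← hv]
    exact hr v

/-- the sections of `E* ⊗ Ω` -/
noncomputable def dualK (E : Bundle K n) : Submodule ℂ (Fin n → K) where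
  carrier := {f | ∀ v, ∀ s ∈ E.stalk v, ∑ i, f i * s i ∈ (can hK hg).stalk v}
  add_mem' := by
    intro a b ha hb v s hs
    have : ∑ i, (a + b) i * s i = ∑ i, a i * s i + ∑ i, b i * s i := by
      rw [← Finset.sum_add_distrib]
      exact Finset.sum_congr rfl fun i _ => add_mul _ _ _
    rw [this]
    exact lstalk_add (ha v s hs) (hb v s hs)
  zero_mem' := by
    intro v s hs
    rw [Finset.sum_eq_zero fun i _ => zero_mul _]
    exact lstalk_zero
  smul_mem' := by
    intro c a ha v s hs
    have : ∑ i, (c • a) i * s i = c • ∑ i, a i * s i := by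
      rw [Finset.smul_sum]
      exact Finset.sum_congr rfl fun i _ => smul_mul_assoc _ _ _
    rw [this]
    exact lstalk_smul (ha v s hs) c

/-- pairing of adeles with a covector -/
noncomputable def pairA (f : Fin n → K) : AA K n →ₗ[ℂ] repartitions K :=
  ∑ i, smulR hK (f i) ∘ₗ projA i

theorem pairA_apply (f : Fin n → K) (r : AA K n) (v : Point K) :
    (pairA hK f r).1 v = ∑ i, f i * r.1 v i := by
  rw [pairA, LinearMap.sum_apply]
  have : ((∑ i, (smulR hK (f i) ∘ₗ projA i) r : repartitions K) : Point K → K) =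
      ∑ i, (((smulR hK (f i) ∘ₗ projA i) r : repartitions K) : Point K → K) :=
    AddSubmonoidClass.coe_finsetSum _ _
  rw [this, Finset.sum_apply]
  rfl

/-- Serre duality -/
noncomputable def dualMap (E : Bundle K n) : dualK hK hg E →ₗ[ℂ] Om E where
  toFun f := ⟨w0 hK hg ∘ₗ pairA hK f.1, by
    refine ⟨?_, ?_⟩
    · rintro r ⟨s, hs⟩
      exact (w0_mem hK hg).1 _ ⟨∑ i, f.1 i * s i, fun v => by rw [pairA_apply, hs v]⟩
    · intro r hr
      refine (w0_mem_can hK hg).2 _ fun v => ?_
      rw [pairA_apply]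
      exact f.2 v _ (hr v)⟩
  map_add' f g := by
    apply Subtype.ext
    refine LinearMap.ext fun r => ?_
    change w0 hK hg (pairA hK (f.1 + g.1) r) = w0 hK hg (pairA hK f.1 r) + w0 hK hg (pairA hK g.1 r)
    rw [← map_add]
    congr 1
    apply Subtype.ext
    funext v
    change _ = (pairA hK f.1 r).1 v + (pairA hK g.1 r).1 v
    rw [pairA_apply, pairA_apply, pairA_apply, ← Finset.sum_add_distrib]
    exact Finset.sum_congr rfl fun i _ => add_mul _ _ _
  map_smul' c f := by
    apply Subtype.ext
    refine LinearMap.ext fun r => ?_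
    change w0 hK hg (pairA hK (c • f.1) r) = c • w0 hK hg (pairA hK f.1 r)
    rw [← map_smul]
    congr 1
    apply Subtype.ext
    funext v
    change _ = c • (pairA hK f.1 r).1 v
    rw [pairA_apply, pairA_apply, Finset.smul_sum]
    exact Finset.sum_congr rfl fun i _ => smul_mul_assoc _ _ _

theorem pairA_single (f : Fin n → K) (i : Fin n) (r : repartitions K) :
    pairA hK f (singleA i r) = smulR hK (f i) r := by
  apply Subtype.ext
  funext v
  rw [pairA_apply]
  change ∑ j, f j * (Pi.single i (r.1 v) : Fin n → K) j = f i * r.1 v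
  rw [Finset.sum_eq_single i]
  · rw [Pi.single_eq_same]
  · intro j _ hj
    rw [Pi.single_eq_of_ne hj, mul_zero]
  · simp

theorem dualMap_injective (E : Bundle K n) : Function.Injective (dualMap hK hg E) := by
  rw [← LinearMap.ker_eq_bot, LinearMap.ker_eq_bot']
  intro f hf
  apply Subtype.ext
  funext i
  apply comp_eq_zero hK (w0_ne hK hg)
  refine LinearMap.ext fun r => ?_
  have h1 : w0 hK hg ∘ₗ pairA hK f.1 = 0 := congrArg Subtype.val hf
  have h2 := LinearMap.congr_fun h1 (singleA i r)
  rw [LinearMap.comp_apply, pairA_single] at h2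
  exact h2

theorem dualMap_surjective (E : Bundle K n) : Function.Surjective (dualMap hK hg E) := by
  classical
  rintro ⟨l, hl1, hl2⟩
  obtain ⟨L, hL⟩ := exists_lsum_le E
  have h1 : ∀ i, l ∘ₗ singleA i ∈ Om1 L := by
    intro i
    refine ⟨?_, ?_⟩
    · rintro r ⟨s, hs⟩
      exact hl1 _ ⟨Pi.single i s, fun v => by
        change (Pi.single i (r.1 v) : Fin n → K) = _
        rw [hs v]⟩
    · intro r hr
      refine hl2 _ fun v => hL v _ fun j => ?_
      change (Pi.single i (r.1 v) : Fin n → K) j ∈ _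
      rcases eq_or_ne j i with rfl | hj
      · rw [Pi.single_eq_same]; exact hr v
      · rw [Pi.single_eq_of_ne hj]; exact lstalk_zero
  choose f hf using fun i => weil_dim_one hK hg (w0_mem hK hg) (w0_ne hK hg) (h1 i)
  have h2 : l = w0 hK hg ∘ₗ pairA hK f := by
    refine LinearMap.ext fun r => ?_
    conv_lhs => rw [← sum_single_proj r]
    rw [map_sum, pairA, LinearMap.comp_apply, LinearMap.sum_apply, map_sum]
    refine Finset.sum_congr rfl fun i _ => ?_
    exact LinearMap.congr_fun (hf i) (projA i r)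
  refine ⟨⟨f, ?_⟩, Subtype.ext h2.symm⟩
  intro v s hs
  rw [mem_can_stalk]
  intro a ha
  have hmem : ∀ w, (Pi.single v (a • s) : Point K → Fin n → K) w ∈ E.stalk w := by
    intro w
    rcases eq_or_ne w v with rfl | hw
    · rw [Pi.single_eq_same]; exact stalk_smul hs ha
    · rw [Pi.single_eq_of_ne hw]; exact stalk_zero
  have h3 := hl2 ⟨Pi.single v (a • s), mem_AA_of_stalk E _ hmem⟩ hmem
  rw [h2, LinearMap.comp_apply] at h3
  convert h3 using 2
  apply Subtype.ext
  funext w
  rw [pairA_apply]
  change _ = ∑ i, f i * (Pi.single v (a • s) : Point K → Fin n → K) w i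
  rcases eq_or_ne w v with rfl | hw
  · rw [Pi.single_eq_same, delta_self, Finset.mul_sum]
    exact Finset.sum_congr rfl fun i _ => by
      rw [Pi.smul_apply, smul_eq_mul]; ring
  · rw [Pi.single_eq_of_ne hw, delta_ne hw]
    exact (Finset.sum_eq_zero fun i _ => mul_zero _).symm

/-- Riemann-Roch -/
theorem rr (E : Bundle K n) : FiniteDimensional ℂ E.sections ∧
    FiniteDimensional ℂ (dualK hK hg E) ∧
    (Module.finrank ℂ E.sections : ℤ) - Module.finrank ℂ (dualK hK hg E) =
      E.degree + n * (1 - genus K) := by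
  obtain ⟨h1, h2, h3⟩ := hasChi hK hg E
  have e := LinearEquiv.ofBijective (dualMap hK hg E)
    ⟨dualMap_injective hK hg E, dualMap_surjective hK hg E⟩
  exact ⟨h1, e.symm.finiteDimensional, by rw [e.finrank_eq, h3]⟩

/-- Riemann-Roch for line bundles -/
theorem rrL (L : LineBundle K) : FiniteDimensional ℂ (H0 L) ∧
    (Module.finrank ℂ (H0 L) : ℤ) - Module.finrank ℂ (H0 (lmul (can hK hg) (linv L))) =
      L.degree + 1 - genus K := by
  obtain ⟨h1, h2, h3⟩ := rr hK hg (lsum L 1)
  have e1 : (lsum L 1).sections ≃ₗ[ℂ] H0 L :=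
    (secEquiv L 1).trans (LinearEquiv.funUnique (Fin 1) ℂ (H0 L))
  have hiff : ∀ f : K, (fun _ : Fin 1 => f) ∈ dualK hK hg (lsum L 1) ↔
      f ∈ H0 (lmul (can hK hg) (linv L)) := by
    intro f
    constructor
    · intro h v
      rw [mem_lmul_linv]
      have := h v (fun _ => (L.frame v : K)) ((mem_lsum_stalk L v _).2 fun _ =>
        le_refl (v.val (L.frame v : K)))
      simpa using this
    · intro h v s hs
      have h4 := h v
      rw [mem_lmul_linv] at h4
      rw [mem_lsum_stalk] at hs
      rw [Finset.univ_unique, Finset.sum_singleton]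
      have h5 : v.val (s default) ≤ v.val (L.frame v : K) := hs default
      have h6 : v.val (f * (L.frame v : K)) ≤ v.val ((can hK hg).frame v : K) := h4
      change v.val (f * s default) ≤ v.val ((can hK hg).frame v : K)
      rw [map_mul] at h6 ⊢
      exact (mul_le_mul_right h5 _).trans h6
  let e2 : dualK hK hg (lsum L 1) ≃ₗ[ℂ] H0 (lmul (can hK hg) (linv L)) :=
    { toFun := fun f => ⟨f.1 0, (hiff _).1 (by
        have : (fun _ : Fin 1 => f.1 0) = f.1 := by
          funext i
          rw [Subsingleton.elim i 0]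
        rw [this]
        exact f.2)⟩
      invFun := fun f => ⟨fun _ => f.1, (hiff _).2 f.2⟩
      left_inv := fun f => by
        apply Subtype.ext
        funext i
        change f.1 0 = f.1 i
        rw [Subsingleton.elim i 0]
      right_inv := fun f => rfl
      map_add' := fun f g => rfl
      map_smul' := fun c f => rfl }
  refine ⟨e1.finiteDimensional, ?_⟩
  rw [← e1.finrank_eq, ← e2.finrank_eq, h3, lsum_degree]
  push_cast
  ring

theorem H0_congr {L M : LineBundle K} (h : ∀ v, L.stalk v = M.stalk v) : H0 L = H0 M := by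
  ext f
  change (∀ v, f ∈ L.stalk v) ↔ ∀ v, f ∈ M.stalk v
  simp only [h]

theorem can_h0 : Module.finrank ℂ (H0 (can hK hg)) = genus K := by
  have h1 := (rrL hK hg (one K)).2
  have h2 : H0 (lmul (can hK hg) (linv (one K))) = H0 (can hK hg) := by
    apply H0_congr
    intro v
    ext s
    rw [mem_lmul_linv]
    change s * ((1 : Kˣ) : K) ∈ _ ↔ _
    rw [Units.val_one, mul_one]
  rw [h2, (H0_one hK).2, one_degree] at h1
  omega

theorem can_degree : (can hK hg).degree = 2 * genus K - 2 := by
  have h1 := (rrL hK hg (can hK hg)).2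
  have h2 : H0 (lmul (can hK hg) (linv (can hK hg))) = H0 (one K) := by
    apply H0_congr
    intro v
    ext s
    rw [mem_lmul_linv, mem_one_stalk]
    change v.val (s * ((can hK hg).frame v : K)) ≤ v.val ((can hK hg).frame v : K) ↔ _
    rw [map_mul]
    exact mul_le_iff_le_one_left (frame_pos _ v)
  rw [h2, (H0_one hK).2, can_h0] at h1
  omega

end canonical

end Pool.Agent.Helper395.BC
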