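import Pool.Agent.Helper395.BC.Duality

open scoped WithZero Matrix IntermediateField
open WithZero

set_option linter.unusedSectionVars false
set_option linter.unusedVariables false

namespace Pool.Agent.Helper395.BC

open Pool.Agent.Helper395.CS

variable {K : Type} [Field K] [Algebra ℂ K] {n m q : ℕ}

/-- a local retraction -/
theorem exists_retraction_aux (v : Point K) (N : Matrix (Fin n) (Fin m) K)
    (hN : Function.Injective N.mulVec) : ∃ R : Matrix (Fin m) (Fin n) K, R * N = 1 ∧
      ∀ s : Fin n → K, v.Reg s → v.Reg (N *ᵥ (R *ᵥ s)) := by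
  obtain ⟨e0, he0⟩ := exists_minor N hN
  have : Nonempty (Fin m → Fin n) := ⟨e0⟩
  obtain ⟨e, he⟩ := Finite.exists_max (fun e : Fin m → Fin n => v.val (N.submatrix e id).det)
  have hdet : (N.submatrix e id).det ≠ 0 := by
    intro h0
    have := he e0
    rw [h0, map_zero, le_zero_iff, Valuation.zero_iff] at this
    exact he0 this
  set M : GL (Fin m) K := Matrix.GeneralLinearGroup.mkOfDetNeZero (N.submatrix e id) hdet with hM
  have hM1 : M.1 = N.submatrix e id := rfl
  have hNM : v.RegM (N * M⁻¹.1) := by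
    intro i j
    have h1 : Matrix.cramer (N.submatrix e id).transpose (N i) =
        (N.submatrix e id).det • (fun j => (N * M⁻¹.1) i j) := by
      have h2 := Matrix.mulVec_cramer (N.submatrix e id).transpose (N i)
      rw [Matrix.det_transpose] at h2
      have h3 : (N.submatrix e id).transpose *ᵥ (fun j => (N * M⁻¹.1) i j) = N i := by
        rw [Matrix.mulVec_transpose]
        have h4 : (fun j => (N * M⁻¹.1) i j) = N i ᵥ* M⁻¹.1 := rfl
        rw [h4, Matrix.vecMul_vecMul, ← hM1, ← Units.val_mul, inv_mul_cancel, Units.val_one,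
          Matrix.vecMul_one]
      have h5 : Function.Injective (N.submatrix e id).transpose.mulVec := by
        rw [Matrix.mulVec_injective_iff_isUnit, Matrix.isUnit_iff_isUnit_det,
          Matrix.det_transpose]
        exact hdet.isUnit
      apply h5
      rw [h2, Matrix.mulVec_smul, h3]
    have h6 := congrFun h1 j
    rw [Matrix.cramer_transpose_apply, Pi.smul_apply, smul_eq_mul] at h6
    have h7 : (N.submatrix e id).updateRow j (N i) = N.submatrix (Function.update e j i) id := by
      ext a b
      rw [Matrix.updateRow_apply]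
      rcases eq_or_ne a j with rfl | ha
      · simp
      · simp [ha]
    rw [h7] at h6
    have h8 : v.val (N.submatrix (Function.update e j i) id).det ≤
        v.val (N.submatrix e id).det := he (Function.update e j i)
    rw [h6, map_mul] at h8
    have h9 : 0 < v.val (N.submatrix e id).det := zero_lt_iff.2 ((Valuation.ne_zero_iff _).2 hdet)
    exact (mul_le_iff_le_one_right h9).1 h8
  refine ⟨M⁻¹.1 * (1 : Matrix (Fin n) (Fin n) K).submatrix e id, ?_, ?_⟩
  · rw [Matrix.mul_assoc]
    have : (1 : Matrix (Fin n) (Fin n) K).submatrix e id * N = N.submatrix e id := by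
      ext a b
      rw [Matrix.mul_apply, Finset.sum_eq_single (e a)]
      · rw [Matrix.submatrix_apply, id_eq, Matrix.one_apply_eq, one_mul]
        rfl
      · intro c _ hc
        rw [Matrix.submatrix_apply, id_eq, Matrix.one_apply_ne (Ne.symm hc), zero_mul]
      · simp
    rw [this, ← hM1, ← Units.val_mul, inv_mul_cancel, Units.val_one]
  · intro s hs
    rw [Matrix.mulVec_mulVec, ← Matrix.mul_assoc, ← Matrix.mulVec_mulVec]
    apply hNM.mulVec
    intro i
    have : ((1 : Matrix (Fin n) (Fin n) K).submatrix e id *ᵥ s) i = s (e i) := by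
      rw [Matrix.mulVec, dotProduct, Finset.sum_eq_single (e i)]
      · rw [Matrix.submatrix_apply, id_eq, Matrix.one_apply_eq, one_mul]
      · intro c _ hc
        rw [Matrix.submatrix_apply, id_eq, Matrix.one_apply_ne (Ne.symm hc), zero_mul]
      · simp
    rw [this]
    exact hs _

/-- a subbundle is locally a direct summand -/
theorem exists_retraction {F : Bundle K m} {E : Bundle K n} {j : (Fin m → K) →ₗ[K] (Fin n → K)}
    (h : IsSubbundle F E j) (v : Point K) : ∃ R : (Fin n → K) →ₗ[K] (Fin m → K),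
      (∀ x, R (j x) = x) ∧ ∀ s ∈ E.stalk v, R s ∈ F.stalk v := by
  obtain ⟨J, rfl⟩ : ∃ J : Matrix (Fin n) (Fin m) K, j = J.mulVecLin :=
    ⟨LinearMap.toMatrix' j, (Matrix.toLin'_toMatrix' j).symm⟩
  have hJ : Function.Injective J.mulVec := h.injective
  have hN : Function.Injective ((E.frame v)⁻¹.1 * J).mulVec := by
    intro a b hab
    simp only [← Matrix.mulVec_mulVec] at hab
    apply hJ
    have := congrArg ((E.frame v).1 *ᵥ ·) hab
    simpa [gl_mulVec_inv] using this
  obtain ⟨R, hR, hR2⟩ := exists_retraction_aux v _ hN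
  refine ⟨(R * (E.frame v)⁻¹.1).mulVecLin, ?_, ?_⟩
  · intro x
    rw [Matrix.mulVecLin_apply, Matrix.mulVecLin_apply, Matrix.mulVec_mulVec, Matrix.mul_assoc, hR,
      Matrix.one_mulVec]
  · intro s hs
    rw [h.stalk, mem_stalk_iff, Matrix.mulVecLin_apply, Matrix.mulVecLin_apply,
      ← Matrix.mulVec_mulVec, Matrix.mulVec_mulVec]
    exact hR2 _ hs

section exact

variable {E : Bundle K n} {F : Bundle K m} {G : Bundle K q} {j : (Fin m → K) →ₗ[K] (Fin n → K)}
  {P : (Fin n → K) →ₗ[K] (Fin q → K)}

theorem degree_exact (hK : IsCurve K) (hj : IsSubbundle F E j) (hP : Function.Surjective P)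
    (hex : ∀ s, P s = 0 → s ∈ LinearMap.range j) (hex' : ∀ x, P (j x) = 0)
    (hPE : ∀ v s, s ∈ E.stalk v → P s ∈ G.stalk v) :
    E.degree ≤ F.degree + G.degree ∧
      ((∀ v t, t ∈ G.stalk v → ∃ s ∈ E.stalk v, P s = t) → E.degree = F.degree + G.degree) := by
  classical
  -- dimensions
  have hn : n = m + q := by
    have h1 := LinearMap.finrank_range_add_finrank_ker P
    have h2 : LinearMap.ker P = LinearMap.range j := by
      ext s
      rw [LinearMap.mem_ker]
      exact ⟨hex s, by rintro ⟨x, rfl⟩; exact hex' x⟩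
    rw [LinearMap.range_eq_top.2 hP, finrank_top, h2, LinearMap.finrank_range_of_inj hj.injective]
      at h1
    simp at h1
    omega
  let e : Fin m ⊕ Fin q ≃ Fin n := finSumFinEquiv.trans (finCongr hn.symm)
  choose R hR1 hR2 using exists_retraction hj
  set Pm : Matrix (Fin q) (Fin n) K := LinearMap.toMatrix' P with hPm
  have hPm' : ∀ s, Pm *ᵥ s = P s := fun s => LinearMap.toMatrix'_mulVec P s
  let Rm : Point K → Matrix (Fin m) (Fin n) K := fun v => LinearMap.toMatrix' (R v)
  have hRm' : ∀ v s, Rm v *ᵥ s = R v s := fun v s => LinearMap.toMatrix'_mulVec (R v) s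
  -- the comparison matrices
  let A : Point K → Matrix (Fin n) (Fin n) K := fun v =>
    (Matrix.fromRows (Rm v) Pm).submatrix e.symm id
  have hAv : ∀ v s, ∀ i, (A v *ᵥ s) (e (Sum.inl i)) = R v s i := by
    intro v s i
    rw [← hRm']
    change ((Matrix.fromRows (Rm v) Pm).submatrix e.symm id *ᵥ s) (e (Sum.inl i)) = _
    rw [Matrix.mulVec, dotProduct]
    simp [Matrix.mulVec, dotProduct]
  have hAv' : ∀ v s, ∀ i, (A v *ᵥ s) (e (Sum.inr i)) = P s i := by
    intro v s i
    rw [← hPm']
    change ((Matrix.fromRows (Rm v) Pm).submatrix e.symm id *ᵥ s) (e (Sum.inr i)) = _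
    rw [Matrix.mulVec, dotProduct]
    simp [Matrix.mulVec, dotProduct]
  have hdet0 : ∀ v, (A v).det ≠ 0 := by
    intro v hdet
    obtain ⟨s, hs0, hs⟩ := Matrix.exists_mulVec_eq_zero_iff.2 hdet
    apply hs0
    have h1 : P s = 0 := by
      funext i
      rw [← hAv' v, hs]
      rfl
    have h2 : R v s = 0 := by
      funext i
      rw [← hAv v, hs]
      rfl
    obtain ⟨x, rfl⟩ := hex s h1
    rw [hR1] at h2
    rw [h2, map_zero]
  -- all determinants are equal
  obtain ⟨σ, hσ⟩ := P.exists_rightInverse_of_surjective (LinearMap.range_eq_top.2 hP)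
  have hσ' : ∀ t, P (σ t) = t := fun t => LinearMap.congr_fun hσ t
  have hdet : ∀ v w, (A v).det = (A w).det := by
    intro v w
    let α : Matrix (Fin m) (Fin q) K := LinearMap.toMatrix' ((R v - R w) ∘ₗ σ)
    have h1 : Rm v = Rm w + α * Pm := by
      have h2 : R v = R w + ((R v - R w) ∘ₗ σ) ∘ₗ P := by
        refine LinearMap.ext fun s => ?_
        have h3 : P (s - σ (P s)) = 0 := by rw [map_sub, hσ', sub_self]
        obtain ⟨x, hx⟩ := hex _ h3
        have h4 : s = j x + σ (P s) := by rw [hx, sub_add_cancel]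
        change R v s = R w s + (R v (σ (P s)) - R w (σ (P s)))
        have h5 : R v s = x + R v (σ (P s)) := by
          conv_lhs => rw [h4, map_add, hR1]
        have h6 : R w s = x + R w (σ (P s)) := by
          conv_lhs => rw [h4, map_add, hR1]
        rw [h5, h6]
        abel
      change LinearMap.toMatrix' (R v) = LinearMap.toMatrix' (R w) + α * Pm
      conv_lhs => rw [h2, map_add, LinearMap.toMatrix'_comp]
    have h7 : A v = ((Matrix.fromBlocks 1 α 0 1 : Matrix (Fin m ⊕ Fin q) (Fin m ⊕ Fin q) K).submatrix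
        e.symm e.symm) * A w := by
      change (Matrix.fromRows (Rm v) Pm).submatrix e.symm id =
        ((Matrix.fromBlocks 1 α 0 1 : Matrix (Fin m ⊕ Fin q) (Fin m ⊕ Fin q) K).submatrix
        e.symm e.symm) * (Matrix.fromRows (Rm w) Pm).submatrix e.symm id
      rw [Matrix.submatrix_mul_equiv, Matrix.fromBlocks_mul_fromRows, h1]
      simp
    rw [h7, Matrix.det_mul, Matrix.det_submatrix_equiv_self, Matrix.det_fromBlocks_zero₂₁]
    simp
  -- integrality
  let X : Point K → Matrix (Fin n) (Fin n) K := fun v =>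
    ((Matrix.fromBlocks (F.frame v)⁻¹.1 0 0 (G.frame v)⁻¹.1 :
      Matrix (Fin m ⊕ Fin q) (Fin m ⊕ Fin q) K).submatrix e.symm e.symm) * A v * (E.frame v).1
  have hX : ∀ v s, ∀ i, (X v *ᵥ s) (e (Sum.inl i)) =
      ((F.frame v)⁻¹.1 *ᵥ (R v ((E.frame v).1 *ᵥ s))) i := by
    intro v s i
    change ((((Matrix.fromBlocks (F.frame v)⁻¹.1 0 0 (G.frame v)⁻¹.1 :
      Matrix (Fin m ⊕ Fin q) (Fin m ⊕ Fin q) K).submatrix e.symm e.symm) * A v *
        (E.frame v).1) *ᵥ s) (e (Sum.inl i)) = _
    rw [← Matrix.mulVec_mulVec, ← Matrix.mulVec_mulVec]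
    rw [Matrix.mulVec, dotProduct, ← e.sum_comp, Fintype.sum_sum_type, Matrix.mulVec, dotProduct]
    simp [hAv]
  have hX' : ∀ v s, ∀ i, (X v *ᵥ s) (e (Sum.inr i)) =
      ((G.frame v)⁻¹.1 *ᵥ (P ((E.frame v).1 *ᵥ s))) i := by
    intro v s i
    change ((((Matrix.fromBlocks (F.frame v)⁻¹.1 0 0 (G.frame v)⁻¹.1 :
      Matrix (Fin m ⊕ Fin q) (Fin m ⊕ Fin q) K).submatrix e.symm e.symm) * A v *
        (E.frame v).1) *ᵥ s) (e (Sum.inr i)) = _
    rw [← Matrix.mulVec_mulVec, ← Matrix.mulVec_mulVec]
    rw [Matrix.mulVec, dotProduct, ← e.sum_comp, Fintype.sum_sum_type, Matrix.mulVec, dotProduct]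
    simp [hAv']
  have hXreg : ∀ v : Point K, v.RegM (X v) := by
    intro v
    apply v.regM_of_forall
    intro s hs i
    obtain ⟨i, rfl⟩ := e.surjective i
    have hsE := frame_mulVec_mem E v hs
    rcases i with i | i
    · rw [hX]
      exact hR2 v _ hsE i
    · rw [hX']
      exact hPE v _ hsE i
  have hXdet : ∀ v, (X v).det = (F.frame v).1.det⁻¹ * (G.frame v).1.det⁻¹ * (A v).det *
      (E.frame v).1.det := by
    intro v
    change (((Matrix.fromBlocks (F.frame v)⁻¹.1 0 0 (G.frame v)⁻¹.1 :
      Matrix (Fin m ⊕ Fin q) (Fin m ⊕ Fin q) K).submatrix e.symm e.symm) * A v *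
        (E.frame v).1).det = _
    rw [Matrix.det_mul, Matrix.det_mul, Matrix.det_submatrix_equiv_self,
      Matrix.det_fromBlocks_zero₂₁, gl_inv_det, gl_inv_det]
  have hXord : ∀ v : Point K, v.ord (X v).det = -v.ord (F.frame v).1.det - v.ord (G.frame v).1.det +
      v.ord (A v).det + v.ord (E.frame v).1.det := by
    intro v
    have hF := gl_det_ne_zero (F.frame v)
    have hG := gl_det_ne_zero (G.frame v)
    have hE := gl_det_ne_zero (E.frame v)
    rw [hXdet, v.ord_mul (mul_ne_zero (mul_ne_zero (inv_ne_zero hF) (inv_ne_zero hG)) (hdet0 v)) hE,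
      v.ord_mul (mul_ne_zero (inv_ne_zero hF) (inv_ne_zero hG)) (hdet0 v),
      v.ord_mul (inv_ne_zero hF) (inv_ne_zero hG), v.ord_inv, v.ord_inv]
    ring
  have hXne : ∀ v, (X v).det ≠ 0 := by
    intro v
    rw [hXdet]
    exact mul_ne_zero (mul_ne_zero (mul_ne_zero (inv_ne_zero (gl_det_ne_zero _))
      (inv_ne_zero (gl_det_ne_zero _))) (hdet0 v)) (gl_det_ne_zero _)
  obtain ⟨v₀⟩ := point_nonempty hK
  set a := (A v₀).det with ha
  have hsum : F.degree + G.degree =
      ∑ᶠ v : Point K, (-v.ord (F.frame v).1.det - v.ord (G.frame v).1.det + v.ord a) := by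
    have h1 : ∀ v : Point K, -v.ord (F.frame v).1.det - v.ord (G.frame v).1.det + v.ord a =
        (-v.ord (F.frame v).1.det + -v.ord (G.frame v).1.det) + v.ord a := fun v => by ring
    have hfF : (Function.support fun v : Point K => -v.ord (F.frame v).1.det).Finite := by
      refine F.finite_det.subset fun v hv => ?_
      rw [Function.mem_support, neg_ne_zero] at hv
      exact hv
    have hfG : (Function.support fun v : Point K => -v.ord (G.frame v).1.det).Finite := by
      refine G.finite_det.subset fun v hv => ?_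
      rw [Function.mem_support, neg_ne_zero] at hv
      exact hv
    rw [finsum_congr h1, finsum_add_distrib, finsum_add_distrib hfF hfG, sum_ord hK, add_zero]
    · rfl
    · refine (hfF.union hfG).subset fun v hv => ?_
      by_contra hcon
      simp only [Set.mem_union, Function.mem_support, not_or, not_not] at hcon
      rw [Function.mem_support] at hv
      exact hv (by rw [hcon.1, hcon.2, add_zero])
    · exact finite_ord hK a
  have hfin2 : (Function.support fun v : Point K =>
      (-v.ord (F.frame v).1.det - v.ord (G.frame v).1.det + v.ord a)).Finite := by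
    refine ((F.finite_det.union G.finite_det).union (finite_ord hK a)).subset fun v hv => ?_
    by_contra hcon
    simp only [Set.mem_union, Set.mem_ofPred_eq, not_or, not_not] at hcon
    rw [Function.mem_support] at hv
    exact hv (by rw [hcon.1.1, hcon.1.2, hcon.2]; ring)
  have hfin1 : (Function.support fun v : Point K => -v.ord (E.frame v).1.det).Finite := by
    refine E.finite_det.subset fun v hv => ?_
    rw [Function.mem_support, neg_ne_zero] at hv
    exact hv
  constructor
  · rw [hsum]
    refine finsum_le_finsum' hfin1 hfin2 fun v => ?_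
    have h1 := (v.val_le_one_iff (hXne v)).1 (v.val_det_le_one _ (hXreg v))
    rw [hXord, hdet v v₀, ← ha] at h1
    beta_reduce
    omega
  · intro hsurj
    rw [hsum]
    refine finsum_congr fun v => ?_
    have h2 : v.val (X v).det = 1 := by
      have h3 : ∀ i : Fin n, ∃ y : Fin n → K, v.Reg y ∧ X v *ᵥ y = Pi.single i 1 := by
        intro i
        let w1 : Fin m → K := fun l => (Pi.single i 1 : Fin n → K) (e (Sum.inl l))
        let w2 : Fin q → K := fun l => (Pi.single i 1 : Fin n → K) (e (Sum.inr l))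
        have hw : ∀ l, v.val ((Pi.single i 1 : Fin n → K) l) ≤ 1 := by
          intro l
          rcases eq_or_ne l i with rfl | hl
          · rw [Pi.single_eq_same, map_one]
          · rw [Pi.single_eq_of_ne hl]; simp
        have hw1 : (F.frame v).1 *ᵥ w1 ∈ F.stalk v := frame_mulVec_mem F v fun l => hw _
        have hw2 : (G.frame v).1 *ᵥ w2 ∈ G.stalk v := frame_mulVec_mem G v fun l => hw _
        obtain ⟨s, hs, hPs⟩ := hsurj v _ hw2
        set s' := s - j (R v s) + j ((F.frame v).1 *ᵥ w1) with hs'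
        have hs'E : s' ∈ E.stalk v :=
          stalk_add (stalk_sub hs ((hj.stalk v _).1 (hR2 v s hs))) ((hj.stalk v _).1 hw1)
        have hs'R : R v s' = (F.frame v).1 *ᵥ w1 := by
          rw [hs', map_add, map_sub, hR1, hR1, sub_self, zero_add]
        have hs'P : P s' = (G.frame v).1 *ᵥ w2 := by
          rw [hs', map_add, map_sub, hex', hex', sub_zero, add_zero, hPs]
        refine ⟨(E.frame v)⁻¹.1 *ᵥ s', hs'E, ?_⟩
        funext l
        obtain ⟨l, rfl⟩ := e.surjective l
        rcases l with l | l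
        · rw [hX, gl_mulVec_inv, hs'R, gl_inv_mulVec]
        · rw [hX', gl_mulVec_inv, hs'P, gl_inv_mulVec]
      choose y hy1 hy2 using h3
      let Y : Matrix (Fin n) (Fin n) K := fun i l => y l i
      have hXY : X v * Y = 1 := by
        ext a b
        have := congrFun (hy2 b) a
        rw [Matrix.mulVec, dotProduct] at this
        rw [Matrix.mul_apply, Matrix.one_apply, this, Pi.single_apply]
      have hYreg : v.RegM Y := fun a b => hy1 b a
      have h4 : v.val (X v).det * v.val Y.det = 1 := by
        rw [← map_mul, ← Matrix.det_mul, hXY, Matrix.det_one, map_one]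
      have h5 := v.val_det_le_one _ (hXreg v)
      have h6 := v.val_det_le_one _ hYreg
      refine le_antisymm h5 ?_
      rw [← h4]
      exact mul_le_of_le_one_right' h6
    rw [v.val_eq_one_iff (hXne v), hXord, hdet v v₀, ← ha] at h2
    omega

end exact

/-! ### dual bundles -/

/-- the dual of an invertible matrix -/
noncomputable def gdual (g : GL (Fin n) K) : GL (Fin n) K where
  val := g⁻¹.1ᵀ
  inv := g.1ᵀ
  val_inv := by
    rw [← Matrix.transpose_mul, ← Units.val_mul, mul_inv_cancel, Units.val_one,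
      Matrix.transpose_one]
  inv_val := by
    rw [← Matrix.transpose_mul, ← Units.val_mul, inv_mul_cancel, Units.val_one,
      Matrix.transpose_one]

theorem gdual_inv (g : GL (Fin n) K) : (gdual g)⁻¹.1 = g.1ᵀ := rfl

/-- the dual bundle -/
noncomputable def bdual (E : Bundle K n) : Bundle K n where
  frame v := gdual (E.frame v)
  finite := E.finite.subset fun v hv h => hv
    ⟨fun i j => h.2 j i, fun i j => h.1 j i⟩

theorem mem_bdual (E : Bundle K n) (v : Point K) (f : Fin n → K) :
    f ∈ (bdual E).stalk v ↔ ∀ s ∈ E.stalk v, v.val (∑ i, f i * s i) ≤ 1 := by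
  rw [mem_stalk_iff]
  change v.Reg ((gdual (E.frame v))⁻¹.1 *ᵥ f) ↔ _
  rw [gdual_inv]
  have h1 : ∀ t : Fin n → K, ∑ i, f i * ((E.frame v).1 *ᵥ t) i =
      ∑ l, ((E.frame v).1ᵀ *ᵥ f) l * t l := by
    intro t
    simp only [Matrix.mulVec, dotProduct, Finset.mul_sum, Finset.sum_mul, Matrix.transpose_apply]
    rw [Finset.sum_comm]
    exact Finset.sum_congr rfl fun _ _ => Finset.sum_congr rfl fun _ _ => by ring
  constructor
  · intro h s hs
    have h2 := h1 ((E.frame v)⁻¹.1 *ᵥ s)
    rw [gl_mulVec_inv] at h2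
    rw [h2]
    refine Valuation.map_sum_le _ fun l _ => ?_
    rw [map_mul]
    exact mul_le_one' (h l) (hs l)
  · intro h l
    have h3 : v.Reg (Pi.single l 1 : Fin n → K) := by
      intro i
      rcases eq_or_ne i l with rfl | hi
      · rw [Pi.single_eq_same, map_one]
      · rw [Pi.single_eq_of_ne hi]; simp
    have h2 := h _ (frame_mulVec_mem E v h3)
    rw [h1, Finset.sum_eq_single l] at h2
    · simpa using h2
    · intro b _ hb
      rw [Pi.single_eq_of_ne hb, mul_zero]
    · simp

theorem bdual_degree (E : Bundle K n) : (bdual E).degree = -E.degree := by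
  rw [Bundle.degree, Bundle.degree, ← finsum_neg_distrib]
  refine finsum_congr fun v => ?_
  change -v.ord ((E.frame v)⁻¹.1ᵀ).det = _
  rw [Matrix.det_transpose, gl_inv_det, v.ord_inv]

theorem mem_bdual_bdual (E : Bundle K n) (v : Point K) (s : Fin n → K) :
    s ∈ (bdual (bdual E)).stalk v ↔ s ∈ E.stalk v := by
  rw [mem_stalk_iff, mem_stalk_iff]
  change v.Reg ((gdual (gdual (E.frame v)))⁻¹.1 *ᵥ s) ↔ _
  rw [gdual_inv]
  change v.Reg ((E.frame v)⁻¹.1ᵀᵀ *ᵥ s) ↔ _
  rw [Matrix.transpose_transpose]

end Pool.Agent.Helper395.BC
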