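import Pool.Agent.Helper395.BC.Homs

open scoped WithZero Matrix IntermediateField
open WithZero

set_option linter.unusedSectionVars false
set_option linter.unusedVariables false

namespace Pool.Agent.Helper395.BC

open Pool.Agent.Helper395.CS

variable {K : Type} [Field K] [Algebra ℂ K] {n m q k : ℕ}

/-- there are two points -/
theorem exists_two_points (hK : IsCurve K) : ∃ v w : Point K, w ≠ v := by
  obtain ⟨t, ht⟩ := exists_transc hK
  have key : ∀ t : K, Transcendental ℂ t → ∃ v : Point K, 0 < v.ord t := by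
    intro t ht
    obtain ⟨S, hS, hsum⟩ := zero_count_aux hK ht
    have h3 := hK.finiteDimensional ht
    have h4 : 0 < Module.finrank ℂ⟮t⟯ K := Module.finrank_pos
    by_contra hcon
    push Not at hcon
    have h5 : ∑ v ∈ S, v.ord t ≤ 0 := Finset.sum_nonpos fun v _ => hcon v
    omega
  obtain ⟨v, hv⟩ := key t ht
  obtain ⟨w, hw⟩ := key t⁻¹ (by
    intro h
    apply ht
    have := h.inv
    rwa [inv_inv] at this)
  refine ⟨v, w, ?_⟩
  rintro rfl
  rw [w.ord_inv] at hw
  omega

theorem frame_lt_self {v : Point K} : 1 < v.val ((lpt v).frame v : K) := by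
  rw [lpt_frame_self, map_inv₀]
  exact (one_lt_inv₀ (zero_lt_iff.2 (v.val_ne_zero (unif_ne_zero v)))).2 (val_unif_lt v)

/-- `T = 𝒪(2 p - r)` has no sections -/
theorem exists_T (hK : IsCurve K) (hg : genus K ≠ 0) (hs : SmallH0 K) :
    ∃ T : LineBundle K, T.degree = 1 ∧ H0 T = ⊥ := by
  obtain ⟨p, r, hpr⟩ := exists_two_points hK
  refine ⟨lsub (lmul (lpt p) (lpt p)) r, ?_, ?_⟩
  · rw [lsub_degree, lmul_degree, lpt_degree]
    norm_num
  · rw [eq_bot_iff]
    intro f hf
    by_contra hf0
    have hf0' : f ≠ 0 := hf0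
    have h1 : f ∈ H0 (lmul (lpt p) (lpt p)) := by
      intro w
      have := hf w
      rcases eq_or_ne w r with rfl | hw
      · rw [mem_lsub_self] at this
        exact this.le
      · rwa [mem_lsub_ne _ hw] at this
    have h2 : (1 : K) ∈ H0 (lmul (lpt p) (lpt p)) := by
      intro w
      rw [mem_lmul, map_one]
      have h3 : 1 ≤ w.val ((lpt p).frame w : K) := by
        rcases eq_or_ne w p with rfl | hw
        · exact frame_lt_self.le
        · rw [lpt_frame_ne hw, Units.val_one, map_one]
      exact one_le_mul h3 h3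
    have hrank := hs (lmul (lpt p) (lpt p)) (by
      rw [lmul_degree, lpt_degree]; norm_num)
    have hfd := H0_finite hK hg (lmul (lpt p) (lpt p))
    obtain ⟨z, hz⟩ := finrank_le_one_iff.1 hrank
    obtain ⟨a, ha⟩ := hz ⟨1, h2⟩
    obtain ⟨b, hb⟩ := hz ⟨f, h1⟩
    have ha' : a • (z : K) = 1 := congrArg Subtype.val ha
    have hb' : b • (z : K) = f := congrArg Subtype.val hb
    have ha0 : a ≠ 0 := by
      rintro rfl
      rw [zero_smul] at ha'
      exact zero_ne_one ha'
    have hb0 : b ≠ 0 := by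
      rintro rfl
      rw [zero_smul] at hb'
      exact hf0' hb'.symm
    have hr := hf r
    rw [mem_lsub_self] at hr
    have h4 : r.val ((lmul (lpt p) (lpt p)).frame r : K) = 1 := by
      change r.val (((lpt p).frame r * (lpt p).frame r : Kˣ) : K) = 1
      rw [lpt_frame_ne hpr, mul_one, Units.val_one, map_one]
    rw [h4] at hr
    have h5 : f = (b / a) • (1 : K) := by
      rw [← ha', smul_smul, div_mul_cancel₀ _ ha0, hb']
    rw [h5, Algebra.smul_def, mul_one, r.const _ (div_ne_zero hb0 ha0)] at hr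
    exact lt_irrefl _ hr

/-- a line bundle of degree zero with a section is trivial -/
theorem inv_mem_of_degree_zero (hK : IsCurve K) {N : LineBundle K} (hN : N.degree = 0) {f : K}
    (hf : f ∈ H0 N) (hf0 : f ≠ 0) (v : Point K) : v.val f = v.val (N.frame v : K) := by
  have h1 := lstalk_eq_of_degree_eq hK (L := lprin hK (Units.mk0 f hf0)) (M := N) (fun v s hs => by
    change v.val s ≤ v.val f at hs
    exact hs.trans (hf v)) (by rw [lprin_degree, hN]) v
  have h2 : (N.frame v : K) ∈ (lprin hK (Units.mk0 f hf0)).stalk v := by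
    rw [h1]
    exact le_refl (v.val (N.frame v : K))
  exact le_antisymm (hf v) h2

/-- if `H¹(L) = 0` then every repartition is the sum of a constant one and one in `L` -/
theorem exists_split_of_om1 {L : LineBundle K} (h : Om1 L = ⊥) (r : repartitions K) :
    ∃ f : K, ∀ v, f - r.1 v ∈ L.stalk v := by
  -- the subspace
  let W : Submodule ℂ (repartitions K) :=
    { carrier := {r | ∃ f : K, ∀ v, f - r.1 v ∈ L.stalk v}
      add_mem' := by
        rintro a b ⟨f, hf⟩ ⟨g, hg⟩
        refine ⟨f + g, fun v => ?_⟩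
        have : f + g - (a + b).1 v = (f - a.1 v) + (g - b.1 v) := by
          change f + g - (a.1 v + b.1 v) = _
          ring
        rw [this]
        exact lstalk_add (hf v) (hg v)
      zero_mem' := ⟨0, fun v => by
        change (0 : K) - 0 ∈ _
        rw [sub_zero]
        exact lstalk_zero⟩
      smul_mem' := by
        rintro c a ⟨f, hf⟩
        refine ⟨c • f, fun v => ?_⟩
        have : c • f - (c • a).1 v = c • (f - a.1 v) := by
          rw [smul_sub]
          rfl
        rw [this]
        exact lstalk_smul (hf v) c }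
  change r ∈ W
  by_contra hr
  obtain ⟨w, hw, hW⟩ := Submodule.exists_le_ker_of_notMem hr
  have hwm : w ∈ Om1 L := by
    refine ⟨?_, ?_⟩
    · rintro r' ⟨s, hs⟩
      apply hW
      refine ⟨s, fun v => ?_⟩
      rw [hs v, sub_self]
      exact lstalk_zero
    · intro r' hr'
      apply hW
      refine ⟨0, fun v => ?_⟩
      have : (0 : K) - r'.1 v = (-1 : ℂ) • r'.1 v := by
        rw [zero_sub, neg_smul, one_smul]
      rw [this]
      exact lstalk_smul (hr' v) _
  rw [h] at hwm
  have hw0 : w = 0 := hwm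
  rw [hw0] at hw
  exact hw rfl

/-- the data used for the construction of the extension -/
theorem exists_data (hK : IsCurve K) (hg3 : genus K = 3) (hne : HasNoPencilOfDegreeTwo K) :
    ∃ (L1 L2 : LineBundle K) (a b α : Fin 3 → K) (u : Point K → K),
      L1.degree = 5 ∧ L2.degree = 4 ∧ GG3 L1 a ∧ GG3 L2 b ∧
      (∀ v l, α l - u v * b l ∈ L1.stalk v) ∧
      ∀ w : K, ∃ v, (w - u v) * (L2.frame v : K) ∉ L1.stalk v := by
  have hg : genus K ≠ 0 := by omega
  have hs := smallH0 hK hg hne
  obtain ⟨T, hT1, hT0⟩ := exists_T hK hg hs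
  set κ := can hK hg with hκ
  have hκd : κ.degree = 4 := by rw [hκ, can_degree, hg3]; norm_num
  have hκ3 : Module.finrank ℂ (H0 κ) = 3 := by rw [hκ, can_h0, hg3]
  have hL1d : (lmul κ T).degree = 5 := by rw [lmul_degree, hκd, hT1]; norm_num
  -- `κ` is globally generated
  have hκv : ∀ v, Module.finrank ℂ (H0 (lsub κ v)) < 3 := by
    intro v
    have h1 := (rrL hK hg (lpt v)).2
    rw [lpt_degree, hg3] at h1
    have h2 := hs (lpt v) (by rw [lpt_degree]; norm_num)
    change (Module.finrank ℂ (H0 (lpt v)) : ℤ) - Module.finrank ℂ (H0 (lsub κ v)) = _ at h1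
    omega
  obtain ⟨b, hb⟩ := exists_GG3 κ hκ3 hκv
  -- `L₁`
  have hL13 : Module.finrank ℂ (H0 (lmul κ T)) = 3 := by
    have h1 := (rrL hK hg (lmul κ T)).2
    have h2 : H0 (lmul κ (linv (lmul κ T))) = ⊥ := by
      apply H0_eq_bot hK
      rw [lmul_degree, linv_degree, hκd, hL1d]
      norm_num
    rw [← hκ, h2, finrank_bot, hL1d, hg3] at h1
    omega
  have hL1v : ∀ v, Module.finrank ℂ (H0 (lsub (lmul κ T) v)) < 3 := by
    intro v
    have h1 := (rrL hK hg (lsub (lmul κ T) v)).2
    have h2 : H0 (lmul κ (linv (lsub (lmul κ T) v))) = ⊥ := by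
      rw [eq_bot_iff]
      intro f hf
      by_contra hf0
      have hf0' : f ≠ 0 := hf0
      have h3 : (lmul κ (linv (lsub (lmul κ T) v))).degree = 0 := by
        rw [lmul_degree, linv_degree, lsub_degree, hκd, hL1d]
        norm_num
      have h4 := inv_mem_of_degree_zero hK h3 hf hf0'
      have h5 : f⁻¹ ∈ H0 T := by
        intro w
        change w.val f⁻¹ ≤ w.val (T.frame w : K)
        rw [map_inv₀, h4 w]
        change (w.val ((κ.frame w * ((κ.frame w * T.frame w) * ((lpt v).frame w)⁻¹)⁻¹ : Kˣ) : K))⁻¹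
          ≤ _
        have h6 : κ.frame w * ((κ.frame w * T.frame w) * ((lpt v).frame w)⁻¹)⁻¹ =
            (T.frame w)⁻¹ * (lpt v).frame w := by
          rw [mul_inv, mul_inv, inv_inv, ← mul_assoc, ← mul_assoc, mul_inv_cancel, one_mul]
        rw [h6, Units.val_mul, map_mul, mul_inv, Units.val_inv_eq_inv_val, map_inv₀, inv_inv]
        apply mul_le_of_le_one_right'
        rcases eq_or_ne w v with rfl | hw
        · exact inv_le_one_of_one_le₀ frame_lt_self.le
        · rw [lpt_frame_ne hw, Units.val_one, map_one, inv_one]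
      rw [hT0] at h5
      exact inv_ne_zero hf0' h5
    rw [← hκ, h2, finrank_bot, lsub_degree, hL1d, hg3] at h1
    omega
  obtain ⟨a, ha⟩ := exists_GG3 (lmul κ T) hL13 hL1v
  -- the extension class
  have hOmL1 : Om1 (lmul κ T) = ⊥ := by
    obtain ⟨f1, f2, h1⟩ := lHasChi hK hg (lmul κ T)
    rw [hL13, hL1d, hg3] at h1
    apply Submodule.finrank_eq_zero.1
    omega
  have hOmT : Om1 T ≠ ⊥ := by
    intro h
    obtain ⟨f1, f2, h1⟩ := lHasChi hK hg T
    rw [hT0, h, finrank_bot, finrank_bot, hT1, hg3] at h1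
    omega
  obtain ⟨w, hw, hw0⟩ := Submodule.exists_mem_ne_zero_of_ne_bot hOmT
  obtain ⟨u, hu⟩ : ∃ u, w u ≠ 0 := by
    by_contra hcon
    push Not at hcon
    exact hw0 (LinearMap.ext hcon)
  choose α hα using fun l => exists_split_of_om1 hOmL1 (smulR hK (b l) u)
  refine ⟨lmul κ T, κ, a, b, α, u.1, hL1d, hκd, ha, hb, fun v l => ?_, fun f => ?_⟩
  · have := hα l v
    change α l - b l * u.1 v ∈ _ at this
    rwa [mul_comm (b l)] at this
  · by_contra hcon
    push Not at hcon
    apply hu
    -- `u = f - (f - u)`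
    have hfr : (fun _ : Point K => f) ∈ repartitions K := finite_not_reg hK f
    have h1 : ∀ v, (f - u.1 v) ∈ T.stalk v := by
      intro v
      have h2 := hcon v
      rw [mem_lmul, map_mul, mul_comm] at h2
      exact (mul_le_mul_iff_of_pos_left (frame_pos κ v)).1 h2
    have h2 : u = ⟨fun _ : Point K => f, hfr⟩ - (⟨fun _ : Point K => f, hfr⟩ - u) := by
      rw [sub_sub_cancel]
    rw [h2, map_sub, hw.1 _ ⟨f, fun _ => rfl⟩, hw.2 (⟨fun _ : Point K => f, hfr⟩ - u) h1, sub_zero]

end Pool.Agent.Helper395.BC
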