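import Pool.Agent.Helper395.BC.Conic

open scoped WithZero Matrix IntermediateField
open WithZero

set_option linter.unusedSectionVars false
set_option linter.unusedVariables false

namespace Pool.Agent.Helper395.BC

open Pool.Agent.Helper395.CS

variable {K : Type} [Field K] [Algebra ℂ K] {n m q k : ℕ}

/-- no conics, for a generator in position `0` -/
theorem no_conic_zero (hK : IsCurve K) (hg : genus K ≠ 0) (hs : SmallH0 K) {L : LineBundle K}
    {c : Fin 3 → K} (h : GG3 L c) (hd : L.degree ≤ 5) {v : Point K}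
    (h0 : v.val (c 0) = v.val (L.frame v : K)) (B : Fin 3 → Fin 3 → ℂ)
    (hB : ∑ i, ∑ j, B i j • (c i * c j) = 0) : ∀ i j, B i j + B j i = 0 := by
  have hc0 : c 0 ≠ 0 := h.ne_zero 0
  have hres : ∀ l, ∃ ρ : ℂ, v.val (c l - ρ • c 0) < v.val (c 0) := by
    intro l
    have h1 : v.val (c l / c 0) ≤ 1 := by
      rw [map_div₀, h0, div_le_one₀ (frame_pos L v)]
      exact h.mem l v
    obtain ⟨ρ, hρ⟩ := exists_res hK v h1
    refine ⟨ρ, ?_⟩
    have h2 : c l - ρ • c 0 = (c l / c 0 - algebraMap ℂ K ρ) * c 0 := by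
      rw [sub_mul, div_mul_cancel₀ _ hc0, Algebra.smul_def]
    rw [h2, map_mul]
    have h3 : 0 < v.val (c 0) := zero_lt_iff.2 (v.val_ne_zero hc0)
    exact mul_lt_of_lt_one_left h3 hρ
  obtain ⟨ρ1, hρ1⟩ := hres 1
  obtain ⟨ρ2, hρ2⟩ := hres 2
  have hmem := h.mem
  have key := no_conic_aux hK hg hs h hd (v := v) (z0 := c 0) (z1 := c 1 - ρ1 • c 0)
    (z2 := c 2 - ρ2 • c 0) (hmem 0) (sub_mem (hmem 1) (Submodule.smul_mem _ _ (hmem 0)))
    (sub_mem (hmem 2) (Submodule.smul_mem _ _ (hmem 0)))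
    (by
      intro i
      fin_cases i
      · exact ⟨1, 0, 0, by simp⟩
      · exact ⟨ρ1, 1, 0, by simp⟩
      · exact ⟨ρ2, 0, 1, by simp⟩)
    (by
      intro a b d habd
      have h1 := h.indep ![a - b * ρ1 - d * ρ2, b, d] (by
        rw [Fin.sum_univ_three]
        simp only [Matrix.cons_val_zero, Matrix.cons_val_one, Matrix.cons_val]
        rw [← habd]
        simp only [Algebra.smul_def, map_sub, map_mul]
        ring)
      have h2 := congrFun h1 0
      have h3 := congrFun h1 1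
      have h4 := congrFun h1 2
      simp only [Matrix.cons_val_zero, Matrix.cons_val_one, Matrix.cons_val, Pi.zero_apply] at h2 h3 h4
      subst h3
      subst h4
      simpa using h2)
    hρ1 hρ2
    (p := B 0 0 + (B 0 1 + B 1 0) * ρ1 + (B 0 2 + B 2 0) * ρ2 + B 1 1 * ρ1 ^ 2 +
      (B 1 2 + B 2 1) * ρ1 * ρ2 + B 2 2 * ρ2 ^ 2)
    (q1 := (B 0 1 + B 1 0) + 2 * B 1 1 * ρ1 + (B 1 2 + B 2 1) * ρ2)
    (q2 := (B 0 2 + B 2 0) + (B 1 2 + B 2 1) * ρ1 + 2 * B 2 2 * ρ2)
    (r11 := B 1 1) (r12 := B 1 2 + B 2 1) (r22 := B 2 2) (by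
      rw [← hB]
      simp only [Fin.sum_univ_three, Algebra.smul_def, map_add, map_mul, map_pow, map_ofNat]
      ring)
  obtain ⟨e0, e1, e2, e11, e12, e22⟩ := key
  rw [e11, e12] at e1
  rw [e12, e22] at e2
  have e1' : B 0 1 + B 1 0 = 0 := by linear_combination e1
  have e2' : B 0 2 + B 2 0 = 0 := by linear_combination e2
  rw [e1', e2', e11, e12, e22] at e0
  have e0' : B 0 0 = 0 := by linear_combination e0
  intro i j
  fin_cases i <;> fin_cases j
  · change B 0 0 + B 0 0 = 0
    rw [e0', add_zero]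
  · exact e1'
  · exact e2'
  · change B 1 0 + B 0 1 = 0
    rw [add_comm]; exact e1'
  · change B 1 1 + B 1 1 = 0
    rw [e11, add_zero]
  · exact e12
  · change B 2 0 + B 0 2 = 0
    rw [add_comm]; exact e2'
  · change B 2 1 + B 1 2 = 0
    rw [add_comm]; exact e12
  · change B 2 2 + B 2 2 = 0
    rw [e22, add_zero]

theorem GG3.perm {L : LineBundle K} {c : Fin 3 → K} (h : GG3 L c) (σ : Equiv.Perm (Fin 3)) :
    GG3 L (c ∘ σ) where
  mem i := h.mem _
  span f hf := by
    obtain ⟨a, rfl⟩ := h.span f hf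
    refine ⟨a ∘ σ, ?_⟩
    exact (Equiv.sum_comp σ (fun i => a i • c i)).symm
  indep a ha := by
    have h1 := h.indep (a ∘ σ.symm) (by
      rw [← Equiv.sum_comp σ]
      rw [← ha]
      refine Finset.sum_congr rfl fun i _ => ?_
      simp)
    funext i
    have := congrFun h1 (σ i)
    simpa using this
  gen v := by
    obtain ⟨i, hi⟩ := h.gen v
    exact ⟨σ.symm i, by simpa using hi⟩

/-- no conics -/
theorem no_conic (hK : IsCurve K) (hg : genus K ≠ 0) (hs : SmallH0 K) {L : LineBundle K}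
    {c : Fin 3 → K} (h : GG3 L c) (hd : L.degree ≤ 5) (B : Fin 3 → Fin 3 → ℂ)
    (hB : ∑ i, ∑ j, B i j • (c i * c j) = 0) : ∀ i j, B i j + B j i = 0 := by
  obtain ⟨v⟩ := point_nonempty hK
  obtain ⟨i0, hi0⟩ := h.gen v
  let σ : Equiv.Perm (Fin 3) := Equiv.swap 0 i0
  have h1 := no_conic_zero hK hg hs (h.perm σ) hd (v := v) (by
    change v.val (c (Equiv.swap 0 i0 0)) = _
    rw [Equiv.swap_apply_left]
    exact hi0) (fun i j => B (σ i) (σ j)) (by
      rw [← hB]
      rw [← Equiv.sum_comp σ (fun i => ∑ j, B i j • (c i * c j))]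
      refine Finset.sum_congr rfl fun i _ => ?_
      exact Equiv.sum_comp σ (fun j => B (σ i) j • (c (σ i) * c j)))
  intro i j
  have := h1 (σ.symm i) (σ.symm j)
  simpa using this

/-- homomorphisms from the kernel bundle to `𝒪` are constant combinations of the coordinates -/
theorem hom_const (hK : IsCurve K) (hg : genus K ≠ 0) (hs : SmallH0 K) {L : LineBundle K}
    {c : Fin 3 → K} (h : GG3 L c) (hd : L.degree ≤ 5) (θ : (Fin 3 → K) →ₗ[K] K)
    (hθ : ∀ (v : Point K) (t : Fin 3 → K), v.Reg t → ∑ i, c i * t i = 0 → v.val (θ t) ≤ 1) :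
    ∃ C : Fin 3 → ℂ, ∀ t : Fin 3 → K, ∑ i, c i * t i = 0 → θ t = ∑ i, C i • t i := by
  classical
  let e : Fin 3 → K := fun i => θ (Pi.single i 1)
  have hθe : ∀ t : Fin 3 → K, θ t = e 0 * t 0 + e 1 * t 1 + e 2 * t 2 := by
    intro t
    have h1 : t = ∑ i, t i • (Pi.single i 1 : Fin 3 → K) := by
      conv_lhs => rw [← Finset.univ_sum_single t]
      refine Finset.sum_congr rfl fun i _ => ?_
      rw [← Pi.single_smul, smul_eq_mul, mul_one]
    conv_lhs => rw [h1, map_sum]
    rw [Fin.sum_univ_three, map_smul, map_smul, map_smul, smul_eq_mul, smul_eq_mul, smul_eq_mul]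
    change t 0 * e 0 + t 1 * e 1 + t 2 * e 2 = _
    ring
  have hX : ∀ t : Fin 3 → K, (∀ i, t i ∈ H0 L) → ∑ i, c i * t i = 0 → θ t ∈ H0 L := by
    intro t ht hct v
    have h1 := hθ v ((L.frame v : K)⁻¹ • t) (by
      intro i
      rw [Pi.smul_apply, smul_eq_mul, map_mul, map_inv₀, inv_mul_le_iff₀ (frame_pos L v), mul_one]
      exact ht i v) (by
      have : ∑ i, c i * ((L.frame v : K)⁻¹ • t) i = (L.frame v : K)⁻¹ * ∑ i, c i * t i := by
        rw [Finset.mul_sum]
        refine Finset.sum_congr rfl fun i _ => ?_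
        rw [Pi.smul_apply, smul_eq_mul]
        ring
      rw [this, hct, mul_zero])
    rw [map_smul, smul_eq_mul, map_mul, map_inv₀, inv_mul_le_iff₀ (frame_pos L v), mul_one] at h1
    exact h1
  have hc := h.mem
  have hX0 : -(e 1 * c 2) + e 2 * c 1 ∈ H0 L := by
    have := hX ![0, -c 2, c 1] (by
      intro i
      fin_cases i
      · exact zero_mem _
      · exact neg_mem (hc 2)
      · exact hc 1) (by
      rw [Fin.sum_univ_three]
      simp only [Matrix.cons_val_zero, Matrix.cons_val_one, Matrix.cons_val]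
      ring)
    rw [hθe] at this
    simp only [Matrix.cons_val_zero, Matrix.cons_val_one, Matrix.cons_val] at this
    convert this using 1
    ring
  have hX1 : e 0 * c 2 - e 2 * c 0 ∈ H0 L := by
    have := hX ![c 2, 0, -c 0] (by
      intro i
      fin_cases i
      · exact hc 2
      · exact zero_mem _
      · exact neg_mem (hc 0)) (by
      rw [Fin.sum_univ_three]
      simp only [Matrix.cons_val_zero, Matrix.cons_val_one, Matrix.cons_val]
      ring)
    rw [hθe] at this
    simp only [Matrix.cons_val_zero, Matrix.cons_val_one, Matrix.cons_val] at this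
    convert this using 1
    ring
  have hX2 : -(e 0 * c 1) + e 1 * c 0 ∈ H0 L := by
    have := hX ![-c 1, c 0, 0] (by
      intro i
      fin_cases i
      · exact neg_mem (hc 1)
      · exact hc 0
      · exact zero_mem _) (by
      rw [Fin.sum_univ_three]
      simp only [Matrix.cons_val_zero, Matrix.cons_val_one, Matrix.cons_val]
      ring)
    rw [hθe] at this
    simp only [Matrix.cons_val_zero, Matrix.cons_val_one, Matrix.cons_val] at this
    convert this using 1
    ring
  obtain ⟨B0, hB0⟩ := h.span _ hX0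
  obtain ⟨B1, hB1⟩ := h.span _ hX1
  obtain ⟨B2, hB2⟩ := h.span _ hX2
  rw [Fin.sum_univ_three] at hB0 hB1 hB2
  have key := no_conic hK hg hs h hd ![B0, B1, B2] (by
    simp only [Fin.sum_univ_three, Matrix.cons_val_zero, Matrix.cons_val_one, Matrix.cons_val]
    have h1 : c 0 * (-(e 1 * c 2) + e 2 * c 1) + c 1 * (e 0 * c 2 - e 2 * c 0) +
      c 2 * (-(e 0 * c 1) + e 1 * c 0) = 0 := by ring
    rw [hB0, hB1, hB2] at h1
    rw [← h1]
    simp only [Algebra.smul_def]
    ring)
  have k00 := key 0 0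
  have k11 := key 1 1
  have k22 := key 2 2
  have k01 := key 0 1
  have k02 := key 0 2
  have k12 := key 1 2
  simp only [Matrix.cons_val_zero, Matrix.cons_val_one, Matrix.cons_val] at k00 k11 k22 k01 k02 k12
  have l00 : B0 0 = 0 := by linear_combination (1 / 2 : ℂ) * k00
  have l11 : B1 1 = 0 := by linear_combination (1 / 2 : ℂ) * k11
  have l22 : B2 2 = 0 := by linear_combination (1 / 2 : ℂ) * k22
  have l10 : B1 0 = -B0 1 := by linear_combination k01
  have l20 : B2 0 = -B0 2 := by linear_combination k02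
  have l21 : B2 1 = -B1 2 := by linear_combination k12
  rw [l00] at hB0
  rw [l10, l11] at hB1
  rw [l20, l21, l22] at hB2
  have hc0 : c 0 ≠ 0 := h.ne_zero 0
  refine ⟨![B1 2, -B0 2, B0 1], fun t ht => ?_⟩
  rw [hθe, Fin.sum_univ_three]
  rw [Fin.sum_univ_three] at ht
  simp only [Matrix.cons_val_zero, Matrix.cons_val_one, Matrix.cons_val]
  simp only [Algebra.smul_def, map_neg, map_zero, zero_mul, zero_add, add_zero] at hB0 hB1 hB2 ⊢
  set β0 := algebraMap ℂ K (B1 2)
  set β1 := algebraMap ℂ K (B0 2)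
  set β2 := algebraMap ℂ K (B0 1)
  have hw : c 0 * (e 0 * t 0 + e 1 * t 1 + e 2 * t 2 - (β0 * t 0 + -β1 * t 1 + β2 * t 2)) = 0 := by
    linear_combination (e 0 - β0) * ht + t 1 * hB2 - t 2 * hB1
  have := (mul_eq_zero.1 hw).resolve_left hc0
  exact sub_eq_zero.1 this

end Pool.Agent.Helper395.BC
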