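import Pool.Agent.Helper395.BC.Defs

/-!
# Butler's conjecture: the moduli space of stable bundles as a topological space

The moduli space `M(C, n, d)` of stable vector bundles of rank `n` and degree `d` is a coarse moduli
space, and locally in the étale topology it carries a universal family. Hence the Zariski topology on
the set of its closed points, i.e. on the set of isomorphism classes of stable bundles, is the finest
topology for which all algebraic families of stable bundles, parametrised by affine varieties,
induce continuous maps. We take this as the definition of the topology.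

Locally on the base `B`, a vector bundle on `C × B` is the image of a homomorphism from `N` copies of
(the pull-back of) a line bundle `P` on `C` to a generically trivial bundle, given by a matrix with
entries in `K ⊗ ℂ[B]`; conversely, such a homomorphism defines a vector bundle on `C × B` if `B` is
reduced and the images at the closed points `b ∈ B` have constant rank and degree. This is used in the
definition of algebraic families.
-/

open scoped WithZero Matrix

namespace Pool.Agent.Helper395.BC

open Pool.Agent.Helper395.CS

/-- Zariski open subsets of the set of closed points `A →ₐ[ℂ] ℂ` of the affine variety with coordinate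
ring `A`. -/
def IsZariskiOpen {A : Type} [CommRing A] [Algebra ℂ A] (U : Set (A →ₐ[ℂ] ℂ)) : Prop :=
  ∀ b ∈ U, ∃ f : A, b f ≠ 0 ∧ ∀ b' : A →ₐ[ℂ] ℂ, b' f ≠ 0 → b' ∈ U

variable (K : Type) [Field K] [Algebra ℂ K] (n : ℕ) (d : ℤ)

variable {K n} in
/-- `(E_b)` is an algebraic family of vector bundles of rank `n`, parametrised by the affine variety
with coordinate ring `A`: there are a line bundle `P` and vectors
`G_i = ∑ l, f_l ⊗ G_{i l} ∈ A ⊗ K ^ n` such that `E_b` is isomorphic to the bundle with the stalks
`∑ i, P_v • G_i(b)`. -/
def IsAlgebraicFamily {A : Type} [CommRing A] [Algebra ℂ A] (E : (A →ₐ[ℂ] ℂ) → Bundle K n) : Prop :=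
  ∃ (P : LineBundle K) (N k : ℕ) (f : Fin k → A) (G : Fin N → Fin k → Fin n → K),
    ∀ b : A →ₐ[ℂ] ℂ, ∃ g : GL (Fin n) K, ∀ (v : Point K) (s : Fin n → K),
      s ∈ (E b).stalk v ↔ ∃ t : Fin N → K, (∀ i, t i ∈ P.stalk v) ∧
        g.1 *ᵥ s = ∑ i, t i • ∑ l, b (f l) • G i l

/-- the stable bundles of rank `n` and degree `d` -/
def StableBundle : Type := {E : Bundle K n // IsStable E ∧ E.degree = d}

/-- isomorphism of stable bundles -/
def stableSetoid : Setoid (StableBundle K n d) where
  r E F := ∃ A : GL (Fin n) K, IsBundleIso E.1 F.1 A
  iseqv :=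
    { refl := fun E => ⟨1, fun v s => by rw [Units.val_one, Matrix.one_mulVec]⟩
      symm := by
        rintro E F ⟨A, hA⟩
        refine ⟨A⁻¹, fun v s => ?_⟩
        rw [hA, Matrix.mulVec_mulVec, ← Units.val_mul, mul_inv_cancel, Units.val_one,
          Matrix.one_mulVec]
      trans := by
        rintro E F G ⟨A, hA⟩ ⟨B, hB⟩
        refine ⟨B * A, fun v s => ?_⟩
        rw [hA, hB, Matrix.mulVec_mulVec, ← Units.val_mul] }

/-- the set of closed points of `M(C, n, d)`: the isomorphism classes of stable bundles of rank `n` and
degree `d` -/
def Moduli : Type := Quotient (stableSetoid K n d)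

variable {K n d} in
/-- the point of the moduli space defined by a stable bundle -/
def StableBundle.point (E : StableBundle K n d) : Moduli K n d := Quotient.mk _ E

/-- The Zariski topology on `M(C, n, d)`: a set is open if its preimages under the maps defined by
algebraic families of stable bundles over affine varieties are Zariski open. -/
instance moduliTopology : TopologicalSpace (Moduli K n d) where
  IsOpen U := ∀ (A : Type) [CommRing A] [Algebra ℂ A] [Algebra.FiniteType ℂ A]
    (E : (A →ₐ[ℂ] ℂ) → StableBundle K n d), IsAlgebraicFamily (fun b => (E b).1) →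
      IsZariskiOpen {b | (E b).point ∈ U}
  isOpen_univ := by
    intro A _ _ _ E _ b _
    exact ⟨1, by rw [map_one]; exact one_ne_zero, fun _ _ => trivial⟩
  isOpen_inter := by
    intro U V hU hV A _ _ _ E hE b hb
    obtain ⟨f, hf, hf'⟩ := hU A E hE b hb.1
    obtain ⟨g, hg, hg'⟩ := hV A E hE b hb.2
    refine ⟨f * g, by rw [map_mul]; exact mul_ne_zero hf hg, fun b' hb' => ?_⟩
    rw [map_mul] at hb'
    exact ⟨hf' b' (left_ne_zero_of_mul hb'), hg' b' (right_ne_zero_of_mul hb')⟩
  isOpen_sUnion := by
    intro S hS A _ _ _ E hE b hb
    obtain ⟨U, hUS, hbU⟩ := hb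
    obtain ⟨f, hf, hf'⟩ := hS U hUS A E hE b hbU
    exact ⟨f, hf, fun b' hb' => ⟨U, hUS, hf' b' hb'⟩⟩

/-- The Brill-Noether locus `W^{k-1}_{n,d}(C)` of all stable bundles `E` with `h⁰(E) ≥ k`, a subset of
the moduli space. -/
def brillNoetherLocus (k : ℕ) : Set (Moduli K n d) :=
  {x | ∃ E : StableBundle K n d, E.point = x ∧ k ≤ Module.finrank ℂ E.1.sections}

end Pool.Agent.Helper395.BC
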