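import Pool.Agent.Helper395.BC.Open

open scoped WithZero Matrix IntermediateField
open WithZero

set_option linter.unusedSectionVars false
set_option linter.unusedVariables false

namespace Pool.Agent.Helper395.BC

open Pool.Agent.Helper395.CS

variable {K : Type} [Field K] [Algebra ℂ K] {n m q k : ℕ}

/-- an invertible matrix as a `ℂ`-linear automorphism -/
def glEquiv (g : GL (Fin n) K) : (Fin n → K) ≃ₗ[ℂ] (Fin n → K) where
  toFun s := g.1 *ᵥ s
  invFun s := g⁻¹.1 *ᵥ s
  left_inv s := gl_inv_mulVec g s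
  right_inv s := gl_mulVec_inv g s
  map_add' s t := Matrix.mulVec_add _ _ _
  map_smul' c s := Matrix.mulVec_smul _ _ _

/-- transport of structure -/
noncomputable def btrans (hK : IsCurve K) (g : GL (Fin n) K) (E : Bundle K n) : Bundle K n where
  frame v := g * E.frame v
  finite := by
    refine (E.finite.union ((finite_not_regM hK g.1).union (finite_not_regM hK g⁻¹.1))).subset
      fun v hv => ?_
    by_contra hcon
    simp only [Set.mem_union, Set.mem_ofPred_eq, not_or, not_not] at hcon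
    obtain ⟨⟨a1, a2⟩, ⟨b1, b2⟩⟩ := hcon
    apply hv
    constructor
    · rw [Units.val_mul]
      exact Point.RegM.mul (M := g.1) b1 a1
    · rw [mul_inv_rev, Units.val_mul]
      exact Point.RegM.mul (M := (E.frame v)⁻¹.1) a2 b2

theorem mem_btrans (hK : IsCurve K) (g : GL (Fin n) K) (E : Bundle K n) (v : Point K)
    (s : Fin n → K) : s ∈ (btrans hK g E).stalk v ↔ g⁻¹.1 *ᵥ s ∈ E.stalk v := by
  rw [mem_stalk_iff, mem_stalk_iff]
  change v.Reg ((g * E.frame v)⁻¹.1 *ᵥ s) ↔ _
  rw [mul_inv_rev, Units.val_mul, ← Matrix.mulVec_mulVec]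

theorem iso_btrans (hK : IsCurve K) (g : GL (Fin n) K) (E : Bundle K n) :
    IsBundleIso E (btrans hK g E) g := by
  intro v s
  rw [mem_btrans, gl_inv_mulVec]

theorem iso_inv {E F : Bundle K n} {g : GL (Fin n) K} (h : IsBundleIso E F g) :
    IsBundleIso F E g⁻¹ := by
  intro v s
  rw [h, gl_mulVec_inv]

theorem iso_finrank {E F : Bundle K n} {g : GL (Fin n) K} (h : IsBundleIso E F g) :
    Module.finrank ℂ E.sections = Module.finrank ℂ F.sections := by
  have h1 : F.sections = E.sections.map (glEquiv g).toLinearMap := by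
    ext s
    constructor
    · intro hs
      refine ⟨g⁻¹.1 *ᵥ s, fun v => ?_, gl_mulVec_inv g s⟩
      rw [h, gl_mulVec_inv]
      exact hs v
    · rintro ⟨s, hs, rfl⟩ v
      exact (h v s).1 (hs v)
  rw [h1]
  exact (LinearEquiv.finrank_map_eq (glEquiv g) E.sections).symm

theorem iso_generated {E F : Bundle K n} {g : GL (Fin n) K} (h : IsBundleIso E F g)
    (hE : IsGeneratedBy E E.sections) : IsGeneratedBy F F.sections := by
  refine ⟨le_rfl, fun v s hs => ?_⟩
  obtain ⟨l, a, t, ha, ht, hst⟩ := hE.2 v (g⁻¹.1 *ᵥ s) (by rw [h, gl_mulVec_inv]; exact hs)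
  refine ⟨l, a, fun i => g.1 *ᵥ t i, ha, fun i w => (h w _).1 (ht i w), ?_⟩
  rw [← gl_mulVec_inv g s, hst, Matrix.mulVec_sum]
  exact Finset.sum_congr rfl fun i _ => Matrix.mulVec_smul _ _ _

theorem iso_degree (hK : IsCurve K) {E F : Bundle K n} {g : GL (Fin n) K}
    (h : IsBundleIso E F g) : E.degree = F.degree := by
  apply le_antisymm
  · exact (degree_compare hK (A := g) fun v s hs => (h v s).1 hs).1
  · exact (degree_compare hK (A := g⁻¹) fun v s hs => (iso_inv h v s).1 hs).1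

theorem iso_stable (hK : IsCurve K) {E F : Bundle K n} {g : GL (Fin n) K}
    (h : IsBundleIso E F g) (hE : IsStable E) : IsStable F := by
  intro m S j hm0 hmn hS
  rw [← iso_degree hK h]
  refine hE m S (g⁻¹.1.mulVecLin ∘ₗ j) hm0 hmn ⟨?_, fun v s => ?_⟩
  · intro x y hxy
    apply hS.injective
    have h1 : g⁻¹.1 *ᵥ j x = g⁻¹.1 *ᵥ j y := hxy
    rw [← gl_mulVec_inv g (j x), h1, gl_mulVec_inv]
  · rw [hS.stalk]
    exact iso_inv h v (j s)

theorem point_eq_iff {d : ℤ} (E F : StableBundle K n d) :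
    E.point = F.point ↔ ∃ g : GL (Fin n) K, IsBundleIso E.1 F.1 g :=
  Quotient.eq (r := stableSetoid K n d)

/-- the conditions `h⁰ ≤ k`, and global generation if `h⁰ = k`, define an open set -/
theorem isOpen_good (hK : IsCurve K) (hg : genus K ≠ 0) (hn : 2 ≤ n) {d : ℤ} (hd : 0 < d)
    (k : ℕ) : IsOpen {x : Moduli K n d | ∀ E : StableBundle K n d, E.point = x →
      Module.finrank ℂ E.1.sections ≤ k ∧
      (Module.finrank ℂ E.1.sections = k → IsGeneratedBy E.1 E.1.sections)} := by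
  intro A _ _ _ E hE b0 hb0
  obtain ⟨P, N, p, f, G, hfam⟩ := hE
  choose g hg' using hfam
  obtain ⟨φ, hφ, hφ'⟩ := open_core hK hg hn hd (E := fun b => btrans hK (g b) (E b).1)
    (fun b => iso_stable hK (iso_btrans hK (g b) (E b).1) (E b).2.1)
    (fun b => by
      rw [← iso_degree hK (iso_btrans hK (g b) (E b).1)]
      exact (E b).2.2) P N p f G (fun b v s => by
      rw [mem_btrans, hg', gl_mulVec_inv]) b0
  obtain ⟨h1, h2⟩ := hb0 (E b0) rfl
  refine ⟨φ, hφ, fun b hb F hF => ?_⟩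
  obtain ⟨h3, h4⟩ := hφ' b hb
  rw [← iso_finrank (iso_btrans hK (g b) (E b).1), ← iso_finrank (iso_btrans hK (g b0) (E b0).1)]
    at h3 h4
  obtain ⟨γ, hγ⟩ := (point_eq_iff F (E b)).1 hF
  rw [iso_finrank hγ]
  refine ⟨h3.trans h1, fun h5 => ?_⟩
  have h6 : Module.finrank ℂ (E b0).1.sections = k := le_antisymm h1 (h5 ▸ h3)
  have h7 := h4 (h5.trans h6.symm) (iso_generated (iso_btrans hK (g b0) (E b0).1) (h2 h6))
  exact iso_generated (iso_inv hγ) (iso_generated (iso_inv (iso_btrans hK (g b) (E b).1)) h7)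

/-- the existence of a good component -/
theorem exists_component (hK : IsCurve K) (hg : genus K ≠ 0) (hn : 2 ≤ n) {d : ℤ} (hd : 0 < d)
    (k : ℕ) (E : StableBundle K n d) (hE : Module.finrank ℂ E.1.sections = k)
    (hgen : IsGeneratedBy E.1 E.1.sections) :
    ∃ W ∈ irreducibleComponents (brillNoetherLocus K n d k),
      ∃ U : Set (brillNoetherLocus K n d k), IsOpen U ∧ (U ∩ W).Nonempty ∧ ∀ x ∈ U ∩ W,
        ∀ F : StableBundle K n d, F.point = x.1 →
          IsGeneratedBy F.1 F.1.sections ∧ Module.finrank ℂ F.1.sections = k := by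
  let x0 : brillNoetherLocus K n d k := ⟨E.point, E, rfl, hE.ge⟩
  refine ⟨irreducibleComponent x0, irreducibleComponent_mem_irreducibleComponents x0,
    (fun x : brillNoetherLocus K n d k => x.1) ⁻¹' {x : Moduli K n d |
      ∀ E : StableBundle K n d, E.point = x → Module.finrank ℂ E.1.sections ≤ k ∧
      (Module.finrank ℂ E.1.sections = k → IsGeneratedBy E.1 E.1.sections)},
    (isOpen_good hK hg hn hd k).preimage continuous_subtype_val, ⟨x0, ?_, ?_⟩, ?_⟩
  · intro F hF
    obtain ⟨γ, hγ⟩ := (point_eq_iff F E).1 hF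
    rw [iso_finrank hγ, hE]
    exact ⟨le_rfl, fun _ => iso_generated (iso_inv hγ) hgen⟩
  · exact mem_irreducibleComponent
  · rintro ⟨x, E', hE', hk⟩ ⟨hx, -⟩ F hF
    obtain ⟨h1, h2⟩ := hx F hF
    obtain ⟨γ, hγ⟩ := (point_eq_iff F E').1 (hF.trans hE'.symm)
    rw [← iso_finrank hγ] at hk
    have h3 := le_antisymm h1 hk
    exact ⟨h2 h3, h3⟩

end Pool.Agent.Helper395.BC
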