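import Pool.Agent.Helper395.BC.ModDefs

set_option linter.unusedSectionVars false
set_option linter.unusedVariables false

namespace Pool.Agent.Helper395.BC

section

variable {A : Type} [CommRing A] [Algebra ℂ A]
variable {X Y Z X' Y' : Type*} [AddCommGroup X] [Module ℂ X] [AddCommGroup Y] [Module ℂ Y]
  [AddCommGroup Z] [Module ℂ Z] [AddCommGroup X'] [Module ℂ X'] [AddCommGroup Y'] [Module ℂ Y']

/-- algebraic families of linear maps -/
def IsAlgFam (L : (A →ₐ[ℂ] ℂ) → X →ₗ[ℂ] Y) : Prop :=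
  ∃ (k : ℕ) (f : Fin k → A) (M : Fin k → X →ₗ[ℂ] Y), ∀ b, L b = ∑ l, b (f l) • M l

theorem IsAlgFam.comp {L : (A →ₐ[ℂ] ℂ) → X →ₗ[ℂ] Y} (h : IsAlgFam L)
    (Φ : (X →ₗ[ℂ] Y) →ₗ[ℂ] (X' →ₗ[ℂ] Y')) : IsAlgFam fun b => Φ (L b) := by
  obtain ⟨k, f, M, hM⟩ := h
  refine ⟨k, f, fun l => Φ (M l), fun b => ?_⟩
  change Φ (L b) = _
  rw [hM, map_sum]
  exact Finset.sum_congr rfl fun l _ => map_smul _ _ _

/-- the rank is lower semicontinuous -/
theorem IsAlgFam.rank_lower [FiniteDimensional ℂ X] {L : (A →ₐ[ℂ] ℂ) → X →ₗ[ℂ] Y}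
    (h : IsAlgFam L) (b0 : A →ₐ[ℂ] ℂ) : ∃ f : A, b0 f ≠ 0 ∧ ∀ b : A →ₐ[ℂ] ℂ, b f ≠ 0 →
      Module.finrank ℂ (LinearMap.range (L b0)) ≤ Module.finrank ℂ (LinearMap.range (L b)) := by
  classical
  obtain ⟨k, f, M, hM⟩ := h
  set r := Module.finrank ℂ (LinearMap.range (L b0)) with hr
  let β : Module.Basis (Fin r) ℂ (LinearMap.range (L b0)) := Module.finBasisOfFinrankEq ℂ _ hr.symm
  choose x hx using fun i => (β i).2
  -- dual functionals
  let Φ : (Fin r → ℂ) →ₗ[ℂ] Y := (LinearMap.range (L b0)).subtype ∘ₗ β.equivFun.symm.toLinearMap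
  have hΦ : Function.Injective Φ := (Submodule.injective_subtype _).comp β.equivFun.symm.injective
  have hΦs : ∀ i, Φ (Pi.single i 1) = L b0 (x i) := by
    intro i
    rw [hx]
    change ((β.equivFun.symm (Pi.single i 1) : LinearMap.range (L b0)) : Y) = _
    rw [Module.Basis.equivFun_symm_apply, Finset.sum_eq_single i]
    · rw [Pi.single_eq_same, one_smul]
    · intro j _ hj
      rw [Pi.single_eq_of_ne hj, zero_smul]
    · simp
  obtain ⟨g, hg⟩ := Φ.exists_leftInverse_of_injective (LinearMap.ker_eq_bot.2 hΦ)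
  have hg' : ∀ c, g (Φ c) = c := fun c => LinearMap.congr_fun hg c
  let Q : Matrix (Fin r) (Fin r) A := fun i p => ∑ l, algebraMap ℂ A (g (M l (x p)) i) * f l
  have hQ : ∀ b : A →ₐ[ℂ] ℂ, b Q.det = (Matrix.of fun i p => g (L b (x p)) i).det := by
    intro b
    rw [AlgHom.map_det]
    congr 1
    ext i p
    change b (∑ l, algebraMap ℂ A (g (M l (x p)) i) * f l) = g (L b (x p)) i
    rw [map_sum, hM, LinearMap.sum_apply, map_sum, Finset.sum_apply]
    refine Finset.sum_congr rfl fun l _ => ?_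
    rw [map_mul, AlgHom.commutes, LinearMap.smul_apply, map_smul, Pi.smul_apply, smul_eq_mul,
      mul_comm]
    rfl
  refine ⟨Q.det, ?_, fun b hb => ?_⟩
  · rw [hQ]
    have : (Matrix.of fun i p => g (L b0 (x p)) i) = (1 : Matrix (Fin r) (Fin r) ℂ) := by
      ext i p
      rw [Matrix.of_apply, ← hΦs, hg', Matrix.one_apply, Pi.single_apply]
    rw [this, Matrix.det_one]
    exact one_ne_zero
  · rw [hQ] at hb
    have hli : LinearIndependent ℂ (fun p => (⟨L b (x p), LinearMap.mem_range_self _ _⟩ :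
        LinearMap.range (L b))) := by
      rw [Fintype.linearIndependent_iff]
      intro c hc i
      have h1 : ∑ p, c p • L b (x p) = 0 := by
        have := congrArg Subtype.val hc
        rw [AddSubmonoidClass.coe_finsetSum] at this
        exact this
      have h2 : (Matrix.of fun i p => g (L b (x p)) i).mulVec c = 0 := by
        funext i
        have h3 := congrFun (congrArg g h1) i
        rw [map_sum, map_zero, Finset.sum_apply] at h3
        rw [Matrix.mulVec, dotProduct]
        refine Eq.trans (Finset.sum_congr rfl fun p _ => ?_) h3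
        rw [map_smul, Pi.smul_apply, smul_eq_mul, mul_comm, Matrix.of_apply]
      have h4 := Matrix.eq_zero_of_mulVec_eq_zero hb h2
      exact congrFun h4 i
    have := hli.fintype_card_le_finrank
    rwa [Fintype.card_fin] at this

end

section

variable {X Y Z : Type*} [AddCommGroup X] [Module ℂ X] [AddCommGroup Y] [Module ℂ Y]
  [AddCommGroup Z] [Module ℂ Z]

/-- dimension of a power of a subspace -/
theorem finrank_pi_sub (U : Submodule ℂ X) (M : ℕ) [FiniteDimensional ℂ U] :
    Module.finrank ℂ (Submodule.pi (Set.univ : Set (Fin M)) fun _ => U) =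
      M * Module.finrank ℂ U := by
  let e : (Submodule.pi (Set.univ : Set (Fin M)) fun _ => U) ≃ₗ[ℂ] (Fin M → U) :=
    { toFun := fun t m => ⟨t.1 m, t.2 m trivial⟩
      invFun := fun s => ⟨fun m => s m, fun m _ => (s m).2⟩
      left_inv := fun t => rfl
      right_inv := fun s => rfl
      map_add' := fun s t => rfl
      map_smul' := fun c s => rfl }
  rw [e.finrank_eq, Module.finrank_pi_fintype]
  simp

/-- the rank of a pair of maps -/
theorem rank_prod [FiniteDimensional ℂ X] (L : X →ₗ[ℂ] Y) (ψ : X →ₗ[ℂ] Z) :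
    Module.finrank ℂ (LinearMap.range (L.prod ψ)) = Module.finrank ℂ (LinearMap.range L) +
      Module.finrank ℂ ((LinearMap.ker L).map ψ) := by
  have h1 := LinearMap.finrank_range_add_finrank_ker (L.prod ψ)
  have h2 := LinearMap.finrank_range_add_finrank_ker L
  have h3 := LinearMap.finrank_range_add_finrank_ker (ψ.domRestrict (LinearMap.ker L))
  have h4 : LinearMap.range (ψ.domRestrict (LinearMap.ker L)) = (LinearMap.ker L).map ψ := by
    ext z
    constructor
    · rintro ⟨⟨x, hx⟩, rfl⟩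
      exact ⟨x, hx, rfl⟩
    · rintro ⟨x, hx, rfl⟩
      exact ⟨⟨x, hx⟩, rfl⟩
  have h5 : Module.finrank ℂ (LinearMap.ker (ψ.domRestrict (LinearMap.ker L))) =
      Module.finrank ℂ (LinearMap.ker (L.prod ψ)) := by
    let e : LinearMap.ker (ψ.domRestrict (LinearMap.ker L)) ≃ₗ[ℂ] LinearMap.ker (L.prod ψ) :=
      { toFun := fun x => ⟨x.1.1, by
          rw [LinearMap.ker_prod]
          exact ⟨x.1.2, x.2⟩⟩
        invFun := fun x => ⟨⟨x.1, ((LinearMap.ker_prod L ψ).le x.2).1⟩,
          ((LinearMap.ker_prod L ψ).le x.2).2⟩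
        left_inv := fun x => rfl
        right_inv := fun x => rfl
        map_add' := fun x y => rfl
        map_smul' := fun c x => rfl }
    exact e.finrank_eq
  rw [h4, h5] at h3
  omega

end

end Pool.Agent.Helper395.BC
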