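import Pool.Agent.Helper395.BC.Twist
import Pool.Agent.Helper395.BC.Semi

open scoped WithZero Matrix IntermediateField
open WithZero

set_option linter.unusedSectionVars false
set_option linter.unusedVariables false

namespace Pool.Agent.Helper395.BC

open Pool.Agent.Helper395.CS

variable {K : Type} [Field K] [Algebra ℂ K] {n m q k : ℕ}

section LA

variable {D : Type} [AddCommGroup D] [Module ℂ D] {M : ℕ}

/-- the equations for sections of `E`, in terms of sections of `E ⊗ R` -/
def Phi1 (ρ : Fin M → K) (i0 : Fin M) : (D →ₗ[ℂ] (Fin n → K)) →ₗ[ℂ]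
    ((Fin M → D) →ₗ[ℂ] (Fin M → Fin n → K)) where
  toFun μ :=
    { toFun := fun t m => ρ m • μ (t i0) - ρ i0 • μ (t m)
      map_add' := fun s t => by
        funext m
        simp only [Pi.add_apply, map_add, smul_add]
        abel
      map_smul' := fun c t => by
        funext m
        simp only [Pi.smul_apply, map_smul, RingHom.id_apply, smul_sub]
        rw [smul_comm c, smul_comm c] }
  map_add' μ ν := by
    refine LinearMap.ext fun t => ?_
    funext m
    change ρ m • (μ (t i0) + ν (t i0)) - ρ i0 • (μ (t m) + ν (t m)) =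
      (ρ m • μ (t i0) - ρ i0 • μ (t m)) + (ρ m • ν (t i0) - ρ i0 • ν (t m))
    rw [smul_add, smul_add]
    abel
  map_smul' c μ := by
    refine LinearMap.ext fun t => ?_
    funext m
    change ρ m • c • μ (t i0) - ρ i0 • c • μ (t m) = c • (ρ m • μ (t i0) - ρ i0 • μ (t m))
    rw [smul_sub, smul_comm c, smul_comm c]

theorem Phi1_apply (ρ : Fin M → K) (i0 : Fin M) (μ : D →ₗ[ℂ] (Fin n → K)) (t : Fin M → D)
    (m : Fin M) : Phi1 ρ i0 μ t m = ρ m • μ (t i0) - ρ i0 • μ (t m) := rfl

/-- the products -/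
def psi (ρ : Fin M → K) (i0 : Fin M) (μ : D →ₗ[ℂ] (Fin n → K)) :
    (Fin M → Fin M → D) →ₗ[ℂ] (Fin n → K) where
  toFun T := ∑ m, ρ m • μ (T m i0)
  map_add' S T := by
    rw [← Finset.sum_add_distrib]
    exact Finset.sum_congr rfl fun m _ => by
      rw [← smul_add, ← map_add]; rfl
  map_smul' c T := by
    rw [RingHom.id_apply, Finset.smul_sum]
    refine Finset.sum_congr rfl fun m _ => ?_
    change ρ m • μ (c • T m i0) = c • ρ m • μ (T m i0)
    rw [map_smul, smul_comm]

/-- both sets of equations -/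
def Phi2 (ρ : Fin M → K) (i0 : Fin M) : (D →ₗ[ℂ] (Fin n → K)) →ₗ[ℂ]
    ((Fin M → Fin M → D) →ₗ[ℂ] ((Fin M → Fin M → Fin n → K) × (Fin n → K))) where
  toFun μ := ((Phi1 ρ i0 μ).compLeft (Fin M)).prod (psi ρ i0 μ)
  map_add' μ ν := by
    refine LinearMap.ext fun T => ?_
    refine Prod.ext ?_ ?_
    · funext m
      change Phi1 ρ i0 (μ + ν) (T m) = Phi1 ρ i0 μ (T m) + Phi1 ρ i0 ν (T m)
      rw [map_add]
      rfl
    · change ∑ m, ρ m • (μ (T m i0) + ν (T m i0)) = ∑ m, ρ m • μ (T m i0) + ∑ m, ρ m • ν (T m i0)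
      rw [← Finset.sum_add_distrib]
      exact Finset.sum_congr rfl fun m _ => smul_add _ _ _
  map_smul' c μ := by
    refine LinearMap.ext fun T => ?_
    refine Prod.ext ?_ ?_
    · funext m
      change Phi1 ρ i0 (c • μ) (T m) = c • Phi1 ρ i0 μ (T m)
      rw [map_smul]
      rfl
    · change ∑ m, ρ m • c • μ (T m i0) = c • ∑ m, ρ m • μ (T m i0)
      rw [Finset.smul_sum]
      exact Finset.sum_congr rfl fun m _ => smul_comm _ _ _

/-- the space spanned by the products `ρ s` -/
def prodSpace (ρ : Fin M → K) (H : Submodule ℂ (Fin n → K)) : Submodule ℂ (Fin n → K) where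
  carrier := {x | ∃ s : Fin M → Fin n → K, (∀ m, s m ∈ H) ∧ x = ∑ m, ρ m • s m}
  add_mem' := by
    rintro _ _ ⟨s, hs, rfl⟩ ⟨t, ht, rfl⟩
    refine ⟨s + t, fun m => add_mem (hs m) (ht m), ?_⟩
    rw [← Finset.sum_add_distrib]
    exact Finset.sum_congr rfl fun m _ => (smul_add _ _ _).symm
  zero_mem' := ⟨0, fun m => zero_mem _, by simp⟩
  smul_mem' := by
    rintro c _ ⟨s, hs, rfl⟩
    refine ⟨c • s, fun m => Submodule.smul_mem _ _ (hs m), ?_⟩
    rw [Finset.smul_sum]
    exact Finset.sum_congr rfl fun m _ => (smul_comm _ _ _)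

theorem finrank_ker_Phi1 [FiniteDimensional ℂ D] {ρ : Fin M → K} {i0 : Fin M} (h0 : ρ i0 ≠ 0)
    {μ : D →ₗ[ℂ] (Fin n → K)} {H : Submodule ℂ (Fin n → K)}
    (hH : ∀ s, s ∈ H ↔ ∀ m, ρ m • s ∈ LinearMap.range μ) :
    Module.finrank ℂ (LinearMap.ker (Phi1 ρ i0 μ)) =
      Module.finrank ℂ H + M * Module.finrank ℂ (LinearMap.ker μ) := by
  let π0 : (Fin M → D) →ₗ[ℂ] (Fin n → K) :=
    { toFun := fun t => (ρ i0)⁻¹ • μ (t i0)
      map_add' := fun s t => by rw [Pi.add_apply, map_add, smul_add]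
      map_smul' := fun c t => by
        rw [Pi.smul_apply, map_smul, RingHom.id_apply, smul_comm] }
  let π := π0.domRestrict (LinearMap.ker (Phi1 ρ i0 μ))
  have h1 := LinearMap.finrank_range_add_finrank_ker π
  have hker : ∀ t : Fin M → D, t ∈ LinearMap.ker (Phi1 ρ i0 μ) ↔
      ∀ m, ρ m • μ (t i0) = ρ i0 • μ (t m) := by
    intro t
    rw [LinearMap.mem_ker]
    constructor
    · intro h m
      have := congrFun h m
      rw [Phi1_apply] at this
      exact sub_eq_zero.1 this
    · intro h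
      funext m
      rw [Phi1_apply, h m, sub_self]
      rfl
  have hrange : LinearMap.range π = H := by
    ext s
    constructor
    · rintro ⟨⟨t, ht⟩, rfl⟩
      rw [hH]
      intro m
      refine ⟨t m, ?_⟩
      change μ (t m) = ρ m • (ρ i0)⁻¹ • μ (t i0)
      rw [smul_comm, (hker t).1 ht m, smul_smul, inv_mul_cancel₀ h0, one_smul]
    · intro hs
      rw [hH] at hs
      choose t ht using hs
      refine ⟨⟨t, ?_⟩, ?_⟩
      · rw [hker]
        intro m
        rw [ht, ht, smul_comm]
      · change (ρ i0)⁻¹ • μ (t i0) = s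
        rw [ht, smul_smul, inv_mul_cancel₀ h0, one_smul]
  have hk : Module.finrank ℂ (LinearMap.ker π) = M * Module.finrank ℂ (LinearMap.ker μ) := by
    rw [← finrank_pi_sub (LinearMap.ker μ) M]
    have hmem : ∀ t : Fin M → D, (∀ m, μ (t m) = 0) → t ∈ LinearMap.ker (Phi1 ρ i0 μ) := by
      intro t ht
      rw [hker]
      intro m
      rw [ht, ht, smul_zero, smul_zero]
    let e : LinearMap.ker π ≃ₗ[ℂ] (Submodule.pi (Set.univ : Set (Fin M))
        fun _ => LinearMap.ker μ) :=
      { toFun := fun t => ⟨t.1.1, fun m _ => by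
          have h2 : (ρ i0)⁻¹ • μ (t.1.1 i0) = 0 := t.2
          have h3 : μ (t.1.1 i0) = 0 :=
            (smul_eq_zero.1 h2).resolve_left (inv_ne_zero h0)
          have h4 := (hker t.1.1).1 t.1.2 m
          rw [h3, smul_zero] at h4
          exact (smul_eq_zero.1 h4.symm).resolve_left h0⟩
        invFun := fun t => ⟨⟨t.1, hmem t.1 fun m => t.2 m trivial⟩, by
          change (ρ i0)⁻¹ • μ (t.1 i0) = 0
          have : μ (t.1 i0) = 0 := t.2 i0 trivial
          rw [this, smul_zero]⟩
        left_inv := fun t => rfl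
        right_inv := fun t => rfl
        map_add' := fun s t => rfl
        map_smul' := fun c t => rfl }
    exact e.finrank_eq
  rw [hrange, hk] at h1
  omega

theorem finrank_map_psi [FiniteDimensional ℂ D] {ρ : Fin M → K} {i0 : Fin M} (h0 : ρ i0 ≠ 0)
    {μ : D →ₗ[ℂ] (Fin n → K)} {H : Submodule ℂ (Fin n → K)}
    (hH : ∀ s, s ∈ H ↔ ∀ m, ρ m • s ∈ LinearMap.range μ) :
    Module.finrank ℂ ((LinearMap.ker ((Phi1 ρ i0 μ).compLeft (Fin M))).map (psi ρ i0 μ)) =
      Module.finrank ℂ (prodSpace ρ H) := by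
  let e : (Fin n → K) ≃ₗ[ℂ] (Fin n → K) :=
    { toFun := fun x => ρ i0 • x
      invFun := fun x => (ρ i0)⁻¹ • x
      left_inv := fun x => by
        change (ρ i0)⁻¹ • ρ i0 • x = x
        rw [smul_smul, inv_mul_cancel₀ h0, one_smul]
      right_inv := fun x => by
        change ρ i0 • (ρ i0)⁻¹ • x = x
        rw [smul_smul, mul_inv_cancel₀ h0, one_smul]
      map_add' := fun x y => smul_add _ _ _
      map_smul' := fun c x => smul_comm _ _ _ }
  have hker : ∀ t : Fin M → D, t ∈ LinearMap.ker (Phi1 ρ i0 μ) ↔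
      ∀ m, ρ m • μ (t i0) = ρ i0 • μ (t m) := by
    intro t
    rw [LinearMap.mem_ker]
    constructor
    · intro h m
      have := congrFun h m
      rw [Phi1_apply] at this
      exact sub_eq_zero.1 this
    · intro h
      funext m
      rw [Phi1_apply, h m, sub_self]
      rfl
  have h1 : (LinearMap.ker ((Phi1 ρ i0 μ).compLeft (Fin M))).map (psi ρ i0 μ) =
      (prodSpace ρ H).map e.toLinearMap := by
    ext x
    constructor
    · rintro ⟨T, hT, rfl⟩
      have hT' : ∀ m, T m ∈ LinearMap.ker (Phi1 ρ i0 μ) := fun m => congrFun hT m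
      refine ⟨∑ m, ρ m • (ρ i0)⁻¹ • μ (T m i0), ⟨fun m => (ρ i0)⁻¹ • μ (T m i0), fun m => ?_,
        rfl⟩, ?_⟩
      · rw [hH]
        intro m'
        refine ⟨T m m', ?_⟩
        rw [smul_comm, (hker (T m)).1 (hT' m) m', smul_smul, inv_mul_cancel₀ h0, one_smul]
      · change ρ i0 • ∑ m, ρ m • (ρ i0)⁻¹ • μ (T m i0) = ∑ m, ρ m • μ (T m i0)
        rw [Finset.smul_sum]
        refine Finset.sum_congr rfl fun m _ => ?_
        rw [smul_comm (ρ m), smul_smul (ρ i0), mul_inv_cancel₀ h0, one_smul]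
    · rintro ⟨_, ⟨s, hs, rfl⟩, rfl⟩
      choose T hT using fun m m' => (hH (s m)).1 (hs m) m'
      refine ⟨T, ?_, ?_⟩
      · change _ ∈ LinearMap.ker _
        rw [LinearMap.mem_ker]
        funext m
        change Phi1 ρ i0 μ (T m) = 0
        apply (hker (T m)).2
        intro m'
        rw [hT, hT, smul_comm]
      · change ∑ m, ρ m • μ (T m i0) = ρ i0 • ∑ m, ρ m • s m
        rw [Finset.smul_sum]
        refine Finset.sum_congr rfl fun m _ => ?_
        rw [hT, smul_comm]
  rw [h1]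
  exact LinearEquiv.finrank_map_eq e (prodSpace ρ H)

theorem rank_Phi2 [FiniteDimensional ℂ D] {ρ : Fin M → K} {i0 : Fin M} (h0 : ρ i0 ≠ 0)
    {μ : D →ₗ[ℂ] (Fin n → K)} {H : Submodule ℂ (Fin n → K)}
    (hH : ∀ s, s ∈ H ↔ ∀ m, ρ m • s ∈ LinearMap.range μ) :
    Module.finrank ℂ (LinearMap.range (Phi2 ρ i0 μ)) +
      M * (Module.finrank ℂ H + M * Module.finrank ℂ (LinearMap.ker μ)) =
      Module.finrank ℂ (Fin M → Fin M → D) + Module.finrank ℂ (prodSpace ρ H) := by
  have h1 := rank_prod ((Phi1 ρ i0 μ).compLeft (Fin M)) (psi ρ i0 μ)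
  rw [finrank_map_psi h0 hH] at h1
  have h2 := LinearMap.finrank_range_add_finrank_ker ((Phi1 ρ i0 μ).compLeft (Fin M))
  have h3 : LinearMap.ker ((Phi1 ρ i0 μ).compLeft (Fin M)) =
      Submodule.pi (Set.univ : Set (Fin M)) fun _ => LinearMap.ker (Phi1 ρ i0 μ) := by
    ext T
    constructor
    · intro hT m _
      exact congrFun hT m
    · intro hT
      change _ = _
      funext m
      exact hT m trivial
  rw [h3, finrank_pi_sub, finrank_ker_Phi1 h0 hH] at h2
  change Module.finrank ℂ (LinearMap.range (((Phi1 ρ i0 μ).compLeft (Fin M)).prod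
    (psi ρ i0 μ))) + _ = _
  rw [h1]
  omega

end LA

/-- generation by an arbitrary finite family -/
theorem gen_of_fintype {E : Bundle K n} {V : Submodule ℂ (Fin n → K)} {v : Point K}
    {s : Fin n → K} {ι : Type} [Fintype ι] (a : ι → K) (t : ι → Fin n → K)
    (ha : ∀ i, v.val (a i) ≤ 1) (ht : ∀ i, t i ∈ V) (hs : s = ∑ i, a i • t i) :
    ∃ (l : ℕ) (a : Fin l → K) (t : Fin l → Fin n → K),
    (∀ i, v.val (a i) ≤ 1) ∧ (∀ i, t i ∈ V) ∧ s = ∑ i, a i • t i := by
  refine ⟨Fintype.card ι, fun i => a ((Fintype.equivFin ι).symm i),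
    fun i => t ((Fintype.equivFin ι).symm i), fun i => ha _, fun i => ht _, ?_⟩
  rw [hs]
  exact (Equiv.sum_comp (Fintype.equivFin ι).symm fun i => a i • t i).symm

/-- the core of the proof that `h⁰ ≤ k` and global generation are open -/
theorem open_core (hK : IsCurve K) (hg : genus K ≠ 0) (hn : 2 ≤ n) {d : ℤ} (hd : 0 < d)
    {A : Type} [CommRing A] [Algebra ℂ A] {E : (A →ₐ[ℂ] ℂ) → Bundle K n}
    (hst : ∀ b, IsStable (E b)) (hdeg : ∀ b, (E b).degree = d) (P : LineBundle K) (N k : ℕ)
    (f : Fin k → A) (G : Fin N → Fin k → Fin n → K)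
    (hfam : ∀ (b : A →ₐ[ℂ] ℂ) (v : Point K) (s : Fin n → K), s ∈ (E b).stalk v ↔
      ∃ t : Fin N → K, (∀ i, t i ∈ P.stalk v) ∧ s = ∑ i, t i • ∑ l, b (f l) • G i l)
    (b0 : A →ₐ[ℂ] ℂ) : ∃ φ : A, b0 φ ≠ 0 ∧ ∀ b : A →ₐ[ℂ] ℂ, b φ ≠ 0 →
      Module.finrank ℂ (E b).sections ≤ Module.finrank ℂ (E b0).sections ∧
      (Module.finrank ℂ (E b).sections = Module.finrank ℂ (E b0).sections →
        IsGeneratedBy (E b0) (E b0).sections → IsGeneratedBy (E b) (E b).sections) := by
  classical
  have hsecfin : ∀ b, FiniteDimensional ℂ (E b).sections := fun b => (hasChi hK hg (E b)).1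
  -- the choice of `R`
  obtain ⟨c1, hc1⟩ := exists_surj_bound hK hg (E b0) P (fun i => ∑ l, b0 (f l) • G i l) (hfam b0)
  obtain ⟨c2, hc2⟩ : ∃ c2 : ℤ, IsGeneratedBy (E b0) (E b0).sections → ∀ R : LineBundle K,
      c2 ≤ R.degree → ∀ s ∈ (btw (E b0) R).sections, ∃ (h : ℕ) (t : Fin h → K)
        (σ : Fin h → Fin n → K), (∀ i, t i ∈ H0 R) ∧ (∀ i, σ i ∈ (E b0).sections) ∧
          s = ∑ i, t i • σ i := by
    by_cases hgg : IsGeneratedBy (E b0) (E b0).sections
    · let β := Module.finBasis ℂ (E b0).sections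
      obtain ⟨c, hc⟩ := exists_surj_bound hK hg (E b0) (one K)
        (fun i => (β i : Fin n → K)) (fun v s => by
          constructor
          · intro hs
            obtain ⟨t, ht, hts⟩ := exists_coord β hgg v hs
            exact ⟨t, fun i => (mem_one_stalk v _).2 (ht i), hts.symm⟩
          · rintro ⟨t, ht, rfl⟩
            exact evMap_mem (fun i => (β i).2) v (fun i => (mem_one_stalk v _).1 (ht i)))
      refine ⟨c, fun _ R hR s hs => ?_⟩
      obtain ⟨t, ht, hts⟩ := hc R hR s hs
      refine ⟨_, t, fun i => (β i : Fin n → K), fun i v => ?_, fun i => (β i).2, hts⟩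
      have h1 := ht i v
      rw [mem_lmul] at h1
      have h2 : v.val ((one K).frame v : K) = 1 := by
        change v.val ((1 : Kˣ) : K) = 1
        rw [Units.val_one, map_one]
      rw [h2, one_mul] at h1
      exact h1
    · exact ⟨0, fun h => absurd h hgg⟩
  obtain ⟨R, hR⟩ := exists_large hK (max (2 * genus K) (max c1 c2))
  have hRg : 2 * (genus K : ℤ) ≤ R.degree := (le_max_left _ _).trans hR
  have hR1 : c1 ≤ R.degree := ((le_max_left _ _).trans (le_max_right _ _)).trans hR
  have hR2 : c2 ≤ R.degree := ((le_max_right _ _).trans (le_max_right _ _)).trans hR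
  have hfin1 := H0_finite hK hg (lmul P R)
  -- the maps `μ_b`
  let μL : (Fin N → Fin n → K) →ₗ[ℂ] ((Fin N → H0 (lmul P R)) →ₗ[ℂ] (Fin n → K)) :=
    { toFun := fun G =>
        { toFun := fun t => ∑ i, (t i : K) • G i
          map_add' := fun s t => by
            rw [← Finset.sum_add_distrib]
            exact Finset.sum_congr rfl fun i _ => by
              rw [← add_smul]; rfl
          map_smul' := fun c t => by
            rw [RingHom.id_apply, Finset.smul_sum]
            exact Finset.sum_congr rfl fun i _ => by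
              rw [← smul_assoc]; rfl }
      map_add' := fun G H => by
        refine LinearMap.ext fun t => ?_
        change ∑ i, (t i : K) • (G i + H i) = ∑ i, (t i : K) • G i + ∑ i, (t i : K) • H i
        rw [← Finset.sum_add_distrib]
        exact Finset.sum_congr rfl fun i _ => smul_add _ _ _
      map_smul' := fun c G => by
        refine LinearMap.ext fun t => ?_
        change ∑ i, (t i : K) • (c • G i) = c • ∑ i, (t i : K) • G i
        rw [Finset.smul_sum]
        exact Finset.sum_congr rfl fun i _ => smul_comm _ _ _ }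
  let μ : (A →ₐ[ℂ] ℂ) → ((Fin N → H0 (lmul P R)) →ₗ[ℂ] (Fin n → K)) := fun b =>
    μL fun i => ∑ l, b (f l) • G i l
  have hμa : ∀ b t, μ b t = ∑ i, (t i : K) • ∑ l, b (f l) • G i l := fun b t => rfl
  have hμalg : IsAlgFam μ := by
    refine ⟨k, f, fun l => μL fun i => G i l, fun b => ?_⟩
    change μL (fun i => ∑ l, b (f l) • G i l) = _
    have : (fun i => ∑ l, b (f l) • G i l) = ∑ l, b (f l) • (fun i => G i l) := by
      funext i
      rw [Finset.sum_apply]
      rfl
    rw [this, map_sum]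
    exact Finset.sum_congr rfl fun l _ => map_smul _ _ _
  have hμle : ∀ b, LinearMap.range (μ b) ≤ (btw (E b) R).sections := by
    rintro b _ ⟨t, rfl⟩ v
    rw [mem_btw, hfam]
    refine ⟨fun i => (R.frame v : K)⁻¹ * (t i : K), fun i => ?_, ?_⟩
    · have h1 := (t i).2 v
      rw [mem_lmul, mul_comm] at h1
      change v.val _ ≤ _
      rw [map_mul, map_inv₀, inv_mul_le_iff₀ (frame_pos R v)]
      exact h1
    · rw [hμa, Finset.smul_sum]
      exact Finset.sum_congr rfl fun i _ => smul_smul _ _ _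
  have hμ0 : LinearMap.range (μ b0) = (btw (E b0) R).sections := by
    apply le_antisymm (hμle b0)
    intro s hs
    obtain ⟨t, ht, hts⟩ := hc1 R hR1 s hs
    exact ⟨fun i => ⟨t i, ht i⟩, by rw [hμa, hts]⟩
  have hr0 : ∀ b, FiniteDimensional ℂ (btw (E b) R).sections ∧
      (Module.finrank ℂ (btw (E b) R).sections : ℤ) = d + n * R.degree + n * (1 - genus K) := by
    intro b
    have := finrank_btw_stable hK hg (hst b) hn (by rw [hdeg]; exact hd) (R := R) (by omega)
    rwa [hdeg] at this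
  -- the basis of `H⁰(R)`
  have hfinR := H0_finite hK hg R
  obtain ⟨v0⟩ := point_nonempty hK
  set M := Module.finrank ℂ (H0 R) with hM
  let β : Module.Basis (Fin M) ℂ (H0 R) := Module.finBasis ℂ (H0 R)
  let ρ : Fin M → K := fun m => β m
  have hρspan : ∀ x ∈ H0 R, ∃ c : Fin M → ℂ, x = ∑ m, c m • ρ m := by
    intro x hx
    refine ⟨fun m => β.repr ⟨x, hx⟩ m, ?_⟩
    have := congrArg Subtype.val (β.sum_repr ⟨x, hx⟩)
    rw [AddSubmonoidClass.coe_finsetSum] at this
    exact this.symm
  have hMpos : 0 < M := by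
    by_contra h
    have hM0 : M = 0 := by omega
    obtain ⟨x, hx, hxv⟩ := exists_line_gen hK hg hRg v0
    have h1 : H0 R = ⊥ := Submodule.finrank_eq_zero.1 (hM ▸ hM0)
    rw [h1, Submodule.mem_bot] at hx
    rw [hx, map_zero] at hxv
    exact (frame_pos R v0).ne hxv
  let i0 : Fin M := ⟨0, hMpos⟩
  have hρ0 : ρ i0 ≠ 0 := by
    intro h
    exact β.ne_zero i0 (Subtype.ext h)
  -- sections of `E` in terms of sections of `E ⊗ R`
  have hH : ∀ b, LinearMap.range (μ b) = (btw (E b) R).sections → ∀ s, s ∈ (E b).sections ↔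
      ∀ m, ρ m • s ∈ LinearMap.range (μ b) := by
    intro b hb s
    rw [hb]
    constructor
    · intro hs m v
      rw [mem_btw, smul_smul]
      apply stalk_smul (hs v)
      rw [map_mul, map_inv₀, inv_mul_le_iff₀ (frame_pos R v), mul_one]
      exact (β m).2 v
    · intro hs v
      obtain ⟨x, hx, hxv⟩ := exists_line_gen hK hg hRg v
      have hx0 : x ≠ 0 := by
        rintro rfl
        rw [map_zero] at hxv
        exact (frame_pos R v).ne hxv
      obtain ⟨c, hc⟩ := hρspan x hx
      have h1 : x • s ∈ (btw (E b) R).sections := by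
        have h2 : x • s = ∑ m, c m • (ρ m • s) := by
          rw [hc, Finset.sum_smul]
          exact Finset.sum_congr rfl fun m _ => smul_assoc _ _ _
        rw [h2]
        exact Submodule.sum_mem _ fun m _ => Submodule.smul_mem _ _ (hs m)
      have h3 := h1 v
      rw [mem_btw, smul_smul] at h3
      have h4 : s = (x⁻¹ * (R.frame v : K)) • (((R.frame v : K)⁻¹ * x) • s) := by
        rw [smul_smul]
        have h5 : x⁻¹ * (R.frame v : K) * ((R.frame v : K)⁻¹ * x) = 1 := by
          have := (R.frame v).ne_zero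
          field_simp
        rw [h5, one_smul]
      rw [h4]
      apply stalk_smul h3
      rw [map_mul, map_inv₀, hxv, inv_mul_cancel₀ (frame_pos R v).ne']
  -- semicontinuity
  obtain ⟨φ1, hφ1, hφ1'⟩ := hμalg.rank_lower b0
  obtain ⟨φ2, hφ2, hφ2'⟩ := (hμalg.comp (Phi1 ρ i0)).rank_lower b0
  obtain ⟨φ3, hφ3, hφ3'⟩ := (hμalg.comp (Phi2 ρ i0)).rank_lower b0
  refine ⟨φ1 * φ2 * φ3, by
    rw [map_mul, map_mul]; exact mul_ne_zero (mul_ne_zero hφ1 hφ2) hφ3, fun b hb => ?_⟩
  rw [map_mul, map_mul] at hb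
  have hb1 := hφ1' b (left_ne_zero_of_mul (left_ne_zero_of_mul hb))
  have hb2 := hφ2' b (right_ne_zero_of_mul (left_ne_zero_of_mul hb))
  have hb3 := hφ3' b (right_ne_zero_of_mul hb)
  have hfb := (hr0 b).1
  have hreq : Module.finrank ℂ (btw (E b) R).sections = Module.finrank ℂ (btw (E b0) R).sections := by
    have h1 := (hr0 b).2
    have h2 := (hr0 b0).2
    omega
  have hμb : LinearMap.range (μ b) = (btw (E b) R).sections := by
    apply Submodule.eq_of_le_of_finrank_le (hμle b)
    rw [hreq, ← hμ0]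
    exact hb1
  have hHb := hH b hμb
  have hHb0 := hH b0 hμ0
  have hk1 := LinearMap.finrank_range_add_finrank_ker (μ b)
  have hk2 := LinearMap.finrank_range_add_finrank_ker (μ b0)
  rw [hμb, hreq] at hk1
  rw [hμ0] at hk2
  have hkk : Module.finrank ℂ (LinearMap.ker (μ b)) = Module.finrank ℂ (LinearMap.ker (μ b0)) := by
    omega
  have hp1 := LinearMap.finrank_range_add_finrank_ker (Phi1 ρ i0 (μ b))
  have hp2 := LinearMap.finrank_range_add_finrank_ker (Phi1 ρ i0 (μ b0))
  rw [finrank_ker_Phi1 hρ0 hHb] at hp1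
  rw [finrank_ker_Phi1 hρ0 hHb0] at hp2
  have hq1 := rank_Phi2 hρ0 hHb
  have hq2 := rank_Phi2 hρ0 hHb0
  refine ⟨?_, fun heq hgg => ?_⟩
  · rw [hkk] at hp1
    omega
  · -- the products span
    have hW0 : (btw (E b0) R).sections ≤ prodSpace ρ (E b0).sections := by
      intro s hs
      obtain ⟨h, t, σ, ht, hσ, rfl⟩ := hc2 hgg R hR2 s hs
      choose c hc using fun i => hρspan (t i) (ht i)
      refine ⟨fun m => ∑ i, c i m • σ i, fun m => Submodule.sum_mem _ fun i _ =>
        Submodule.smul_mem _ _ (hσ i), ?_⟩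
      simp only [Finset.smul_sum]
      rw [Finset.sum_comm]
      refine Finset.sum_congr rfl fun i _ => ?_
      rw [hc i, Finset.sum_smul]
      refine Finset.sum_congr rfl fun m _ => ?_
      rw [smul_assoc, smul_comm]
    have hWle : ∀ b, prodSpace ρ (E b).sections ≤ (btw (E b) R).sections := by
      rintro b _ ⟨s, hs, rfl⟩
      refine Submodule.sum_mem _ fun m _ v => ?_
      rw [mem_btw, smul_smul]
      apply stalk_smul (hs m v)
      rw [map_mul, map_inv₀, inv_mul_le_iff₀ (frame_pos R v), mul_one]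
      exact (β m).2 v
    have hW0' : prodSpace ρ (E b0).sections = (btw (E b0) R).sections :=
      le_antisymm (hWle b0) hW0
    rw [hW0'] at hq2
    rw [heq, hkk] at hq1
    have hb3' : Module.finrank ℂ (LinearMap.range (Phi2 ρ i0 (μ b0))) ≤
        Module.finrank ℂ (LinearMap.range (Phi2 ρ i0 (μ b))) := hb3
    have hWb : prodSpace ρ (E b).sections = (btw (E b) R).sections := by
      apply Submodule.eq_of_le_of_finrank_le (hWle b)
      rw [hreq]
      omega
    refine ⟨le_rfl, fun v x hx => ?_⟩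
    obtain ⟨a, σ, ha, hσ, hxs⟩ := gen_btw_stable hK hg (hst b) hn (by rw [hdeg]; exact hd)
      (R := R) (by omega) v (smul_frame_mem_btw (E b) R hx)
    have h1 : ∀ i, ∃ s : Fin M → Fin n → K, (∀ m, s m ∈ (E b).sections) ∧
        σ i = ∑ m, ρ m • s m := by
      intro i
      have h2 := hσ i
      rw [← hWb] at h2
      exact h2
    choose s hs hσs using h1
    refine gen_of_fintype (E := E b) (ι := Fin n × Fin M)
      (fun p => a p.1 * ((R.frame v : K)⁻¹ * ρ p.2)) (fun p => s p.1 p.2) (fun p => ?_)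
      (fun p => hs _ _) ?_
    · rw [map_mul, map_mul, map_inv₀]
      refine mul_le_one' (ha _) ?_
      rw [inv_mul_le_iff₀ (frame_pos R v), mul_one]
      exact (β p.2).2 v
    · have h2 : x = (R.frame v : K)⁻¹ • ((R.frame v : K) • x) := by
        rw [smul_smul, inv_mul_cancel₀ (R.frame v).ne_zero, one_smul]
      rw [h2, hxs, Fintype.sum_prod_type, Finset.smul_sum]
      refine Finset.sum_congr rfl fun i _ => ?_
      rw [hσs i, Finset.smul_sum, Finset.smul_sum]
      refine Finset.sum_congr rfl fun m _ => ?_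
      rw [smul_smul, smul_smul]
      congr 1
      ring

end Pool.Agent.Helper395.BC
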