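import Pool.Agent.Helper395.BC.Facts

open scoped WithZero Matrix IntermediateField
open WithZero

set_option linter.unusedSectionVars false
set_option linter.unusedVariables false

namespace Pool.Agent.Helper395.BC

open Pool.Agent.Helper395.CS

variable {K : Type} [Field K] [Algebra ℂ K] {n m q k : ℕ}

/-- the bundle `R` is the subbundle of `𝒪 ^ 3` with generic fibre the image of `ψ`, contained in the
kernel of `c` -/
structure SubKer (c : Fin 3 → K) (R : Bundle K m) (ψ : (Fin m → K) →ₗ[K] (Fin 3 → K)) : Prop where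
  inj : Function.Injective ψ
  stalk : ∀ (v : Point K) x, x ∈ R.stalk v ↔ v.Reg (ψ x)
  rel : ∀ x, ∑ i, c i * ψ x i = 0

theorem GG3.ker_finrank {L : LineBundle K} {c : Fin 3 → K} (h : GG3 L c) :
    Module.finrank K (LinearMap.ker (dotc c)) = 2 := by
  have h1 := LinearMap.finrank_range_add_finrank_ker (dotc c)
  rw [LinearMap.range_eq_top.2 h.dotc_surjective, finrank_top] at h1
  simp at h1
  omega

theorem bundle_zero_degree (R : Bundle K 0) : R.degree = 0 := by
  rw [Bundle.degree, finsum_eq_zero_of_forall_eq_zero]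
  intro v
  rw [Matrix.det_isEmpty, v.ord_one, neg_zero]

/-- bounds for the degree -/
theorem SubKer.bounds (hK : IsCurve K) (hg : genus K ≠ 0) (hs : SmallH0 K) {L : LineBundle K}
    {c : Fin 3 → K} (h : GG3 L c) {R : Bundle K m} {ψ : (Fin m → K) →ₗ[K] (Fin 3 → K)}
    (hR : SubKer c R ψ) : m ≤ 2 ∧ (m = 0 → R.degree = 0) ∧ (m = 1 → R.degree ≤ -3) ∧
      (m = 2 → R.degree = -L.degree) := by
  refine ⟨?_, ?_, ?_, ?_⟩
  · have h1 : LinearMap.range ψ ≤ LinearMap.ker (dotc c) := by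
      rintro _ ⟨x, rfl⟩
      rw [LinearMap.mem_ker]
      funext i
      exact hR.rel x
    have h2 := Submodule.finrank_mono h1
    rw [LinearMap.finrank_range_of_inj hR.inj, h.ker_finrank] at h2
    simpa using h2
  · rintro rfl
    exact bundle_zero_degree R
  · rintro rfl
    by_contra hcon
    obtain ⟨z, d, hzd⟩ := constant_of_degree hK hg hs (N := R) (ψ := ψ)
      (fun v x hx => (hR.stalk v x).1 hx) (by omega)
    have h1 : ψ (fun _ => 1) ≠ 0 := by
      intro h0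
      have := hR.inj (h0.trans (map_zero ψ).symm)
      exact one_ne_zero (congrFun this 0)
    have h2 := hR.rel (fun _ => 1)
    have h3 : z * ∑ i, d i • c i = 0 := by
      rw [← h2, Finset.mul_sum]
      refine Finset.sum_congr rfl fun i _ => ?_
      rw [hzd i, Algebra.smul_def, Algebra.smul_def]
      ring
    rcases mul_eq_zero.1 h3 with hz | hd
    · apply h1
      funext i
      rw [hzd i, hz, smul_zero, Pi.zero_apply]
    · have h4 := h.indep d hd
      apply h1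
      funext i
      rw [hzd i, h4, Pi.zero_apply, zero_smul, Pi.zero_apply]
  · rintro rfl
    exact h.degree hK hR.inj rfl hR.rel hR.stalk

/-- the first three coordinates -/
def p1 : (Fin (3 + 3) → K) →ₗ[K] (Fin 3 → K) := LinearMap.funLeft K K (Fin.castAdd 3)

/-- the last three coordinates -/
def p2 : (Fin (3 + 3) → K) →ₗ[K] (Fin 3 → K) := LinearMap.funLeft K K (Fin.natAdd 3)

theorem p1_apply (s : Fin (3 + 3) → K) (i : Fin 3) : p1 s i = s (Fin.castAdd 3 i) := rfl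
theorem p2_apply (s : Fin (3 + 3) → K) (i : Fin 3) : p2 s i = s (Fin.natAdd 3 i) := rfl

theorem p1_append (s t : Fin 3 → K) : p1 (Fin.append s t) = s := by
  funext i
  rw [p1_apply, Fin.append_left]

theorem p2_append (s t : Fin 3 → K) : p2 (Fin.append s t) = t := by
  funext i
  rw [p2_apply, Fin.append_right]

theorem append_p (s : Fin (3 + 3) → K) : Fin.append (p1 s) (p2 s) = s := by
  funext i
  refine Fin.addCases (fun i => ?_) (fun i => ?_) i
  · rw [Fin.append_left]; rfl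
  · rw [Fin.append_right]; rfl

theorem p_ext {s t : Fin (3 + 3) → K} (h1 : p1 s = p1 t) (h2 : p2 s = p2 t) : s = t := by
  rw [← append_p s, ← append_p t, h1, h2]

theorem reg_iff (v : Point K) (s : Fin (3 + 3) → K) : v.Reg s ↔ v.Reg (p1 s) ∧ v.Reg (p2 s) := by
  constructor
  · intro h
    exact ⟨fun i => h _, fun i => h _⟩
  · rintro ⟨h1, h2⟩ i
    refine Fin.addCases (fun i => ?_) (fun i => ?_) i
    · exact h1 i
    · exact h2 i

/-- the bundle `S` is a subbundle of `M ⊆ 𝒪 ^ 6` -/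
structure SubM (a b α : Fin 3 → K) (S : Bundle K q) (ψ : (Fin q → K) →ₗ[K] (Fin (3 + 3) → K)) :
    Prop where
  inj : Function.Injective ψ
  stalk : ∀ (v : Point K) x, x ∈ S.stalk v ↔ v.Reg (ψ x)
  rel1 : ∀ x, ∑ i, a i * p1 (ψ x) i + ∑ i, α i * p2 (ψ x) i = 0
  rel2 : ∀ x, ∑ i, b i * p2 (ψ x) i = 0

/-- splitting of a subbundle -/
theorem SubM.split (hK : IsCurve K) {a b α : Fin 3 → K} {S : Bundle K q}
    {ψ : (Fin q → K) →ₗ[K] (Fin (3 + 3) → K)} (h : SubM a b α S ψ) :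
    ∃ (q1 q2 : ℕ) (R1 : Bundle K q1) (R2 : Bundle K q2) (ψ1 : (Fin q1 → K) →ₗ[K] (Fin 3 → K))
      (ψ2 : (Fin q2 → K) →ₗ[K] (Fin 3 → K)), q = q1 + q2 ∧ SubKer a R1 ψ1 ∧ SubKer b R2 ψ2 ∧
      S.degree ≤ R1.degree + R2.degree ∧ (q1 = 0 → Function.Injective (p2 ∘ₗ ψ)) ∧
      ((∀ (v : Point K) t, v.Reg t → ∑ i, b i * t i = 0 → ∃ x ∈ S.stalk v, p2 (ψ x) = t) →
        S.degree = R1.degree + R2.degree) := by
  have hdim := LinearMap.finrank_range_add_finrank_ker (p2 ∘ₗ ψ)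
  rw [Module.finrank_fintype_fun_eq_card, Fintype.card_fin] at hdim
  obtain ⟨q2, hq2⟩ : ∃ q2, Module.finrank K (LinearMap.range (p2 ∘ₗ ψ)) = q2 := ⟨_, rfl⟩
  obtain ⟨q1, hq1⟩ : ∃ q1, Module.finrank K (LinearMap.ker (p2 ∘ₗ ψ)) = q1 := ⟨_, rfl⟩
  obtain ⟨j2, hj2, hr2⟩ := exists_param (LinearMap.range (p2 ∘ₗ ψ)) hq2
  obtain ⟨j1, hj1, hr1⟩ := exists_param (LinearMap.ker (p2 ∘ₗ ψ)) hq1
  obtain ⟨R2, hR2⟩ := exists_sub hK (trivialBundle K 3) j2 hj2
  obtain ⟨R1, hR1⟩ := exists_sub hK S j1 hj1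
  have h10 : ∀ x, p2 (ψ (j1 x)) = 0 := by
    intro x
    have : j1 x ∈ LinearMap.ker (p2 ∘ₗ ψ) := by rw [← hr1]; exact ⟨x, rfl⟩
    exact this
  -- the projection
  let e2 := LinearEquiv.ofInjective j2 hj2
  have hrange : ∀ x, p2 (ψ x) ∈ LinearMap.range j2 := by
    intro x
    rw [hr2]
    exact ⟨x, rfl⟩
  let P : (Fin q → K) →ₗ[K] (Fin q2 → K) :=
    e2.symm.toLinearMap ∘ₗ ((p2 ∘ₗ ψ).codRestrict (LinearMap.range j2) hrange)
  have hP : ∀ x, j2 (P x) = p2 (ψ x) := by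
    intro x
    have h1 : (e2 (P x) : Fin 3 → K) = p2 (ψ x) := by
      change ((e2 (e2.symm _)) : Fin 3 → K) = _
      rw [LinearEquiv.apply_symm_apply]
      rfl
    exact h1
  have hPs : Function.Surjective P := by
    intro y
    have h1 : j2 y ∈ LinearMap.range (p2 ∘ₗ ψ) := by rw [← hr2]; exact ⟨y, rfl⟩
    obtain ⟨x, hx⟩ := h1
    refine ⟨x, hj2 ?_⟩
    rw [hP]
    exact hx
  have hk := degree_exact hK (E := S) (F := R1) (G := R2) (P := P) hR1 hPs
    (fun x hx => by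
      rw [hr1, LinearMap.mem_ker]
      change p2 (ψ x) = 0
      rw [← hP, hx, map_zero])
    (fun x => by
      apply hj2
      rw [hP, h10, map_zero])
    (fun v x hx => by
      rw [hR2.stalk, mem_trivial, hP]
      exact ((reg_iff v _).1 ((h.stalk v x).1 hx)).2)
  refine ⟨_, _, R1, R2, p1 ∘ₗ ψ ∘ₗ j1, j2, by omega, ⟨?_, ?_, ?_⟩, ⟨hj2, ?_, ?_⟩, hk.1, ?_, ?_⟩
  · intro x y hxy
    apply hj1
    apply h.inj
    apply p_ext
    · exact hxy
    · rw [h10, h10]
  · intro v x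
    rw [hR1.stalk, h.stalk, reg_iff, h10]
    constructor
    · exact fun h => h.1
    · intro h
      exact ⟨h, fun i => by simp⟩
  · intro x
    have h1 := h.rel1 (j1 x)
    rw [h10] at h1
    simpa using h1
  · intro v x
    rw [hR2.stalk, mem_trivial]
  · intro x
    have h1 : j2 x ∈ LinearMap.range (p2 ∘ₗ ψ) := by rw [← hr2]; exact ⟨x, rfl⟩
    obtain ⟨y, hy⟩ := h1
    rw [← hy]
    exact h.rel2 y
  · intro h0
    rw [← LinearMap.ker_eq_bot]
    exact Submodule.finrank_eq_zero.1 (hq1.trans h0)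
  · intro hsurj
    apply hk.2
    intro v y hy
    rw [hR2.stalk, mem_trivial] at hy
    have h1 : j2 y ∈ LinearMap.range (p2 ∘ₗ ψ) := by rw [← hr2]; exact ⟨y, rfl⟩
    obtain ⟨z, hz⟩ := h1
    obtain ⟨x, hx, hxy⟩ := hsurj v (j2 y) hy (by rw [← hz]; exact h.rel2 z)
    refine ⟨x, hx, hj2 ?_⟩
    rw [hP, hxy]

end Pool.Agent.Helper395.BC
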