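import Pool.Agent.Helper395.BC.Unstable

open scoped WithZero Matrix IntermediateField
open WithZero

set_option linter.unusedSectionVars false
set_option linter.unusedVariables false

namespace Pool.Agent.Helper395.BC

open Pool.Agent.Helper395.CS

variable {K : Type} [Field K] [Algebra ℂ K] {n m q k : ℕ}

/-- line bundles of degree at most two have at most one section -/
def SmallH0 (K : Type) [Field K] [Algebra ℂ K] : Prop :=
  ∀ L : LineBundle K, L.degree ≤ 2 → Module.finrank ℂ (H0 L) ≤ 1

theorem H0_finite (hK : IsCurve K) (hg : genus K ≠ 0) (L : LineBundle K) :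
    FiniteDimensional ℂ (H0 L) := (lHasChi hK hg L).1

theorem H0_mono {L M : LineBundle K} (h : ∀ v s, s ∈ L.stalk v → s ∈ M.stalk v) : H0 L ≤ H0 M :=
  fun f hf v => h v f (hf v)

theorem le_lmul_lpt (L : LineBundle K) (v : Point K) :
    ∀ w s, s ∈ L.stalk w → s ∈ (lmul L (lpt v)).stalk w := by
  intro w s hs
  rw [mem_lmul]
  refine (hs : w.val s ≤ _).trans ?_
  apply le_mul_of_one_le_right'
  rcases eq_or_ne w v with rfl | hw
  · rw [lpt_frame_self, map_inv₀]
    exact (one_le_inv₀ (zero_lt_iff.2 (w.val_ne_zero (unif_ne_zero w)))).2 (val_unif_lt w).le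
  · rw [lpt_frame_ne hw, Units.val_one, map_one]

theorem smallH0 (hK : IsCurve K) (hg : genus K ≠ 0) (hne : HasNoPencilOfDegreeTwo K) :
    SmallH0 K := by
  have key : ∀ (N : ℕ) (L : LineBundle K), L.degree = 2 - N → Module.finrank ℂ (H0 L) ≤ 1 := by
    intro N
    induction N with
    | zero =>
      intro L hL
      have e1 : (lsum L 1).sections ≃ₗ[ℂ] H0 L :=
        (secEquiv L 1).trans (LinearEquiv.funUnique (Fin 1) ℂ (H0 L))
      rw [← e1.finrank_eq]
      apply hne
      rw [lsum_degree, hL]
      simp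
    | succ N ih =>
      intro L hL
      obtain ⟨v⟩ := point_nonempty hK
      have h1 := ih (lmul L (lpt v)) (by
        rw [lmul_degree, lpt_degree, hL]; push_cast; ring)
      have hfin := H0_finite hK hg (lmul L (lpt v))
      exact (Submodule.finrank_mono (H0_mono (le_lmul_lpt L v))).trans h1
  intro L hL
  exact key (2 - L.degree).toNat L (by omega)

/-- the twist `L(-v)` -/
noncomputable def lsub (L : LineBundle K) (v : Point K) : LineBundle K := lmul L (linv (lpt v))

theorem lsub_degree (L : LineBundle K) (v : Point K) : (lsub L v).degree = L.degree - 1 := by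
  rw [lsub, lmul_degree, linv_degree, lpt_degree]
  ring

theorem mem_lsub_self (L : LineBundle K) (v : Point K) (s : K) :
    s ∈ (lsub L v).stalk v ↔ v.val s < v.val (L.frame v : K) := by
  rw [lsub, mem_lmul_linv, lpt_frame_self]
  change v.val (s * (unif v)⁻¹) ≤ v.val (L.frame v : K) ↔ _
  have h1 : v.val (s * (unif v)⁻¹) ≤ v.val (L.frame v : K) ↔
      v.val (s * (L.frame v : K)⁻¹) ≤ v.val (unif v) := by
    rw [map_mul, map_mul, map_inv₀, map_inv₀, ← div_eq_mul_inv, ← div_eq_mul_inv,
      div_le_iff₀ (zero_lt_iff.2 (v.val_ne_zero (unif_ne_zero v))),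
      div_le_iff₀ (frame_pos L v), mul_comm]
  rw [h1, ← val_lt_one_iff, map_mul, map_inv₀, ← div_eq_mul_inv, div_lt_one₀ (frame_pos L v)]

theorem mem_lsub_ne (L : LineBundle K) {v w : Point K} (h : w ≠ v) (s : K) :
    s ∈ (lsub L v).stalk w ↔ s ∈ L.stalk w := by
  rw [lsub, mem_lmul_linv, lpt_frame_ne h, Units.val_one, mul_one]

/-- a section generating the stalk -/
theorem exists_generator (L : LineBundle K) (v : Point K)
    (h : Module.finrank ℂ (H0 (lsub L v)) < Module.finrank ℂ (H0 L)) :
    ∃ s ∈ H0 L, v.val s = v.val (L.frame v : K) := by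
  by_contra hcon
  push Not at hcon
  have h1 : H0 L = H0 (lsub L v) := by
    apply le_antisymm
    · intro f hf w
      rcases eq_or_ne w v with rfl | hw
      · rw [mem_lsub_self]
        exact lt_of_le_of_ne (hf w) (hcon f hf)
      · rw [mem_lsub_ne L hw]
        exact hf w
    · intro f hf w
      have := hf w
      rcases eq_or_ne w v with rfl | hw
      · rw [mem_lsub_self] at this
        exact this.le
      · rwa [mem_lsub_ne L hw] at this
  rw [h1] at h
  exact lt_irrefl _ h

/-- a globally generated line bundle with three sections -/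
structure GG3 (L : LineBundle K) (c : Fin 3 → K) : Prop where
  mem : ∀ i, c i ∈ H0 L
  span : ∀ f ∈ H0 L, ∃ a : Fin 3 → ℂ, f = ∑ i, a i • c i
  indep : ∀ a : Fin 3 → ℂ, ∑ i, a i • c i = 0 → a = 0
  gen : ∀ v : Point K, ∃ i, v.val (c i) = v.val (L.frame v : K)

theorem exists_GG3 (L : LineBundle K) (h3 : Module.finrank ℂ (H0 L) = 3)
    (h : ∀ v, Module.finrank ℂ (H0 (lsub L v)) < 3) : ∃ c, GG3 L c := by
  have hfin : FiniteDimensional ℂ (H0 L) := Module.finite_of_finrank_pos (by omega)
  let b : Module.Basis (Fin 3) ℂ (H0 L) := Module.finBasisOfFinrankEq ℂ (H0 L) h3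
  have hspan : ∀ f ∈ H0 L, ∃ a : Fin 3 → ℂ, f = ∑ i, a i • (b i : K) := by
    intro f hf
    refine ⟨fun i => b.repr ⟨f, hf⟩ i, ?_⟩
    have := congrArg Subtype.val (b.sum_repr ⟨f, hf⟩)
    rw [AddSubmonoidClass.coe_finsetSum] at this
    exact this.symm
  refine ⟨fun i => b i, fun i => (b i).2, hspan, ?_, ?_⟩
  · intro a ha
    have h1 : ∑ i, a i • b i = 0 := by
      apply Subtype.ext
      rw [AddSubmonoidClass.coe_finsetSum]
      exact ha
    funext i
    exact Fintype.linearIndependent_iff.1 b.linearIndependent a h1 i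
  · intro v
    by_contra hcon
    push Not at hcon
    obtain ⟨s, hs, hv⟩ := exists_generator L v (by rw [h3]; exact h v)
    obtain ⟨a, rfl⟩ := hspan s hs
    have h2 : v.val (∑ i, a i • (b i : K)) < v.val (L.frame v : K) := by
      refine Valuation.map_sum_lt _ (frame_pos L v).ne' fun i _ => ?_
      rw [Algebra.smul_def, map_mul]
      refine (mul_le_of_le_one_left' (v.const_le _)).trans_lt ?_
      exact lt_of_le_of_ne ((b i).2 v) (hcon i)
    exact h2.ne hv

/-- generation -/
theorem GG3.exists_coord {L : LineBundle K} {c : Fin 3 → K} (h : GG3 L c) (v : Point K) {z : K}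
    (hz : z ∈ L.stalk v) : ∃ t : Fin 3 → K, v.Reg t ∧ ∑ i, c i * t i = z := by
  classical
  obtain ⟨i, hi⟩ := h.gen v
  have hci : c i ≠ 0 := by
    intro h0
    rw [h0, map_zero] at hi
    exact (frame_pos L v).ne hi
  refine ⟨Pi.single i (z / c i), ?_, ?_⟩
  · intro l
    rcases eq_or_ne l i with rfl | hl
    · rw [Pi.single_eq_same, map_div₀, hi, div_le_one₀ (frame_pos L v)]
      exact hz
    · rw [Pi.single_eq_of_ne hl]; simp
  · rw [Finset.sum_eq_single i]
    · rw [Pi.single_eq_same, mul_div_cancel₀ _ hci]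
    · intro l _ hl
      rw [Pi.single_eq_of_ne hl, mul_zero]
    · simp

theorem GG3.ne_zero {L : LineBundle K} {c : Fin 3 → K} (h : GG3 L c) (i : Fin 3) : c i ≠ 0 := by
  classical
  intro h0
  have h1 := h.indep (Pi.single i 1) (by
    rw [Finset.sum_eq_single i]
    · rw [h0, smul_zero]
    · intro l _ hl
      rw [Pi.single_eq_of_ne hl, zero_smul]
    · simp)
  have h2 := congrFun h1 i
  rw [Pi.single_eq_same] at h2
  exact one_ne_zero h2

/-- the dot product -/
def dotc (c : Fin 3 → K) : (Fin 3 → K) →ₗ[K] (Fin 1 → K) where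
  toFun t := fun _ => ∑ i, c i * t i
  map_add' s t := by
    funext _
    change _ = ∑ i, c i * s i + ∑ i, c i * t i
    rw [← Finset.sum_add_distrib]
    exact Finset.sum_congr rfl fun i _ => mul_add _ _ _
  map_smul' a t := by
    funext _
    change _ = a * ∑ i, c i * t i
    rw [Finset.mul_sum]
    exact Finset.sum_congr rfl fun i _ => by
      rw [Pi.smul_apply, smul_eq_mul]; ring

theorem dotc_apply (c : Fin 3 → K) (t : Fin 3 → K) (i : Fin 1) : dotc c t i = ∑ l, c l * t l := rfl

theorem GG3.dotc_surjective {L : LineBundle K} {c : Fin 3 → K} (h : GG3 L c) :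
    Function.Surjective (dotc c) := by
  classical
  intro z
  refine ⟨Pi.single 0 (z 0 / c 0), ?_⟩
  funext i
  rw [Subsingleton.elim i 0, dotc_apply, Finset.sum_eq_single 0]
  · rw [Pi.single_eq_same, mul_div_cancel₀ _ (h.ne_zero 0)]
  · intro l _ hl
    rw [Pi.single_eq_of_ne hl, mul_zero]
  · simp

/-- the degree of the kernel bundle of `L` -/
theorem GG3.degree {L : LineBundle K} {c : Fin 3 → K} (h : GG3 L c) (hK : IsCurve K)
    {R : Bundle K m} {ψ : (Fin m → K) →ₗ[K] (Fin 3 → K)} (hψ : Function.Injective ψ)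
    (hm : m = 2) (h0 : ∀ x, ∑ i, c i * ψ x i = 0)
    (hR : ∀ (v : Point K) x, x ∈ R.stalk v ↔ v.Reg (ψ x)) : R.degree = -L.degree := by
  have hker : LinearMap.ker (dotc c) = LinearMap.range ψ := by
    symm
    apply Submodule.eq_of_le_of_finrank_eq
    · rintro _ ⟨x, rfl⟩
      rw [LinearMap.mem_ker]
      funext i
      exact h0 x
    · have h1 := LinearMap.finrank_range_add_finrank_ker (dotc c)
      rw [LinearMap.range_eq_top.2 h.dotc_surjective, finrank_top] at h1
      simp at h1
      rw [LinearMap.finrank_range_of_inj hψ, hm]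
      simp
      omega
  have h2 := (degree_exact hK (E := trivialBundle K 3) (F := R) (G := lsum L 1) (P := dotc c)
    (j := ψ) ⟨hψ, fun v x => by rw [hR, mem_trivial]⟩ h.dotc_surjective
    (fun s hs => by rw [← hker]; exact hs) (fun x => by funext i; exact h0 x)
    (fun v s hs => by
      rw [mem_trivial] at hs
      rw [mem_lsum_stalk]
      intro i
      rw [dotc_apply]
      change v.val _ ≤ _
      refine Valuation.map_sum_le _ fun l _ => ?_
      rw [map_mul]
      exact (mul_le_of_le_one_right' (hs l)).trans (h.mem l v))).2 (fun v t ht => by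
        rw [mem_lsum_stalk] at ht
        obtain ⟨s, hs, hst⟩ := h.exists_coord v (ht 0)
        refine ⟨s, (mem_trivial v s).2 hs, ?_⟩
        funext i
        rw [Subsingleton.elim i 0]
        exact hst)
  rw [trivialBundle_degree, lsum_degree, Nat.cast_one, one_mul] at h2
  omega

/-- line subbundles of trivial bundles of degree at least `-2` are constant -/
theorem constant_of_degree (hK : IsCurve K) (hg : genus K ≠ 0) (hs : SmallH0 K)
    {N : Bundle K 1} {ψ : (Fin 1 → K) →ₗ[K] (Fin k → K)}
    (hN : ∀ (v : Point K) x, x ∈ N.stalk v → v.Reg (ψ x)) (hd : -2 ≤ N.degree) :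
    ∃ (z : K) (d : Fin k → ℂ), ∀ i, ψ (fun _ => 1) i = d i • z := by
  -- the dual line bundle
  let L : LineBundle K := linv N.det
  have hL : L.degree = -N.degree := linv_degree _
  have hstalk : ∀ (v : Point K) (x : Fin 1 → K), x ∈ N.stalk v ↔ x 0 ∈ N.det.stalk v := by
    intro v x
    have h1 := congrFun (gl_mulVec_inv (N.frame v) x) 0
    rw [Matrix.mulVec, dotProduct, Finset.univ_unique, Finset.sum_singleton] at h1
    have h2 : (N.det.frame v : K) = (N.frame v).1 0 0 := by
      change (N.frame v).1.det = _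
      rw [Matrix.det_fin_one]
    change _ ↔ v.val (x 0) ≤ v.val (N.det.frame v : K)
    rw [mem_stalk_iff, h2, ← h1]
    have h3 : (N.frame v).1 0 0 ≠ 0 := by
      rw [← h2]; exact (N.det.frame v).ne_zero
    change v.Reg _ ↔ v.val ((N.frame v).1 0 0 * _) ≤ _
    rw [map_mul, mul_le_iff_le_one_right (zero_lt_iff.2 (v.val_ne_zero h3))]
    constructor
    · intro h
      exact h _
    · intro h i
      rw [Subsingleton.elim i 0]
      exact h
  have hmem : ∀ i, ψ (fun _ => 1) i ∈ H0 L := by
    intro i v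
    change v.val (ψ (fun _ => 1) i) ≤ v.val (((N.det.frame v)⁻¹ : Kˣ) : K)
    have h1 : (fun _ : Fin 1 => (N.det.frame v : K)) ∈ N.stalk v := by
      rw [hstalk]
      exact le_refl (v.val (N.det.frame v : K))
    have h2 := hN v _ h1 i
    have h3 : ψ (fun _ : Fin 1 => (N.det.frame v : K)) = (N.det.frame v : K) • ψ (fun _ => 1) := by
      rw [← map_smul]
      congr 1
      funext l
      rw [Pi.smul_apply, smul_eq_mul, mul_one]
    rw [h3, Pi.smul_apply, smul_eq_mul, map_mul] at h2
    rw [Units.val_inv_eq_inv_val, map_inv₀, ← mul_one (v.val (N.det.frame v : K))⁻¹,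
      le_inv_mul_iff₀ (frame_pos _ v)]
    exact h2
  have hfin := H0_finite hK hg L
  obtain ⟨z, hz⟩ := finrank_le_one_iff.1 (hs L (by omega))
  choose d hd' using fun i => hz ⟨_, hmem i⟩
  exact ⟨z, d, fun i => (congrArg Subtype.val (hd' i)).symm⟩

end Pool.Agent.Helper395.BC
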