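import Pool.Agent.Helper395.BC.DualM

open scoped WithZero Matrix IntermediateField
open WithZero

set_option linter.unusedSectionVars false
set_option linter.unusedVariables false

namespace Pool.Agent.Helper395.BC

open Pool.Agent.Helper395.CS

variable {K : Type} [Field K] [Algebra ℂ K] {n m q k : ℕ}

/-- the twist of a bundle by a line bundle -/
noncomputable def btw (E : Bundle K n) (R : LineBundle K) : Bundle K n where
  frame v := (lsum R n).frame v * E.frame v
  finite := by
    refine ((lsum R n).finite.union E.finite).subset fun v hv => ?_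
    by_contra hcon
    simp only [Set.mem_union, Set.mem_ofPred_eq, not_or, not_not] at hcon
    obtain ⟨⟨a1, a2⟩, ⟨b1, b2⟩⟩ := hcon
    apply hv
    constructor
    · rw [Units.val_mul]
      exact Point.RegM.mul (M := ((lsum R n).frame v).1) a1 b1
    · rw [mul_inv_rev, Units.val_mul]
      exact Point.RegM.mul (M := (E.frame v)⁻¹.1) b2 a2

theorem mem_btw (E : Bundle K n) (R : LineBundle K) (v : Point K) (s : Fin n → K) :
    s ∈ (btw E R).stalk v ↔ (R.frame v : K)⁻¹ • s ∈ E.stalk v := by
  rw [mem_stalk_iff, mem_stalk_iff]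
  have h1 : ((btw E R).frame v)⁻¹.1 *ᵥ s = (E.frame v)⁻¹.1 *ᵥ ((R.frame v : K)⁻¹ • s) := by
    change ((lsum R n).frame v * E.frame v)⁻¹.1 *ᵥ s = _
    rw [mul_inv_rev, Units.val_mul, ← Matrix.mulVec_mulVec]
    congr 1
    have h2 : ((lsum R n).frame v).1 *ᵥ ((R.frame v : K)⁻¹ • s) = s := by
      change Matrix.diagonal (fun _ : Fin n => (R.frame v : K)) *ᵥ _ = s
      funext i
      rw [Matrix.mulVec_diagonal, Pi.smul_apply, smul_eq_mul, mul_inv_cancel_left₀
        (R.frame v).ne_zero]
    rw [← h2, gl_inv_mulVec, h2]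
  rw [h1]

theorem smul_frame_mem_btw (E : Bundle K n) (R : LineBundle K) {v : Point K} {s : Fin n → K}
    (hs : s ∈ E.stalk v) : (R.frame v : K) • s ∈ (btw E R).stalk v := by
  rw [mem_btw, smul_smul, inv_mul_cancel₀ (R.frame v).ne_zero, one_smul]
  exact hs

theorem btw_degree (E : Bundle K n) (R : LineBundle K) :
    (btw E R).degree = E.degree + n * R.degree := by
  rw [← lsum_degree, Bundle.degree, Bundle.degree, Bundle.degree]
  have h1 : ∀ v : Point K, -v.ord ((btw E R).frame v).1.det =
      -v.ord (E.frame v).1.det + -v.ord ((lsum R n).frame v).1.det := by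
    intro v
    change -v.ord ((lsum R n).frame v * E.frame v).1.det = _
    rw [Units.val_mul, Matrix.det_mul, v.ord_mul (gl_det_ne_zero _) (gl_det_ne_zero _)]
    ring
  rw [finsum_congr h1]
  apply finsum_add_distrib
  · refine E.finite_det.subset fun v hv => ?_
    rw [Function.mem_support, neg_ne_zero] at hv
    exact hv
  · refine (lsum R n).finite_det.subset fun v hv => ?_
    rw [Function.mem_support, neg_ne_zero] at hv
    exact hv

/-- if `H¹(E) = 0` then every adele is the sum of a constant one and one in `E` -/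
theorem exists_split_of_om {E : Bundle K n} (h : Om E = ⊥) (r : AA K n) :
    ∃ f : Fin n → K, ∀ v, f - r.1 v ∈ E.stalk v := by
  let W : Submodule ℂ (AA K n) :=
    { carrier := {r | ∃ f : Fin n → K, ∀ v, f - r.1 v ∈ E.stalk v}
      add_mem' := by
        rintro a b ⟨f, hf⟩ ⟨g, hg⟩
        refine ⟨f + g, fun v => ?_⟩
        have : f + g - (a + b).1 v = (f - a.1 v) + (g - b.1 v) := by
          change f + g - (a.1 v + b.1 v) = _
          abel
        rw [this]
        exact stalk_add (hf v) (hg v)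
      zero_mem' := ⟨0, fun v => by
        change (0 : Fin n → K) - 0 ∈ _
        rw [sub_zero]
        exact stalk_zero⟩
      smul_mem' := by
        rintro c a ⟨f, hf⟩
        refine ⟨c • f, fun v => ?_⟩
        have : c • f - (c • a).1 v = c • (f - a.1 v) := by
          rw [smul_sub]
          rfl
        rw [this]
        exact stalk_const_smul (hf v) c }
  change r ∈ W
  by_contra hr
  obtain ⟨w, hw, hW⟩ := Submodule.exists_le_ker_of_notMem hr
  have hwm : w ∈ Om E := by
    refine ⟨?_, ?_⟩
    · rintro r' ⟨s, hs⟩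
      apply hW
      refine ⟨s, fun v => ?_⟩
      rw [hs v, sub_self]
      exact stalk_zero
    · intro r' hr'
      apply hW
      refine ⟨0, fun v => ?_⟩
      rw [zero_sub]
      exact stalk_neg (hr' v)
  rw [h] at hwm
  have hw0 : w = 0 := hwm
  rw [hw0] at hw
  exact hw rfl

/-- the determinant of a matrix congruent to `1` -/
theorem val_det_one_add (hK : IsCurve K) (v : Point K) (Z : Matrix (Fin n) (Fin n) K)
    (hZ : v.RegM Z) : v.RegM (1 + unif v • Z) ∧ v.val (1 + unif v • Z).det = 1 := by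
  have hreg : v.RegM (1 + unif v • Z) := by
    intro i j
    rw [Matrix.add_apply, Matrix.smul_apply, smul_eq_mul]
    refine Valuation.map_add_le _ (Point.RegM.one i j) ?_
    rw [map_mul]
    exact mul_le_one' (val_unif_lt v).le (hZ i j)
  refine ⟨hreg, le_antisymm (v.val_det_le_one _ hreg) ?_⟩
  by_contra hcon
  obtain ⟨c, hc0, hc⟩ := exists_singular hK v _ hreg (not_le.1 hcon)
  apply hc0
  funext i
  have h1 := hc (Pi.single i 1) (by
    intro l
    rcases eq_or_ne l i with rfl | hl
    · rw [Pi.single_eq_same, map_one]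
    · rw [Pi.single_eq_of_ne hl]; simp)
  have h2 : ∑ l, algebraMap ℂ K (c l) * ((1 + unif v • Z) *ᵥ Pi.single i 1) l =
      algebraMap ℂ K (c i) + ∑ l, algebraMap ℂ K (c l) * (unif v * Z l i) := by
    rw [Matrix.add_mulVec, Matrix.one_mulVec]
    simp only [Pi.add_apply, mul_add, Finset.sum_add_distrib]
    congr 1
    · rw [Finset.sum_eq_single i]
      · rw [Pi.single_eq_same, mul_one]
      · intro l _ hl
        rw [Pi.single_eq_of_ne hl, mul_zero]
      · simp
    · refine Finset.sum_congr rfl fun l _ => ?_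
      rw [Matrix.mulVec_single_one]
      rfl
  rw [h2] at h1
  have h3 : v.val (∑ l, algebraMap ℂ K (c l) * (unif v * Z l i)) < 1 := by
    refine Valuation.map_sum_lt _ one_ne_zero fun l _ => ?_
    rw [map_mul, map_mul]
    refine (mul_le_of_le_one_left' (v.const_le _)).trans_lt ?_
    exact (mul_le_of_le_one_right' (hZ l i)).trans_lt (val_unif_lt v)
  by_contra hci
  have h4 := v.const (c i) hci
  have h5 : v.val (algebraMap ℂ K (c i)) < 1 := by
    have : algebraMap ℂ K (c i) = (algebraMap ℂ K (c i) +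
        ∑ l, algebraMap ℂ K (c l) * (unif v * Z l i)) -
        ∑ l, algebraMap ℂ K (c l) * (unif v * Z l i) := by ring
    rw [this]
    exact Valuation.map_sub_lt _ h1 h3
  exact h5.ne h4

/-- a bundle is globally generated if `H¹(E(-v)) = 0` for all `v` -/
theorem gen_of_om (hK : IsCurve K) (E : Bundle K n)
    (h : ∀ v, Om (btw E (linv (lpt v))) = ⊥) (v : Point K) {s : Fin n → K} (hs : s ∈ E.stalk v) :
    ∃ (a : Fin n → K) (σ : Fin n → Fin n → K), v.Reg a ∧ (∀ i, σ i ∈ E.sections) ∧
      s = ∑ i, a i • σ i := by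
  classical
  have key : ∀ x ∈ E.stalk v, ∃ f ∈ E.sections, ∃ y ∈ E.stalk v, f = x + unif v • y := by
    intro x hx
    have hr : (Pi.single v x : Point K → Fin n → K) ∈ AA K n := by
      apply mem_AA_of_stalk E
      intro w
      rcases eq_or_ne w v with rfl | hw
      · rw [Pi.single_eq_same]; exact hx
      · rw [Pi.single_eq_of_ne hw]; exact stalk_zero
    obtain ⟨f, hf⟩ := exists_split_of_om (h v) ⟨_, hr⟩
    have hfr : ∀ w, (((linv (lpt v)).frame w : Kˣ) : K)⁻¹ = ((lpt v).frame w : K) := by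
      intro w
      change ((((lpt v).frame w)⁻¹ : Kˣ) : K)⁻¹ = _
      rw [Units.val_inv_eq_inv_val, inv_inv]
    have h1 : (unif v)⁻¹ • (f - x) ∈ E.stalk v := by
      have := hf v
      rw [mem_btw, hfr, lpt_frame_self] at this
      change (unif v)⁻¹ • (f - (Pi.single v x : Point K → Fin n → K) v) ∈ _ at this
      rwa [Pi.single_eq_same] at this
    have h2 : f = x + unif v • ((unif v)⁻¹ • (f - x)) := by
      rw [smul_smul, mul_inv_cancel₀ (unif_ne_zero v), one_smul, add_sub_cancel]
    refine ⟨f, fun w => ?_, _, h1, h2⟩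
    rcases eq_or_ne w v with rfl | hw
    · rw [h2]
      exact stalk_add hx (stalk_smul h1 (val_unif_lt w).le)
    · have := hf w
      rw [mem_btw, hfr, lpt_frame_ne hw, Units.val_one, one_smul] at this
      change f - (Pi.single v x : Point K → Fin n → K) w ∈ _ at this
      rwa [Pi.single_eq_of_ne hw, sub_zero] at this
  have hcol : ∀ i, (E.frame v).1 *ᵥ Pi.single i 1 ∈ E.stalk v := by
    intro i
    apply frame_mulVec_mem
    intro l
    rcases eq_or_ne l i with rfl | hl
    · rw [Pi.single_eq_same, map_one]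
    · rw [Pi.single_eq_of_ne hl]; simp
  choose σ hσ y hy hσy using fun i => key _ (hcol i)
  -- the matrix `Z`
  let Z : Matrix (Fin n) (Fin n) K := fun l i => ((E.frame v)⁻¹.1 *ᵥ y i) l
  have hZ : v.RegM Z := fun l i => hy i l
  obtain ⟨hreg, hdet⟩ := val_det_one_add hK v Z hZ
  have hdet0 : (1 + unif v • Z).det ≠ 0 := by
    intro h0
    rw [h0, map_zero] at hdet
    exact zero_ne_one hdet
  set X : GL (Fin n) K := Matrix.GeneralLinearGroup.mkOfDetNeZero _ hdet0 with hX
  have hXinv : v.RegM X⁻¹.1 := Point.RegM.inv (M := X) hreg hdet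
  have hcolσ : ∀ a : Fin n → K, ∑ i, a i • σ i = (E.frame v).1 *ᵥ (X.1 *ᵥ a) := by
    intro a
    have h1 : ∀ i, σ i = (E.frame v).1 *ᵥ (X.1 *ᵥ Pi.single i 1) := by
      intro i
      have h2 : X.1 *ᵥ Pi.single i 1 = Pi.single i 1 + unif v • ((E.frame v)⁻¹.1 *ᵥ y i) := by
        change (1 + unif v • Z) *ᵥ Pi.single i 1 = _
        rw [Matrix.add_mulVec, Matrix.one_mulVec, Matrix.smul_mulVec, Matrix.mulVec_single_one]
        rfl
      rw [h2, Matrix.mulVec_add, Matrix.mulVec_smul, gl_mulVec_inv, ← hσy]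
    simp only [h1, ← Matrix.mulVec_smul]
    rw [← Matrix.mulVec_sum, ← Matrix.mulVec_sum]
    congr 2
    conv_rhs => rw [← Finset.univ_sum_single a]
    refine Finset.sum_congr rfl fun i _ => ?_
    rw [← Pi.single_smul, smul_eq_mul, mul_one]
  refine ⟨X⁻¹.1 *ᵥ ((E.frame v)⁻¹.1 *ᵥ s), σ, hXinv.mulVec hs, hσ, ?_⟩
  rw [hcolσ, gl_mulVec_inv, gl_mulVec_inv]

/-- a stable bundle of positive degree has no nonzero map to a line bundle of degree at most `0` -/
theorem stable_no_hom (hK : IsCurve K) {E : Bundle K n} (hE : IsStable E) (hn : 2 ≤ n)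
    (hd : 0 < E.degree) {N : LineBundle K} (hN : N.degree ≤ 0) (l : (Fin n → K) →ₗ[K] K)
    (hl : ∀ (v : Point K) s, s ∈ E.stalk v → l s ∈ N.stalk v) : l = 0 := by
  by_contra hl0
  let P : (Fin n → K) →ₗ[K] (Fin 1 → K) := LinearMap.pi fun _ => l
  have hP : Function.Surjective P := by
    intro t
    obtain ⟨s, hs⟩ := LinearMap.surjective hl0 (t 0)
    refine ⟨s, ?_⟩
    funext i
    rw [Subsingleton.elim i 0]
    exact hs
  obtain ⟨p, rfl⟩ : ∃ p, n = p + 1 := ⟨n - 1, by omega⟩
  obtain ⟨F, j, hF, hex, hex'⟩ := exists_ker_sub hK E P hP rfl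
  have h1 := (degree_exact hK (G := lsum N 1) hF hP hex hex' (fun v s hs => by
    rw [mem_lsum_stalk]
    intro i
    exact hl v s hs)).1
  rw [lsum_degree, Nat.cast_one, one_mul] at h1
  have h2 := hE p F j (by omega) (by omega) hF
  have hp : (0 : ℚ) < p := by
    have : 0 < p := by omega
    exact_mod_cast this
  rw [div_lt_div_iff₀ hp (by push_cast; linarith)] at h2
  have h3 : (E.degree : ℚ) ≤ F.degree := by
    have : E.degree ≤ F.degree := by omega
    exact_mod_cast this
  have h4 : (0 : ℚ) < E.degree := by exact_mod_cast hd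
  push_cast at h2
  nlinarith

/-- twists of stable bundles by line bundles of large degree are nonspecial -/
theorem om_btw_stable (hK : IsCurve K) (hg : genus K ≠ 0) {E : Bundle K n} (hE : IsStable E)
    (hn : 2 ≤ n) (hd : 0 < E.degree) {R : LineBundle K} (hR : 2 * genus K - 2 ≤ R.degree) :
    Om (btw E R) = ⊥ := by
  have h1 : dualK hK hg (btw E R) = ⊥ := by
    rw [eq_bot_iff]
    intro f hf
    let l : (Fin n → K) →ₗ[K] K :=
      { toFun := fun s => ∑ i, f i * s i
        map_add' := fun x y => by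
          rw [← Finset.sum_add_distrib]
          exact Finset.sum_congr rfl fun i _ => mul_add _ _ _
        map_smul' := fun c x => by
          rw [RingHom.id_apply, smul_eq_mul, Finset.mul_sum]
          exact Finset.sum_congr rfl fun i _ => by
            rw [Pi.smul_apply, smul_eq_mul]; ring }
    have hl := stable_no_hom hK hE hn hd (N := lmul (can hK hg) (linv R)) (by
      rw [lmul_degree, linv_degree, can_degree]
      omega) l (fun v s hs => by
      rw [mem_lmul_linv]
      have h2 := hf v _ (smul_frame_mem_btw E R hs)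
      have h3 : ∑ i, f i * ((R.frame v : K) • s) i = l s * (R.frame v : K) := by
        change _ = (∑ i, f i * s i) * _
        rw [Finset.sum_mul]
        exact Finset.sum_congr rfl fun i _ => by
          rw [Pi.smul_apply, smul_eq_mul]; ring
      rwa [h3] at h2)
    rw [Submodule.mem_bot]
    funext i
    have h4 := LinearMap.congr_fun hl (Pi.single i 1)
    change ∑ p, f p * (Pi.single i 1 : Fin n → K) p = 0 at h4
    rw [Finset.sum_eq_single i] at h4
    · simpa using h4
    · intro p _ hp
      rw [Pi.single_eq_of_ne hp, mul_zero]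
    · simp
  rw [eq_bot_iff]
  intro w hw
  obtain ⟨f, hf⟩ := dualMap_surjective hK hg (btw E R) ⟨w, hw⟩
  have hf0 : f = 0 := by
    apply Subtype.ext
    exact (Submodule.mem_bot ℂ).1 (h1.le f.2)
  rw [hf0, map_zero] at hf
  exact (congrArg Subtype.val hf).symm

theorem om_congr {E F : Bundle K n} (h : ∀ v, E.stalk v = F.stalk v) : Om E = Om F := by
  ext w
  constructor
  · rintro ⟨h1, h2⟩
    exact ⟨h1, fun r hr => h2 r fun v => by rw [h v]; exact hr v⟩
  · rintro ⟨h1, h2⟩
    exact ⟨h1, fun r hr => h2 r fun v => by rw [← h v]; exact hr v⟩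

theorem btw_btw (E : Bundle K n) (R S : LineBundle K) (v : Point K) :
    (btw (btw E R) S).stalk v = (btw E (lmul R S)).stalk v := by
  ext s
  rw [mem_btw, mem_btw, mem_btw, smul_smul]
  have : ((lmul R S).frame v : K) = (R.frame v : K) * (S.frame v : K) := by
    change ((R.frame v * S.frame v : Kˣ) : K) = _
    rw [Units.val_mul]
  rw [this, mul_inv]

/-- global generation of twists of stable bundles -/
theorem gen_btw_stable (hK : IsCurve K) (hg : genus K ≠ 0) {E : Bundle K n} (hE : IsStable E)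
    (hn : 2 ≤ n) (hd : 0 < E.degree) {R : LineBundle K} (hR : 2 * genus K - 1 ≤ R.degree)
    (v : Point K) {s : Fin n → K} (hs : s ∈ (btw E R).stalk v) :
    ∃ (a : Fin n → K) (σ : Fin n → Fin n → K), v.Reg a ∧ (∀ i, σ i ∈ (btw E R).sections) ∧
      s = ∑ i, a i • σ i := by
  apply gen_of_om hK _ _ v hs
  intro w
  rw [om_congr (btw_btw E R _)]
  apply om_btw_stable hK hg hE hn hd
  rw [lmul_degree, linv_degree, lpt_degree]
  omega

/-- dimension of the space of sections of twists of stable bundles -/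
theorem finrank_btw_stable (hK : IsCurve K) (hg : genus K ≠ 0) {E : Bundle K n} (hE : IsStable E)
    (hn : 2 ≤ n) (hd : 0 < E.degree) {R : LineBundle K} (hR : 2 * genus K - 2 ≤ R.degree) :
    FiniteDimensional ℂ (btw E R).sections ∧ (Module.finrank ℂ (btw E R).sections : ℤ) =
      E.degree + n * R.degree + n * (1 - genus K) := by
  obtain ⟨h1, h2, h3⟩ := hasChi hK hg (btw E R)
  rw [om_btw_stable hK hg hE hn hd hR, finrank_bot, btw_degree] at h3
  exact ⟨h1, by omega⟩

theorem om1_eq_bot (hK : IsCurve K) (hg : genus K ≠ 0) {L : LineBundle K}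
    (hL : 2 * genus K - 1 ≤ L.degree) : Om1 L = ⊥ := by
  obtain ⟨f1, f2, h1⟩ := lHasChi hK hg L
  have h2 := (rrL hK hg L).2
  rw [H0_eq_bot hK (L := lmul (can hK hg) (linv L)) (by
    rw [lmul_degree, linv_degree, can_degree]; omega), finrank_bot] at h2
  apply Submodule.finrank_eq_zero.1
  omega

/-- line bundles of large degree are globally generated -/
theorem exists_line_gen (hK : IsCurve K) (hg : genus K ≠ 0) {R : LineBundle K}
    (hR : 2 * genus K ≤ R.degree) (v : Point K) : ∃ ρ ∈ H0 R, v.val ρ = v.val (R.frame v : K) := by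
  apply exists_generator
  obtain ⟨f1, f2, h1⟩ := lHasChi hK hg R
  obtain ⟨f3, f4, h2⟩ := lHasChi hK hg (lsub R v)
  rw [om1_eq_bot hK hg (by omega), finrank_bot] at h1
  rw [om1_eq_bot hK hg (by rw [lsub_degree]; omega), finrank_bot, lsub_degree] at h2
  omega

/-- Serre vanishing -/
theorem exists_vanishing (hK : IsCurve K) (hg : genus K ≠ 0) (M : Bundle K m) :
    ∃ c : ℤ, ∀ R : LineBundle K, c ≤ R.degree → Om (btw M R) = ⊥ := by
  obtain ⟨L, hL⟩ := exists_lsum_le M
  refine ⟨2 * genus K - 1 - L.degree, fun R hR => ?_⟩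
  have hLR : Om1 (lmul L R) = ⊥ := by
    apply om1_eq_bot hK hg
    rw [lmul_degree]
    omega
  have hle : ∀ (v : Point K) (s : Fin m → K), (∀ i, s i ∈ (lmul L R).stalk v) →
      s ∈ (btw M R).stalk v := by
    intro v s hs
    rw [mem_btw]
    apply hL
    intro i
    have h1 := hs i
    rw [mem_lmul, mul_comm] at h1
    change v.val (((R.frame v : K)⁻¹ • s) i) ≤ _
    rw [Pi.smul_apply, smul_eq_mul, map_mul, map_inv₀, inv_mul_le_iff₀ (frame_pos R v)]
    exact h1
  rw [eq_bot_iff]
  rintro w ⟨hw1, hw2⟩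
  rw [Submodule.mem_bot]
  refine LinearMap.ext fun r => ?_
  rw [← sum_single_proj r, map_sum, LinearMap.zero_apply]
  refine Finset.sum_eq_zero fun i _ => ?_
  have h1 : w ∘ₗ singleA i ∈ Om1 (lmul L R) := by
    refine ⟨?_, ?_⟩
    · rintro r ⟨s, hs⟩
      exact hw1 _ ⟨Pi.single i s, fun v => by
        change (Pi.single i (r.1 v) : Fin m → K) = _
        rw [hs v]⟩
    · intro r hr
      refine hw2 _ fun v => hle v _ fun j => ?_
      change (Pi.single i (r.1 v) : Fin m → K) j ∈ _
      rcases eq_or_ne j i with rfl | hj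
      · rw [Pi.single_eq_same]; exact hr v
      · rw [Pi.single_eq_of_ne hj]; exact lstalk_zero
  rw [hLR] at h1
  have h2 : w ∘ₗ singleA i = 0 := h1
  exact LinearMap.congr_fun h2 (projA i r)

/-- sections of a twist by a line bundle of large degree lift -/
theorem exists_surj_bound (hK : IsCurve K) (hg : genus K ≠ 0) (E : Bundle K n) (P : LineBundle K)
    (G : Fin k → Fin n → K) (hG : ∀ (v : Point K) s, s ∈ E.stalk v ↔
      ∃ t : Fin k → K, (∀ i, t i ∈ P.stalk v) ∧ s = ∑ i, t i • G i) :
    ∃ c : ℤ, ∀ R : LineBundle K, c ≤ R.degree → ∀ s ∈ (btw E R).sections,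
      ∃ t : Fin k → K, (∀ i, t i ∈ H0 (lmul P R)) ∧ s = ∑ i, t i • G i := by
  classical
  have hsurj : Function.Surjective (evMap G) := by
    intro s
    obtain ⟨v⟩ := point_nonempty hK
    obtain ⟨a, ha0, ha⟩ := exists_smul_mem E v s
    obtain ⟨t, -, ht⟩ := (hG v _).1 ha
    refine ⟨a⁻¹ • t, ?_⟩
    rw [map_smul, evMap_apply, ← ht, smul_smul, inv_mul_cancel₀ ha0, one_smul]
  have hdim := LinearMap.finrank_range_add_finrank_ker (evMap G)
  rw [LinearMap.range_eq_top.2 hsurj, finrank_top] at hdim
  simp at hdim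
  obtain ⟨p, hp⟩ : ∃ p, k = p + n := ⟨k - n, by omega⟩
  obtain ⟨M, j, hj, h1, h2⟩ := exists_ker_sub hK (lsum P k) (evMap G) hsurj hp
  obtain ⟨c, hc⟩ := exists_vanishing hK hg M
  refine ⟨c, fun R hR s hs => ?_⟩
  obtain ⟨t0, ht0⟩ := hsurj s
  have hloc : ∀ v : Point K, ∃ t : Fin k → K, (∀ i, t i ∈ (lmul P R).stalk v) ∧ evMap G t = s ∧
      ((∀ i, t0 i ∈ (lmul P R).stalk v) → t = t0) := by
    intro v
    by_cases h0 : ∀ i, t0 i ∈ (lmul P R).stalk v
    · exact ⟨t0, h0, ht0, fun _ => rfl⟩
    · have h3 := hs v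
      rw [mem_btw] at h3
      obtain ⟨t, ht, hts⟩ := (hG v _).1 h3
      refine ⟨(R.frame v : K) • t, fun i => ?_, ?_, fun h => absurd h h0⟩
      · rw [mem_lmul, Pi.smul_apply, smul_eq_mul, map_mul, mul_comm]
        exact mul_le_mul_left (ht i) _
      · rw [map_smul, evMap_apply, ← hts, smul_smul, mul_inv_cancel₀ (R.frame v).ne_zero, one_smul]
  choose t ht hts ht0' using hloc
  have hx : ∀ v, ∃ x, j x = t0 - t v := by
    intro v
    exact h1 _ (by rw [map_sub, ht0, hts, sub_self])
  choose x hx using hx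
  have hxA : x ∈ AA K p := by
    have h3 : {v : Point K | ¬ ∀ i, t0 i ∈ (lmul P R).stalk v}.Finite := by
      have h4 : {v : Point K | ¬ v.Reg t0}.Finite := diag_mem_AA hK t0
      refine (h4.union (lmul P R).finite).subset fun v hv => ?_
      by_contra hcon
      simp only [Set.mem_union, Set.mem_ofPred_eq, not_or, not_not] at hcon
      apply hv
      intro i
      change v.val (t0 i) ≤ v.val ((lmul P R).frame v : K)
      rw [hcon.2]
      exact hcon.1 i
    refine h3.subset fun v hv h => hv ?_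
    have h4 : x v = 0 := by
      apply hj.injective
      rw [hx, ht0' v h, sub_self, map_zero]
    rw [h4]
    intro i
    simp
  obtain ⟨f, hf⟩ := exists_split_of_om (hc R hR) ⟨x, hxA⟩
  refine ⟨t0 - j f, fun i v => ?_, ?_⟩
  · have h3 : t0 - j f = t v - j (f - x v) := by
      rw [map_sub, hx]
      abel
    have h4 := hf v
    change f - x v ∈ _ at h4
    rw [mem_btw, hj.stalk, mem_lsum_stalk] at h4
    have h5 := h4 i
    rw [map_smul, Pi.smul_apply, smul_eq_mul] at h5
    have h6 : v.val (j (f - x v) i) ≤ v.val (P.frame v : K) * v.val (R.frame v : K) := by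
      have h7 : v.val ((R.frame v : K)⁻¹ * j (f - x v) i) ≤ v.val (P.frame v : K) := h5
      rw [map_mul, map_inv₀, inv_mul_le_iff₀ (frame_pos R v), mul_comm] at h7
      exact h7
    rw [h3, mem_lmul]
    exact Valuation.map_sub_le _ ((mem_lmul P R v _).1 (ht v i)) h6
  · have h3 : evMap G (t0 - j f) = s := by rw [map_sub, ht0, h2, sub_zero]
    exact h3.symm

end Pool.Agent.Helper395.BC
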