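import Pool.Agent.Helper395.BC.Exact

open scoped WithZero Matrix IntermediateField
open WithZero

set_option linter.unusedSectionVars false
set_option linter.unusedVariables false

namespace Pool.Agent.Helper395.BC

open Pool.Agent.Helper395.CS

variable {K : Type} [Field K] [Algebra ℂ K] {n m q k : ℕ}

/-- every subspace is the image of a coordinate space -/
theorem exists_param (U : Submodule K (Fin n → K)) (hU : Module.finrank K U = m) :
    ∃ j : (Fin m → K) →ₗ[K] (Fin n → K), Function.Injective j ∧ LinearMap.range j = U := by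
  have e : (Fin m → K) ≃ₗ[K] U := LinearEquiv.ofFinrankEq _ _ (by simp [hU])
  refine ⟨U.subtype ∘ₗ e.toLinearMap, ?_, ?_⟩
  · exact (Submodule.injective_subtype U).comp e.injective
  · rw [LinearMap.range_comp, LinearEquiv.range, Submodule.map_top, Submodule.range_subtype]

/-- existence of subbundles -/
theorem exists_sub (hK : IsCurve K) (E : Bundle K n) (j : (Fin m → K) →ₗ[K] (Fin n → K))
    (hj : Function.Injective j) : ∃ F : Bundle K m, IsSubbundle F E j := by
  obtain ⟨J, rfl⟩ : ∃ J : Matrix (Fin n) (Fin m) K, j = J.mulVecLin :=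
    ⟨LinearMap.toMatrix' j, (Matrix.toLin'_toMatrix' j).symm⟩
  exact exists_subbundle hK E J hj

theorem mem_trivial (v : Point K) (s : Fin n → K) :
    s ∈ (trivialBundle K n).stalk v ↔ v.Reg s := by
  rw [mem_stalk_iff]
  change v.Reg ((1 : GL (Fin n) K)⁻¹.1 *ᵥ s) ↔ _
  rw [inv_one, Units.val_one, Matrix.one_mulVec]

/-- every vector is a multiple of a vector in the stalk -/
theorem exists_smul_mem (E : Bundle K n) (v : Point K) (s : Fin n → K) :
    ∃ a : K, a ≠ 0 ∧ a • s ∈ E.stalk v := by
  have h1 : ∀ z : K, ∃ k : ℕ, ∀ l : ℕ, k ≤ l → v.val ((unif v) ^ l * z) ≤ 1 := by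
    intro z
    rcases eq_or_ne z 0 with rfl | hz
    · exact ⟨0, fun l _ => by simp⟩
    · refine ⟨(-v.ord z).toNat, fun l hl => ?_⟩
      rw [v.val_le_one_iff (mul_ne_zero (pow_ne_zero _ (unif_ne_zero v)) hz),
        v.ord_mul (pow_ne_zero _ (unif_ne_zero v)) hz, v.ord_pow, ord_unif]
      omega
  choose l hl using h1
  refine ⟨(unif v) ^ (∑ i, l (((E.frame v)⁻¹.1 *ᵥ s) i)), pow_ne_zero _ (unif_ne_zero v), ?_⟩
  rw [mem_stalk_iff, Matrix.mulVec_smul]
  intro i
  rw [Pi.smul_apply, smul_eq_mul]
  apply hl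
  exact Finset.single_le_sum (f := fun i => l (((E.frame v)⁻¹.1 *ᵥ s) i))
    (fun _ _ => Nat.zero_le _) (Finset.mem_univ i)

/-- the evaluation map -/
def evMap (b : Fin k → Fin n → K) : (Fin k → K) →ₗ[K] (Fin n → K) where
  toFun t := ∑ i, t i • b i
  map_add' s t := by
    rw [← Finset.sum_add_distrib]
    exact Finset.sum_congr rfl fun i _ => add_smul _ _ _
  map_smul' c t := by
    rw [RingHom.id_apply, Finset.smul_sum]
    exact Finset.sum_congr rfl fun i _ => mul_smul _ _ _

theorem evMap_apply (b : Fin k → Fin n → K) (t : Fin k → K) : evMap b t = ∑ i, t i • b i := rfl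

/-- generation, in terms of a basis -/
theorem exists_coord {E : Bundle K n} {V : Submodule ℂ (Fin n → K)} (b : Module.Basis (Fin k) ℂ V)
    (h : IsGeneratedBy E V) (v : Point K) {s : Fin n → K} (hs : s ∈ E.stalk v) :
    ∃ t : Fin k → K, v.Reg t ∧ evMap (fun i => (b i : Fin n → K)) t = s := by
  obtain ⟨l, a, t, ha, ht, rfl⟩ := h.2 v s hs
  refine ⟨fun i => ∑ p, a p * algebraMap ℂ K (b.repr ⟨t p, ht p⟩ i), ?_, ?_⟩
  · intro i
    refine Valuation.map_sum_le _ fun p _ => ?_
    rw [map_mul]
    exact mul_le_one' (ha p) (v.const_le _)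
  · rw [evMap_apply]
    have h1 : ∀ p, t p = ∑ i, b.repr ⟨t p, ht p⟩ i • (b i : Fin n → K) := by
      intro p
      have := congrArg Subtype.val (b.sum_repr ⟨t p, ht p⟩)
      rw [AddSubmonoidClass.coe_finsetSum] at this
      exact this.symm
    have h2 : ∀ p, a p • t p = ∑ i, (a p * algebraMap ℂ K (b.repr ⟨t p, ht p⟩ i)) •
        (b i : Fin n → K) := by
      intro p
      conv_lhs => rw [h1 p, Finset.smul_sum]
      exact Finset.sum_congr rfl fun i _ => by rw [mul_smul, algebraMap_smul]
    rw [Finset.sum_congr rfl fun p _ => h2 p, Finset.sum_comm]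
    exact Finset.sum_congr rfl fun i _ => Finset.sum_smul

theorem evMap_mem {E : Bundle K n} {b : Fin k → Fin n → K} (hb : ∀ i, b i ∈ E.sections)
    (v : Point K) {t : Fin k → K} (ht : v.Reg t) : evMap b t ∈ E.stalk v :=
  stalk_smul_add E v t ht b fun i => hb i v

theorem evMap_surjective (hK : IsCurve K) {E : Bundle K n} {V : Submodule ℂ (Fin n → K)}
    (b : Module.Basis (Fin k) ℂ V) (h : IsGeneratedBy E V) :
    Function.Surjective (evMap (fun i => (b i : Fin n → K))) := by
  intro s
  obtain ⟨v⟩ := point_nonempty hK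
  obtain ⟨a, ha0, ha⟩ := exists_smul_mem E v s
  obtain ⟨t, -, ht⟩ := exists_coord b h v ha
  refine ⟨a⁻¹ • t, ?_⟩
  rw [map_smul, ht, smul_smul, inv_mul_cancel₀ ha0, one_smul]

/-- rank and degree of the kernel bundle -/
theorem kernel_rank_degree (hK : IsCurve K) {E : Bundle K n} {V : Submodule ℂ (Fin n → K)}
    (b : Module.Basis (Fin k) ℂ V) (h : IsGeneratedBy E V) {M : Bundle K m}
    {j : (Fin m → K) →ₗ[K] (Fin k → K)} (hj : Function.Injective j)
    (hr : ∀ t : Fin k → K, t ∈ LinearMap.range j ↔ ∑ i, t i • (b i : Fin n → K) = 0)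
    (hs : ∀ (v : Point K) (x : Fin m → K), x ∈ M.stalk v ↔ ∀ i, v.val (j x i) ≤ 1) :
    m + n = k ∧ M.degree = -E.degree := by
  have hsub : IsSubbundle M (trivialBundle K k) j := ⟨hj, fun v x => by
    rw [mem_trivial, hs v x]
    rfl⟩
  have hsurj := evMap_surjective hK b h
  have hbE : ∀ i, (b i : Fin n → K) ∈ E.sections := fun i => h.1 (b i).2
  constructor
  · have h1 := LinearMap.finrank_range_add_finrank_ker (evMap (fun i => (b i : Fin n → K)))
    have h2 : LinearMap.ker (evMap (fun i => (b i : Fin n → K))) = LinearMap.range j := by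
      ext t
      rw [LinearMap.mem_ker, hr, evMap_apply]
    rw [LinearMap.range_eq_top.2 hsurj, finrank_top, h2, LinearMap.finrank_range_of_inj hj] at h1
    simp at h1
    omega
  · have h3 := (degree_exact hK (E := trivialBundle K k) (F := M) (G := E)
      (P := evMap (fun i => (b i : Fin n → K))) hsub hsurj
      (fun t ht => (hr t).2 ht) (fun x => (hr _).1 ⟨x, rfl⟩)
      (fun v t ht => evMap_mem hbE v ((mem_trivial v t).1 ht))).2 (fun v s hs => by
        obtain ⟨t, ht, hts⟩ := exists_coord b h v hs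
        exact ⟨t, (mem_trivial v t).2 ht, hts⟩)
    rw [trivialBundle_degree] at h3
    omega

/-- the kernel of a linear map defines a subbundle -/
theorem exists_ker_sub (hK : IsCurve K) (E : Bundle K n) (P : (Fin n → K) →ₗ[K] (Fin q → K))
    (hP : Function.Surjective P) (hn : n = m + q) :
    ∃ (F : Bundle K m) (j : (Fin m → K) →ₗ[K] (Fin n → K)), IsSubbundle F E j ∧
      (∀ s, P s = 0 → s ∈ LinearMap.range j) ∧ (∀ x, P (j x) = 0) := by
  have h1 := LinearMap.finrank_range_add_finrank_ker P
  rw [LinearMap.range_eq_top.2 hP, finrank_top] at h1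
  simp at h1
  obtain ⟨j, hj, hr⟩ := exists_param (LinearMap.ker P) (m := m) (by omega)
  obtain ⟨F, hF⟩ := exists_sub hK E j hj
  refine ⟨F, j, hF, fun s hs => ?_, fun x => ?_⟩
  · rw [hr]; exact hs
  · have : j x ∈ LinearMap.ker P := by rw [← hr]; exact ⟨x, rfl⟩
    exact this

/-- a stable bundle of positive degree has no functional with regular values -/
theorem stable_no_functional (hK : IsCurve K) {E : Bundle K n} (hE : IsStable E) (hn : 2 ≤ n)
    (hd : 0 < E.degree) (l : (Fin n → K) →ₗ[K] K)
    (hl : ∀ (v : Point K) s, s ∈ E.stalk v → v.val (l s) ≤ 1) : l = 0 := by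
  by_contra hl0
  let P : (Fin n → K) →ₗ[K] (Fin 1 → K) := LinearMap.pi fun _ => l
  have hP : Function.Surjective P := by
    intro t
    obtain ⟨s, hs⟩ := LinearMap.surjective hl0 (t 0)
    refine ⟨s, ?_⟩
    funext i
    rw [Subsingleton.elim i 0]
    exact hs
  obtain ⟨p, rfl⟩ : ∃ p, n = p + 1 := ⟨n - 1, by omega⟩
  obtain ⟨F, j, hF, hex, hex'⟩ := exists_ker_sub hK E P hP rfl
  have h1 := (degree_exact hK (G := trivialBundle K 1) hF hP hex hex' (fun v s hs => by
    rw [mem_trivial]
    intro i
    exact hl v s hs)).1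
  rw [trivialBundle_degree, add_zero] at h1
  have h2 := hE p F j (by omega) (by omega) hF
  have hp : (0 : ℚ) < p := by
    have : 0 < p := by omega
    exact_mod_cast this
  rw [div_lt_div_iff₀ hp (by push_cast; linarith)] at h2
  have h3 : (E.degree : ℚ) ≤ F.degree := by exact_mod_cast h1
  have h4 : (0 : ℚ) < E.degree := by exact_mod_cast hd
  push_cast at h2
  nlinarith

/-- the kernel bundle is not semistable if Riemann-Roch forces a map from its dual to `Ω` -/
theorem kernel_not_semistable (hK : IsCurve K) (hg : genus K ≠ 0) {E : Bundle K n}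
    (hE : IsStable E) (hn : 2 ≤ n) (hd : 0 < E.degree) {V : Submodule ℂ (Fin n → K)}
    (b : Module.Basis (Fin k) ℂ V) (hgen : IsGeneratedBy E V) {M : Bundle K m}
    (hM : IsKernelBundle M V b) (h1 : E.degree + m * (1 - genus K) < k)
    (h2 : m * (2 * genus K - 2) < E.degree) : ¬ IsSemistable M := by
  classical
  intro hss
  obtain ⟨j, hj, hr, hs⟩ := hM
  obtain ⟨hrank, hdeg⟩ := kernel_rank_degree hK b hgen hj hr hs
  have hbE : ∀ i, (b i : Fin n → K) ∈ E.sections := fun i => hgen.1 (b i).2
  have hsurj := evMap_surjective hK b hgen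
  -- the coordinates of `j` are sections of the dual bundle
  let row : Fin k → Fin m → K := fun i l => j (Pi.single l 1) i
  have hrow : ∀ (c : Fin k → ℂ) (x : Fin m → K),
      ∑ l, (∑ i, c i • row i) l * x l = ∑ i, algebraMap ℂ K (c i) * j x i := by
    intro c x
    have hx : j x = ∑ l, x l • j (Pi.single l 1) := by
      conv_lhs => rw [← Finset.univ_sum_single x, map_sum]
      refine Finset.sum_congr rfl fun l _ => ?_
      rw [← map_smul]
      congr 1
      rw [← Pi.single_smul, smul_eq_mul, mul_one]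
    have hx2 : ∀ i, j x i = ∑ l, x l * row i l := by
      intro i
      rw [hx, Finset.sum_apply]
      rfl
    simp only [hx2, Finset.sum_apply, Finset.sum_mul, Finset.mul_sum]
    rw [Finset.sum_comm]
    refine Finset.sum_congr rfl fun i _ => Finset.sum_congr rfl fun l _ => ?_
    rw [Pi.smul_apply, Algebra.smul_def]
    ring
  have hrowmem : ∀ c : Fin k → ℂ, (∑ i, c i • row i) ∈ (bdual M).sections := by
    intro c v
    rw [mem_bdual]
    intro x hx
    rw [hrow]
    refine Valuation.map_sum_le _ fun i _ => ?_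
    rw [map_mul]
    exact mul_le_one' (v.const_le _) ((hs v x).1 hx i)
  let Φ : (Fin k → ℂ) →ₗ[ℂ] (bdual M).sections :=
    { toFun := fun c => ⟨∑ i, c i • row i, hrowmem c⟩
      map_add' := fun c d => by
        apply Subtype.ext
        change ∑ i, (c + d) i • row i = ∑ i, c i • row i + ∑ i, d i • row i
        rw [← Finset.sum_add_distrib]
        exact Finset.sum_congr rfl fun i _ => add_smul _ _ _
      map_smul' := fun a c => by
        apply Subtype.ext
        change ∑ i, (a • c) i • row i = a • ∑ i, c i • row i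
        rw [Finset.smul_sum]
        exact Finset.sum_congr rfl fun i _ => mul_smul _ _ _ }
  have hΦ : Function.Injective Φ := by
    rw [← LinearMap.ker_eq_bot, LinearMap.ker_eq_bot']
    intro c hc
    have h3 : ∑ i, c i • row i = 0 := congrArg Subtype.val hc
    -- the functional `c` on `K ^ k` factors through the evaluation map
    let lc : (Fin k → K) →ₗ[K] K :=
      { toFun := fun t => ∑ i, algebraMap ℂ K (c i) * t i
        map_add' := fun s t => by
          rw [← Finset.sum_add_distrib]
          exact Finset.sum_congr rfl fun i _ => mul_add _ _ _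
        map_smul' := fun a t => by
          rw [RingHom.id_apply, smul_eq_mul, Finset.mul_sum]
          exact Finset.sum_congr rfl fun i _ => by
            rw [Pi.smul_apply, smul_eq_mul]; ring }
    have h4 : ∀ t, evMap (fun i => (b i : Fin n → K)) t = 0 → lc t = 0 := by
      intro t ht
      obtain ⟨x, rfl⟩ := (hr t).2 ht
      change ∑ i, algebraMap ℂ K (c i) * j x i = 0
      rw [← hrow, h3]
      simp
    obtain ⟨σ, hσ⟩ := (evMap (fun i => (b i : Fin n → K))).exists_rightInverse_of_surjective
      (LinearMap.range_eq_top.2 hsurj)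
    have hσ' : ∀ s, evMap (fun i => (b i : Fin n → K)) (σ s) = s := fun s =>
      LinearMap.congr_fun hσ s
    have h5 : ∀ t, (lc ∘ₗ σ) (evMap (fun i => (b i : Fin n → K)) t) = lc t := by
      intro t
      have h6 := h4 (σ (evMap (fun i => (b i : Fin n → K)) t) - t) (by
        rw [map_sub, hσ', sub_self])
      rw [map_sub, sub_eq_zero] at h6
      exact h6
    have h7 := stable_no_functional hK hE hn hd (lc ∘ₗ σ) (fun v s hs' => by
      obtain ⟨t, ht, rfl⟩ := exists_coord b hgen v hs'
      rw [h5]
      change v.val (∑ i, algebraMap ℂ K (c i) * t i) ≤ 1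
      refine Valuation.map_sum_le _ fun i _ => ?_
      rw [map_mul]
      exact mul_le_one' (v.const_le _) (ht i))
    funext i
    have h8 := h5 (Pi.single i 1)
    rw [h7, LinearMap.zero_apply] at h8
    have h9 : lc (Pi.single i 1) = algebraMap ℂ K (c i) := by
      change ∑ l, algebraMap ℂ K (c l) * (Pi.single i 1 : Fin k → K) l = _
      rw [Finset.sum_eq_single i]
      · rw [Pi.single_eq_same, mul_one]
      · intro l _ hl
        rw [Pi.single_eq_of_ne hl, mul_zero]
      · simp
    rw [h9] at h8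
    exact (map_eq_zero _).1 h8.symm
  obtain ⟨r1, r2, r3⟩ := rr hK hg (bdual M)
  have h3 := LinearMap.finrank_le_finrank_of_injective hΦ
  rw [Module.finrank_fintype_fun_eq_card, Fintype.card_fin] at h3
  rw [bdual_degree, hdeg, neg_neg] at r3
  have h4 : dualK hK hg (bdual M) ≠ ⊥ := by
    intro h
    rw [h, finrank_bot] at r3
    have h5 : (k : ℤ) ≤ Module.finrank ℂ (bdual M).sections := by exact_mod_cast h3
    omega
  obtain ⟨f, hf, hf0⟩ := Submodule.exists_mem_ne_zero_of_ne_bot h4
  -- the line subbundle generated by `f`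
  let jf : (Fin 1 → K) →ₗ[K] (Fin m → K) :=
    { toFun := fun x => x 0 • f
      map_add' := fun x y => add_smul _ _ _
      map_smul' := fun a x => mul_smul _ _ _ }
  have hjf : Function.Injective jf := by
    intro x y hxy
    have h5 : x 0 • f = y 0 • f := hxy
    have h6 : x 0 = y 0 := smul_left_injective K hf0 h5
    funext i
    rw [Subsingleton.elim i 0]
    exact h6
  obtain ⟨N, hN⟩ := exists_sub hK M jf hjf
  have h5 : (lsum (linv (can hK hg)) 1).degree ≤ N.degree := by
    apply degree_le_of_le hK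
    intro v x hx
    rw [hN.stalk, ← mem_bdual_bdual, mem_bdual]
    intro s hs'
    rw [mem_lsum_stalk] at hx
    have h6 := hf v s hs'
    have h7 : ∑ i, jf x i * s i = x 0 * ∑ i, f i * s i := by
      rw [Finset.mul_sum]
      refine Finset.sum_congr rfl fun i _ => ?_
      change (x 0 * f i) * s i = _
      ring
    rw [h7, map_mul]
    have h8 : v.val (x 0) ≤ v.val (((can hK hg).frame v)⁻¹ : Kˣ) := hx 0
    have h9 : v.val (∑ i, f i * s i) ≤ v.val ((can hK hg).frame v : K) := h6
    refine (mul_le_mul' h8 h9).trans ?_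
    rw [← map_mul, Units.inv_mul, map_one]
  rw [lsum_degree, linv_degree, can_degree, Nat.cast_one, one_mul] at h5
  have h6 := hss 1 N jf one_pos hN
  rw [Nat.cast_one, div_one] at h6
  have hm : 0 < m := by
    rcases Nat.eq_zero_or_pos m with rfl | h
    · exact absurd (Subsingleton.elim f 0) hf0
    · exact h
  have hm' : (0 : ℚ) < m := by exact_mod_cast hm
  rw [le_div_iff₀ hm', hdeg] at h6
  have h7 : (-(2 * genus K - 2 : ℤ) : ℚ) ≤ N.degree := by exact_mod_cast h5
  have h8 : ((m * (2 * genus K - 2 : ℤ) : ℤ) : ℚ) < E.degree := by exact_mod_cast h2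
  push_cast at h6 h7 h8
  nlinarith

/-- kernel bundles exist -/
theorem exists_kernelBundle (hK : IsCurve K) {E : Bundle K n} {V : Submodule ℂ (Fin n → K)}
    (b : Module.Basis (Fin k) ℂ V) (h : IsGeneratedBy E V) (hk : k = m + n) :
    ∃ M : Bundle K m, IsKernelBundle M V b := by
  have hsurj := evMap_surjective hK b h
  obtain ⟨M, j, hj, h1, h2⟩ := exists_ker_sub hK (trivialBundle K k)
    (evMap (fun i => (b i : Fin n → K))) hsurj hk
  refine ⟨M, j, hj.injective, fun t => ⟨?_, fun ht => h1 t ht⟩, fun v x => ?_⟩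
  · rintro ⟨x, rfl⟩
    exact h2 x
  · rw [hj.stalk, mem_trivial]
    rfl

end Pool.Agent.Helper395.BC
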